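import Mathlib

/-!
# Gaussian quantum Markov semigroups: definitions
-/

open Filter Topology
open scoped ENNReal ComplexConjugate InnerProductSpace

namespace GQ

/-! ### `C₀`-semigroups -/

/-- A `C₀`-semigroup `(T t)_{t ≥ 0}` (the values for `t < 0` are irrelevant). -/
structure C0Semigroup (E : Type*) [NormedAddCommGroup E] [NormedSpace ℂ E] where
  T : ℝ → E →L[ℂ] E
  map_zero : T 0 = 1
  map_add : ∀ s t : ℝ, 0 ≤ s → 0 ≤ t → T (s + t) = T s * T t
  cont : ∀ f : E, Tendsto (fun t => T t f) (𝓝[>] 0) (𝓝 f)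

variable {E : Type*} [NormedAddCommGroup E] [NormedSpace ℂ E]

/-- `f` is in the domain of the generator and its image is `g`. -/
def C0Semigroup.IsGen (P : C0Semigroup E) (f g : E) : Prop :=
  Tendsto (fun t : ℝ => ((t⁻¹ : ℝ) : ℂ) • (P.T t f - f)) (𝓝[>] 0) (𝓝 g)

/-- the open sector of half-angle `θ` -/
def sector (θ : ℝ) : Set ℂ := {z | z ≠ 0 ∧ |z.arg| < θ}

/-- The semigroup is analytic: for some `θ ∈ (0, π/2]` it extends to a holomorphic map on the
sector of half-angle `θ` which is bounded on the part `|z| ≤ 1` of the sector. -/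
def C0Semigroup.IsAnalytic (P : C0Semigroup E) : Prop :=
  ∃ θ : ℝ, 0 < θ ∧ θ ≤ Real.pi / 2 ∧ ∃ Q : ℂ → E →L[ℂ] E, DifferentiableOn ℂ Q (sector θ) ∧
    (∀ t : ℝ, 0 < t → Q t = P.T t) ∧ ∃ M : ℝ, ∀ z ∈ sector θ, ‖z‖ ≤ 1 → ‖Q z‖ ≤ M

/-! ### Fock space, ladder operators -/

/-- the Hilbert space `ℓ²(ℕ^d; ℂ)` -/
abbrev Fock (d : ℕ) : Type := lp (fun _ : Fin d → ℕ => ℂ) 2

/-- finite linear combinations of the basis vectors `e(n)` -/
abbrev FinVec (d : ℕ) : Type := (Fin d → ℕ) →₀ ℂ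

/-- the inclusion of the finite vectors into `ℓ²(ℕ^d; ℂ)`: the linear map with
`single n 1 ↦ e(n)` -/
noncomputable def emb (d : ℕ) : FinVec d →ₗ[ℂ] Fock d :=
  Finsupp.linearCombination ℂ
    (fun n => lp.single (E := fun _ : Fin d → ℕ => ℂ) 2 n (1 : ℂ))

/-- linear operators on the finite vectors -/
abbrev Op (d : ℕ) : Type := FinVec d →ₗ[ℂ] FinVec d

/-- the annihilation operator `a_j` on finite vectors: `a_j e(n) = √n_j e(n - ε_j)`
(`= 0` if `n_j = 0`) -/
noncomputable def ann {d : ℕ} (j : Fin d) : Op d :=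
  Finsupp.linearCombination ℂ
    (fun n => Finsupp.single (n - Pi.single j 1) ((Real.sqrt (n j) : ℝ) : ℂ))

/-- the creation operator `a_j^*` on finite vectors: `a_j^* e(n) = √(n_j+1) e(n + ε_j)` -/
noncomputable def cre {d : ℕ} (j : Fin d) : Op d :=
  Finsupp.linearCombination ℂ
    (fun n => Finsupp.single (n + Pi.single j 1) ((Real.sqrt (n j + 1) : ℝ) : ℂ))

/-- the quadratic expression `∑_{j,k} c_{jk} A_j B_k` -/
noncomputable def quad {d : ℕ} (c : Fin d → Fin d → ℂ) (A B : Fin d → Op d) : Op d :=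
  ∑ j, ∑ k, c j k • (A j ∘ₗ B k)

/-- the linear expression `∑_j c_j A_j` -/
noncomputable def lin {d : ℕ} (c : Fin d → ℂ) (A : Fin d → Op d) : Op d :=
  ∑ j, c j • A j

/-- the parameters of the model -/
structure Param (d : ℕ) where
  Ω : Matrix (Fin d) (Fin d) ℂ
  κ : Matrix (Fin d) (Fin d) ℂ
  U : Matrix (Fin (2 * d)) (Fin d) ℂ
  V : Matrix (Fin (2 * d)) (Fin d) ℂ
  ζ : Fin d → ℂ
  Ω_herm : Ω.IsHermitian
  κ_symm : κ.transpose = κ

namespace Param

variable {d : ℕ} (p : Param d)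

/-- the Hamiltonian `H` on finite vectors -/
noncomputable def H : Op d :=
  quad p.Ω cre ann + quad (fun j k => p.κ j k / 2) cre cre +
    quad (fun j k => conj (p.κ j k) / 2) ann ann +
    (lin (fun j => p.ζ j / 2) cre + lin (fun j => conj (p.ζ j) / 2) ann)

/-- the Kraus operators `L_ℓ` on finite vectors -/
noncomputable def L (l : Fin (2 * d)) : Op d :=
  lin (fun k => conj (p.V l k)) ann + lin (fun k => p.U l k) cre

/-- the adjoints `L_ℓ^*` on finite vectors -/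
noncomputable def Ls (l : Fin (2 * d)) : Op d :=
  lin (fun k => p.V l k) cre + lin (fun k => conj (p.U l k)) ann

/-- the operator `-iH - ½ ∑ L_ℓ^* L_ℓ` on finite vectors -/
noncomputable def G₀ : Op d :=
  (-Complex.I) • p.H - (1 / 2 : ℂ) • ∑ l, p.Ls l ∘ₗ p.L l

/-- `P` is the semigroup generated by the closure `G` of `G₀`. -/
def Generates (P : C0Semigroup (Fock d)) : Prop :=
  ∀ f g : Fock d, P.IsGen f g ↔
    (f, g) ∈ closure (Set.range fun x : FinVec d => (emb d x, emb d (p.G₀ x)))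

/-- The condition of the classification: for every `z ∈ ℂ^d` with `V̄ z + U z̄ = 0`
one has `Ω z + κ z̄ = 0` and `Re ⟨ζ, z⟩ = 0`. -/
def Cond : Prop :=
  ∀ z : Fin d → ℂ,
    (∀ l, ∑ k, (conj (p.V l k) * z k + p.U l k * conj (z k)) = 0) →
      (∀ j, ∑ k, (p.Ω j k * z k + p.κ j k * conj (z k)) = 0) ∧
      (∑ j, conj (p.ζ j) * z j).re = 0

end Param

end GQ
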