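import Mathlib
import Pool.Agent.GQ.Defs

open Filter Topology
open scoped ENNReal ComplexConjugate InnerProductSpace

namespace GQ

theorem emb_single {d : ℕ} (n : Fin d → ℕ) (c : ℂ) :
    emb d (Finsupp.single n c) = lp.single (E := fun _ : Fin d → ℕ => ℂ) 2 n c := by
  unfold emb
  rw [Finsupp.linearCombination_single, ← lp.single_smul]
  simp

theorem emb_apply {d : ℕ} (x : FinVec d) (n : Fin d → ℕ) :
    (emb d x : (Fin d → ℕ) → ℂ) n = x n := by
  induction x using Finsupp.induction_linear with
  | zero => simp
  | add f g hf hg =>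
    rw [map_add, lp.coeFn_add, Pi.add_apply, hf, hg, Finsupp.add_apply]
  | single a b =>
    rw [emb_single, lp.single_apply, Finsupp.single_apply]
    by_cases h : a = n
    · subst h; simp
    · rw [if_neg h, Pi.single_eq_of_ne (fun h' => h h'.symm)]

theorem emb_injective (d : ℕ) : Function.Injective (emb d) := by
  intro x y h
  ext n
  rw [← emb_apply, ← emb_apply, h]

theorem emb_dense (d : ℕ) : DenseRange (emb d) := by
  intro f
  have h := lp.hasSum_single (E := fun _ : Fin d → ℕ => ℂ) (p := 2) (by norm_num) f
  refine mem_closure_of_tendsto h (Filter.Eventually.of_forall fun s => ?_)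
  refine ⟨∑ i ∈ s, Finsupp.single i ((f : (Fin d → ℕ) → ℂ) i), ?_⟩
  rw [map_sum]
  exact Finset.sum_congr rfl fun i _ => emb_single i _

theorem ann_single {d : ℕ} (j : Fin d) (n : Fin d → ℕ) (c : ℂ) :
    ann j (Finsupp.single n c) = Finsupp.single (n - Pi.single j 1) (((Real.sqrt (n j) : ℝ) : ℂ) * c) := by
  unfold ann
  rw [Finsupp.linearCombination_single, Finsupp.smul_single, smul_eq_mul, mul_comm]

theorem cre_single {d : ℕ} (j : Fin d) (n : Fin d → ℕ) (c : ℂ) :
    cre j (Finsupp.single n c) =
      Finsupp.single (n + Pi.single j 1) (((Real.sqrt (n j + 1) : ℝ) : ℂ) * c) := by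
  unfold cre
  rw [Finsupp.linearCombination_single, Finsupp.smul_single, smul_eq_mul, mul_comm]

theorem inner_emb_single {d : ℕ} (n m : Fin d → ℕ) (a b : ℂ) :
    ⟪emb d (Finsupp.single n a), emb d (Finsupp.single m b)⟫_ℂ = if n = m then conj a * b else 0 := by
  rw [emb_single, lp.inner_single_left, emb_apply, Finsupp.single_apply]
  by_cases h : n = m
  · subst h
    simp [mul_comm]
  · rw [if_neg h, if_neg (fun h' => h h'.symm)]
    simp

theorem shift_iff {d : ℕ} (j : Fin d) (n m : Fin d → ℕ) (h : n j ≠ 0) :
    n - Pi.single j 1 = m ↔ n = m + Pi.single j 1 := by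
  constructor
  · rintro rfl
    funext i
    by_cases hi : i = j
    · subst hi
      simp only [Pi.add_apply, Pi.sub_apply, Pi.single_eq_same]
      omega
    · simp [Pi.single_eq_of_ne hi]
  · rintro rfl
    funext i
    simp

/-- `a_j` and `a_j^*` are formal adjoints of each other -/
theorem inner_ann {d : ℕ} (j : Fin d) (x y : FinVec d) :
    ⟪emb d (ann j x), emb d y⟫_ℂ = ⟪emb d x, emb d (cre j y)⟫_ℂ := by
  induction x using Finsupp.induction_linear with
  | zero => simp
  | add f g hf hg => rw [map_add, map_add, map_add, inner_add_left, inner_add_left, hf, hg]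
  | single n a =>
    induction y using Finsupp.induction_linear with
    | zero => simp
    | add f g hf hg => rw [map_add, map_add, map_add, inner_add_right, inner_add_right, hf, hg]
    | single m b =>
      rw [ann_single, cre_single, inner_emb_single, inner_emb_single]
      by_cases hn : n j = 0
      · rw [hn]
        have h1 : n ≠ m + Pi.single j 1 := by
          intro h
          rw [h] at hn
          simp at hn
        rw [if_neg h1]
        simp
      · by_cases h : n = m + Pi.single j 1
        · rw [if_pos ((shift_iff j n m hn).mpr h), if_pos h]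
          have : n j = m j + 1 := by rw [h]; simp
          rw [this, map_mul, Complex.conj_ofReal]
          push_cast
          ring
        · rw [if_neg (fun h' => h ((shift_iff j n m hn).mp h')), if_neg h]

theorem inner_cre {d : ℕ} (j : Fin d) (x y : FinVec d) :
    ⟪emb d (cre j x), emb d y⟫_ℂ = ⟪emb d x, emb d (ann j y)⟫_ℂ := by
  rw [← inner_conj_symm, ← inner_ann, inner_conj_symm]

/-- the canonical commutation relations -/
theorem ccr {d : ℕ} (j k : Fin d) (x : FinVec d) :
    ann j (cre k x) = cre k (ann j x) + (if j = k then x else 0) := by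
  induction x using Finsupp.induction_linear with
  | zero => simp
  | add f g hf hg =>
    rw [map_add, map_add, map_add, map_add, hf, hg]
    split_ifs
    · abel
    · abel
  | single n a =>
    rw [cre_single, ann_single, ann_single, cre_single]
    by_cases hjk : j = k
    · subst hjk
      rw [if_pos rfl, add_tsub_cancel_right]
      have h1 : ((n + Pi.single j 1 : Fin d → ℕ) j : ℝ) = (n j : ℝ) + 1 := by simp
      rw [h1]
      by_cases hn : n j = 0
      · rw [hn]
        simp
      · have h2 : n - Pi.single j 1 + Pi.single j 1 = n := by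
          exact ((shift_iff j n _ hn).mp rfl).symm
        have h3 : (((n - Pi.single j 1 : Fin d → ℕ) j : ℕ) : ℝ) + 1 = n j := by
          have : (n - Pi.single j 1 : Fin d → ℕ) j + 1 = n j := by
            simp only [Pi.sub_apply, Pi.single_eq_same]
            omega
          exact_mod_cast this
        rw [h2, h3, ← Finsupp.single_add]
        congr 1
        have e1 : ((Real.sqrt ((n j : ℝ) + 1) : ℝ) : ℂ) * ((Real.sqrt ((n j : ℝ) + 1) : ℝ) : ℂ) =
            (n j : ℂ) + 1 := by
          rw [← Complex.ofReal_mul, Real.mul_self_sqrt (by positivity)]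
          push_cast; ring
        have e2 : ((Real.sqrt (n j : ℝ) : ℝ) : ℂ) * ((Real.sqrt (n j : ℝ) : ℝ) : ℂ) = (n j : ℂ) := by
          rw [← Complex.ofReal_mul, Real.mul_self_sqrt (by positivity)]
          push_cast; ring
        linear_combination a * e1 - a * e2
    · rw [if_neg hjk, add_zero]
      have h1 : (n + Pi.single k 1 : Fin d → ℕ) j = n j := by
        simp [Pi.single_eq_of_ne hjk]
      have h2 : (n - Pi.single j 1 : Fin d → ℕ) k = n k := by
        simp [Pi.single_eq_of_ne (fun h => hjk h.symm : k ≠ j)]
      have h3 : n + Pi.single k 1 - Pi.single j 1 = n - Pi.single j 1 + Pi.single k 1 := by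
        funext i
        by_cases hi : i = j
        · subst hi
          simp [Pi.single_eq_of_ne hjk]
        · simp [Pi.single_eq_of_ne hi]
      rw [h1, h2, h3]
      congr 1
      ring

theorem ann_comm {d : ℕ} (j k : Fin d) (x : FinVec d) : ann j (ann k x) = ann k (ann j x) := by
  induction x using Finsupp.induction_linear with
  | zero => simp
  | add f g hf hg => rw [map_add, map_add, map_add, map_add, hf, hg]
  | single n a =>
    rw [ann_single, ann_single, ann_single, ann_single]
    by_cases hjk : j = k
    · subst hjk; rfl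
    · have h1 : (n - Pi.single k 1 : Fin d → ℕ) j = n j := by
        simp [Pi.single_eq_of_ne hjk]
      have h2 : (n - Pi.single j 1 : Fin d → ℕ) k = n k := by
        simp [Pi.single_eq_of_ne (fun h => hjk h.symm : k ≠ j)]
      rw [h1, h2, tsub_tsub, tsub_tsub, add_comm (Pi.single k 1)]
      congr 1
      ring

theorem cre_comm {d : ℕ} (j k : Fin d) (x : FinVec d) : cre j (cre k x) = cre k (cre j x) := by
  induction x using Finsupp.induction_linear with
  | zero => simp
  | add f g hf hg => rw [map_add, map_add, map_add, map_add, hf, hg]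
  | single n a =>
    rw [cre_single, cre_single, cre_single, cre_single]
    by_cases hjk : j = k
    · subst hjk; rfl
    · have h1 : (n + Pi.single k 1 : Fin d → ℕ) j = n j := by
        simp [Pi.single_eq_of_ne hjk]
      have h2 : (n + Pi.single j 1 : Fin d → ℕ) k = n k := by
        simp [Pi.single_eq_of_ne (fun h => hjk h.symm : k ≠ j)]
      rw [h1, h2, add_right_comm]
      congr 1
      ring

theorem ann_vac {d : ℕ} (j : Fin d) : ann j (Finsupp.single 0 1 : FinVec d) = 0 := by
  rw [ann_single]
  simp

namespace Param

variable {d : ℕ} (p : Param d)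

theorem H_old : p.H =
    ∑ j, ∑ k, (p.Ω j k • (cre j * ann k : Module.End ℂ (FinVec d)) +
    (p.κ j k / 2) • (cre j * cre k : Module.End ℂ (FinVec d)) +
    (conj (p.κ j k) / 2) • (ann j * ann k : Module.End ℂ (FinVec d))) +
  ∑ j, ((p.ζ j / 2) • cre j + (conj (p.ζ j) / 2) • ann j) := by
  unfold H quad lin
  simp only [Finset.sum_add_distrib]
  rfl

theorem L_old (l : Fin (2 * d)) : p.L l = ∑ k, (conj (p.V l k) • ann k + p.U l k • cre k) := by
  unfold L lin
  simp only [Finset.sum_add_distrib]

theorem Ls_old (l : Fin (2 * d)) : p.Ls l = ∑ k, (p.V l k • cre k + conj (p.U l k) • ann k) := by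
  unfold Ls lin
  simp only [Finset.sum_add_distrib]

theorem G₀_old : p.G₀ =
    (-Complex.I) • p.H - (1 / 2 : ℂ) • ∑ l, (p.Ls l * p.L l : Module.End ℂ (FinVec d)) := rfl

end Param

end GQ
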