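import Mathlib
import Pool.Agent.GQ.Defs
import Pool.Agent.GQ.Ladder

open Filter Topology
open scoped ENNReal ComplexConjugate InnerProductSpace

namespace GQ

/-! ### TARGETS -/


/-- the terms of the exponential series -/
noncomputable def cohR {d : ℕ} (z : Fin d → ℂ) : ℕ → FinVec d
  | 0 => Finsupp.single 0 1
  | k + 1 => ((1 : ℂ) / ((k : ℂ) + 1)) • ∑ j, z j • cre j (cohR z k)

theorem cohR_succ {d : ℕ} (z : Fin d → ℂ) (k : ℕ) :
    cohR z (k + 1) = ((1 : ℂ) / ((k : ℂ) + 1)) • ∑ j, z j • cre j (cohR z k) := rfl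

theorem coh_annZ {d : ℕ} (z : Fin d → ℂ) (j : Fin d) (y : FinVec d) :
    ann j (∑ i, z i • cre i y) = ∑ i, z i • cre i (ann j y) + z j • y := by
  rw [map_sum]
  have h : ∀ i, ann j (z i • cre i y) = z i • cre i (ann j y) + (if j = i then z i • y else 0) := by
    intro i
    rw [map_smul, ccr, smul_add]
    congr 1
    split_ifs with h
    · rfl
    · rw [smul_zero]
  simp only [h]
  rw [Finset.sum_add_distrib, Finset.sum_ite_eq]
  simp

theorem coh_ann_succ {d : ℕ} (z : Fin d → ℂ) (j : Fin d) (k : ℕ) :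
    ann j (cohR z (k + 1)) = z j • cohR z k := by
  induction k with
  | zero =>
    rw [cohR_succ, map_smul, coh_annZ]
    have h : ann j (cohR z 0) = 0 := ann_vac j
    rw [h]
    simp
  | succ k ih =>
    rw [cohR_succ, map_smul, coh_annZ, ih]
    have h1 : ∑ i, z i • cre i (z j • cohR z k) = z j • (((k : ℂ) + 1) • cohR z (k + 1)) := by
      have h2 : ((k : ℂ) + 1) • cohR z (k + 1) = ∑ i, z i • cre i (cohR z k) := by
        rw [cohR_succ, smul_smul, mul_one_div, div_self (by exact_mod_cast Nat.succ_ne_zero k), one_smul]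
      rw [h2, Finset.smul_sum]
      refine Finset.sum_congr rfl fun i _ => ?_
      rw [map_smul, smul_comm]
    rw [h1, ← smul_add]
    have h3 : ((k : ℂ) + 1) • cohR z (k + 1) + cohR z (k + 1) =
        ((k : ℂ) + 1 + 1) • cohR z (k + 1) := by
      rw [add_smul ((k : ℂ) + 1), one_smul]
    rw [h3, smul_comm]
    have h4 : (1 : ℂ) / (((k + 1 : ℕ) : ℂ) + 1) * ((k : ℂ) + 1 + 1) = 1 := by
      push_cast
      have : (k : ℂ) + 1 + 1 ≠ 0 := by exact_mod_cast Nat.succ_ne_zero (k + 1)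
      field_simp
    congr 1
    rw [smul_smul, h4, one_smul]

theorem coh_norm_succ {d : ℕ} (z : Fin d → ℂ) (k : ℕ) :
    ‖emb d (cohR z (k + 1))‖ ^ 2 =
      ((∑ j, ‖z j‖ ^ 2) / ((k : ℝ) + 1)) * ‖emb d (cohR z k)‖ ^ 2 := by
  have h1 : ⟪emb d (cohR z (k + 1)), emb d (cohR z (k + 1))⟫_ℂ =
      (((∑ j, ‖z j‖ ^ 2) / ((k : ℝ) + 1) : ℝ) : ℂ) *
        ⟪emb d (cohR z k), emb d (cohR z k)⟫_ℂ := by
    have h2 : emb d (cohR z (k + 1)) =
        ((1 : ℂ) / ((k : ℂ) + 1)) • ∑ j, z j • emb d (cre j (cohR z k)) := by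
      rw [cohR_succ, map_smul, map_sum]
      simp only [map_smul]
    conv_lhs => rw [h2]
    rw [inner_smul_left, sum_inner]
    have h3 : ∀ j, ⟪z j • emb d (cre j (cohR z k)),
        ((1 : ℂ) / ((k : ℂ) + 1)) • ∑ j, z j • emb d (cre j (cohR z k))⟫_ℂ =
        ((‖z j‖ ^ 2 : ℝ) : ℂ) * ⟪emb d (cohR z k), emb d (cohR z k)⟫_ℂ := by
      intro j
      rw [← h2, inner_smul_left, inner_cre, coh_ann_succ, map_smul, inner_smul_right, ← mul_assoc,
        ← Complex.normSq_eq_conj_mul_self, Complex.normSq_eq_norm_sq]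
    simp only [h3]
    rw [← Finset.sum_mul, ← mul_assoc]
    congr 1
    rw [map_div₀, map_one, map_add, map_one, Complex.conj_natCast]
    push_cast
    ring
  rw [inner_self_eq_norm_sq_to_K, inner_self_eq_norm_sq_to_K] at h1
  have h4 := congrArg Complex.re h1
  rw [Complex.re_ofReal_mul] at h4
  have h5 : ∀ t : ℝ, (((t : ℝ) : ℂ) ^ 2).re = t ^ 2 := by
    intro t
    rw [← Complex.ofReal_pow, Complex.ofReal_re]
  have e1 := h5 ‖emb d (cohR z (k + 1))‖
  have e2 := h5 ‖emb d (cohR z k)‖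
  rw [← e1, ← e2]
  exact h4

theorem coh_norm {d : ℕ} (z : Fin d → ℂ) (k : ℕ) :
    ‖emb d (cohR z k)‖ ^ 2 =
      (∑ j, ‖z j‖ ^ 2) ^ k / (k.factorial : ℝ) * ‖emb d (cohR z 0)‖ ^ 2 := by
  induction k with
  | zero => simp
  | succ k ih =>
    rw [coh_norm_succ, ih, Nat.factorial_succ, pow_succ]
    push_cast
    have h1 : (k.factorial : ℝ) ≠ 0 := by exact_mod_cast Nat.factorial_ne_zero k
    have h2 : (k : ℝ) + 1 ≠ 0 := by exact_mod_cast Nat.succ_ne_zero k
    field_simp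
    ring

theorem coh_norm_zero {d : ℕ} (z : Fin d → ℂ) : ‖emb d (cohR z 0)‖ = 1 := by
  rw [cohR, emb_single, lp.norm_single (by norm_num)]
  simp

theorem coh_tendsto {d : ℕ} (z : Fin d → ℂ) :
    Tendsto (fun k => ‖emb d (cohR z k)‖) atTop (𝓝 0) := by
  have h1 : Tendsto (fun k => ‖emb d (cohR z k)‖ ^ 2) atTop (𝓝 0) := by
    simp only [coh_norm z, coh_norm_zero, one_pow, mul_one]
    exact FloorSemiring.tendsto_pow_div_factorial_atTop _
  have h2 := h1.sqrt
  simp only [Real.sqrt_zero] at h2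
  refine h2.congr fun k => ?_
  rw [Real.sqrt_sq (norm_nonneg _)]

theorem coh_inner {d : ℕ} (z : Fin d → ℂ) (k : ℕ) :
    ⟪emb d (cohR z 0), emb d (cohR z (k + 1))⟫_ℂ = 0 := by
  rw [cohR, cohR, map_smul, map_sum, inner_smul_right, inner_sum]
  have h : ∀ j : Fin d, ⟪emb d (Finsupp.single 0 1), emb d (z j • cre j (cohR z k))⟫_ℂ = 0 := by
    intro j
    rw [map_smul, inner_smul_right, ← inner_ann, ann_vac, map_zero, inner_zero_left, mul_zero]
  simp only [h]
  simp

theorem coh_cre_norm {d : ℕ} (k : Fin d) (y : FinVec d) :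
    ‖emb d (cre k y)‖ ≤ ‖emb d (ann k y)‖ + ‖emb d y‖ := by
  have h1 : ⟪emb d (cre k y), emb d (cre k y)⟫_ℂ =
      ⟪emb d (ann k y), emb d (ann k y)⟫_ℂ + ⟪emb d y, emb d y⟫_ℂ := by
    rw [inner_cre, ccr, if_pos rfl, map_add, inner_add_right, ← inner_ann]
  have h2 := congrArg RCLike.re h1
  rw [map_add, inner_self_eq_norm_sq, inner_self_eq_norm_sq, inner_self_eq_norm_sq] at h2
  have h3 : ‖emb d (cre k y)‖ ^ 2 ≤ (‖emb d (ann k y)‖ + ‖emb d y‖) ^ 2 := by
    have := norm_nonneg (emb d (ann k y))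
    have := norm_nonneg (emb d y)
    rw [h2]
    nlinarith
  exact le_of_sq_le_sq h3 (by positivity)

/-- the partial sums -/
noncomputable def cohU {d : ℕ} (z : Fin d → ℂ) (N : ℕ) : FinVec d :=
  ∑ k ∈ Finset.range (N + 1), cohR z k

theorem coh_annU {d : ℕ} (z : Fin d → ℂ) (j : Fin d) (N : ℕ) :
    ann j (cohU z N) - z j • cohU z N = -(z j • cohR z N) := by
  have h1 : ann j (cohU z N) = z j • ∑ k ∈ Finset.range N, cohR z k := by
    unfold cohU
    rw [Finset.sum_range_succ', map_add, map_sum, Finset.smul_sum]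
    have h : ann j (cohR z 0) = 0 := ann_vac j
    rw [h, add_zero]
    exact Finset.sum_congr rfl fun k _ => coh_ann_succ z j k
  have h2 : cohU z N = ∑ k ∈ Finset.range N, cohR z k + cohR z N := Finset.sum_range_succ _ _
  rw [h1, h2, smul_add]
  abel

/-- truncated coherent states at `z`: almost annihilated by `a_j - z_j` -/
theorem exists_coherent {d : ℕ} (z : Fin d → ℂ) (η : ℝ) (hη : 0 < η) :
    ∃ x : FinVec d, 1 ≤ ‖emb d x‖ ∧
      (∀ j, ‖emb d (ann j x - z j • x)‖ ≤ η) ∧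
      (∀ j k, ‖emb d (ann k (ann j x - z j • x) - z k • (ann j x - z j • x))‖ ≤ η) ∧
      (∀ j k, ‖emb d (cre k (ann j x - z j • x) - conj (z k) • (ann j x - z j • x))‖ ≤ η) := by
  set M : ℝ := 1 + ∑ j, ‖z j‖ with hM
  have hMj : ∀ j, ‖z j‖ ≤ M := by
    intro j
    have := Finset.single_le_sum (f := fun j => ‖z j‖) (fun i _ => norm_nonneg _)
      (Finset.mem_univ j)
    have h : ‖z j‖ ≤ ∑ j, ‖z j‖ := this
    linarith
  have hM1 : 1 ≤ M := by
    have : 0 ≤ ∑ j, ‖z j‖ := Finset.sum_nonneg fun i _ => norm_nonneg _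
    linarith
  have hM0 : 0 < M := by linarith
  set δ : ℝ := η / (3 * M ^ 2) with hδ
  have hδ0 : 0 < δ := by positivity
  have hδe : 3 * M ^ 2 * δ = η := by rw [hδ]; field_simp
  obtain ⟨n, hn⟩ := Filter.eventually_atTop.1 ((coh_tendsto z).eventually (gt_mem_nhds hδ0))
  have hn0 : ‖emb d (cohR z n)‖ ≤ δ := (hn n le_rfl).le
  have hn1 : ‖emb d (cohR z (n + 1))‖ ≤ δ := (hn (n + 1) (Nat.le_succ n)).le
  have hMM : M ≤ M ^ 2 := by nlinarith
  refine ⟨cohU z (n + 1), ?_, ?_, ?_, ?_⟩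
  · -- norm at least one
    have h1 : ⟪emb d (cohR z 0), emb d (cohU z (n + 1))⟫_ℂ = 1 := by
      unfold cohU
      rw [Finset.sum_range_succ', map_add, map_sum, inner_add_right, inner_sum]
      simp only [coh_inner, Finset.sum_const_zero, zero_add]
      rw [inner_self_eq_norm_sq_to_K, coh_norm_zero]
      simp
    have h2 := norm_inner_le_norm (𝕜 := ℂ) (emb d (cohR z 0)) (emb d (cohU z (n + 1)))
    rw [h1, coh_norm_zero] at h2
    simpa using h2
  · intro j
    rw [coh_annU, map_neg, norm_neg, map_smul, norm_smul]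
    calc ‖z j‖ * ‖emb d (cohR z (n + 1))‖ ≤ M * δ :=
          mul_le_mul (hMj j) hn1 (norm_nonneg _) hM0.le
      _ ≤ η := by nlinarith
  · intro j k
    rw [coh_annU, map_neg, map_smul, coh_ann_succ]
    have e1 : -(z j • z k • cohR z n) - z k • -(z j • cohR z (n + 1)) =
        (z j * z k) • (cohR z (n + 1) - cohR z n) := by
      rw [smul_neg, smul_sub, smul_smul, smul_smul, mul_comm (z k) (z j)]
      abel
    rw [e1, map_smul, norm_smul, norm_mul, map_sub]
    have h3 := norm_sub_le (emb d (cohR z (n + 1))) (emb d (cohR z n))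
    calc ‖z j‖ * ‖z k‖ * ‖emb d (cohR z (n + 1)) - emb d (cohR z n)‖
        ≤ (M * M) * (δ + δ) :=
          mul_le_mul (mul_le_mul (hMj j) (hMj k) (norm_nonneg _) hM0.le) (by linarith)
            (norm_nonneg _) (by positivity)
      _ ≤ η := by nlinarith
  · intro j k
    rw [coh_annU, map_neg, map_smul]
    have e1 : -(z j • cre k (cohR z (n + 1))) - conj (z k) • -(z j • cohR z (n + 1)) =
        (-(z j)) • (cre k (cohR z (n + 1)) - conj (z k) • cohR z (n + 1)) := by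
      rw [smul_neg, smul_sub, smul_comm (conj (z k)), neg_smul, neg_smul]
    rw [e1, map_smul, norm_smul, norm_neg, map_sub, map_smul]
    have h3 := norm_sub_le (emb d (cre k (cohR z (n + 1)))) (conj (z k) • emb d (cohR z (n + 1)))
    rw [norm_smul, RCLike.norm_conj] at h3
    have h4 := coh_cre_norm k (cohR z (n + 1))
    rw [coh_ann_succ, map_smul, norm_smul] at h4
    have h5 : ‖z k‖ * ‖emb d (cohR z n)‖ ≤ M * δ :=
      mul_le_mul (hMj k) hn0 (norm_nonneg _) hM0.le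
    have h6 : ‖z k‖ * ‖emb d (cohR z (n + 1))‖ ≤ M * δ :=
      mul_le_mul (hMj k) hn1 (norm_nonneg _) hM0.le
    have h7 : δ ≤ M * δ := by nlinarith
    calc ‖z j‖ * ‖emb d (cre k (cohR z (n + 1))) - conj (z k) • emb d (cohR z (n + 1))‖
        ≤ M * (3 * (M * δ)) :=
          mul_le_mul (hMj j) (by linarith) (norm_nonneg _) hM0.le
      _ = η := by rw [← hδe]; ring

end GQ
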