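import Mathlib
import Pool.Agent.GQ.Defs

/-!
# Gaussian quantum Markov semigroups: the symbols of `H` and `L_ℓ`
-/

open Filter Topology
open scoped ENNReal ComplexConjugate InnerProductSpace

namespace GQ

namespace Param

variable {d : ℕ} (p : Param d)

/-- `J z = Ω z + κ z̄` -/
noncomputable def J (z : Fin d → ℂ) (j : Fin d) : ℂ :=
  ∑ k, (p.Ω j k * z k + p.κ j k * conj (z k))

/-- the symbol of `L_ℓ` -/
noncomputable def Lz (z : Fin d → ℂ) (l : Fin (2 * d)) : ℂ :=
  ∑ k, (conj (p.V l k) * z k + p.U l k * conj (z k))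

/-- the symbol of `H` -/
noncomputable def Hz (z : Fin d → ℂ) : ℝ :=
  (∑ j, conj (z j) * p.J z j).re + (∑ j, conj (p.ζ j) * z j).re

end Param

end GQ
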