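import Mathlib
import Pool.Agent.GQ.Defs
import Pool.Agent.GQ.Ladder
import Pool.Agent.GQ.Symbols
import Pool.Agent.GQ.Coherent

open Filter Topology
open scoped ENNReal ComplexConjugate InnerProductSpace

namespace GQ

/-- the norm of a finite vector -/
noncomputable def nm {d : ℕ} (y : FinVec d) : ℝ := ‖emb d y‖

section disp

variable {d : ℕ}

theorem nm_nonneg (y : FinVec d) : 0 ≤ nm y := norm_nonneg _

theorem nm_add (x y : FinVec d) : nm (x + y) ≤ nm x + nm y := by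
  unfold nm; rw [map_add]; exact norm_add_le _ _

theorem nm_smul (c : ℂ) (y : FinVec d) : nm (c • y) = ‖c‖ * nm y := by
  unfold nm; rw [map_smul]; exact norm_smul _ _

theorem nm_sum {ι : Type} (s : Finset ι) (f : ι → FinVec d) :
    nm (∑ i ∈ s, f i) ≤ ∑ i ∈ s, nm (f i) := by
  unfold nm; rw [map_sum]; exact norm_sum_le _ _

variable (z : Fin d → ℂ)

/-- displaced annihilation operator -/
noncomputable def bb (j : Fin d) : FinVec d →ₗ[ℂ] FinVec d := ann j - z j • LinearMap.id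

/-- displaced creation operator -/
noncomputable def bs (j : Fin d) : FinVec d →ₗ[ℂ] FinVec d := cre j - conj (z j) • LinearMap.id

theorem bb_apply (j : Fin d) (y : FinVec d) : bb z j y = ann j y - z j • y := by simp [bb]

theorem bs_apply (j : Fin d) (y : FinVec d) : bs z j y = cre j y - conj (z j) • y := by simp [bs]

theorem ann_eq_bb (j : Fin d) (y : FinVec d) : ann j y = bb z j y + z j • y := by
  rw [bb_apply]; abel

theorem cre_eq_bs (j : Fin d) (y : FinVec d) : cre j y = bs z j y + conj (z j) • y := by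
  rw [bs_apply]; abel

theorem inner_bs (j : Fin d) (x y : FinVec d) :
    ⟪emb d (bs z j x), emb d y⟫_ℂ = ⟪emb d x, emb d (bb z j y)⟫_ℂ := by
  rw [bs_apply, bb_apply, map_sub, map_sub, inner_sub_left, inner_sub_right, inner_cre, map_smul,
    map_smul, inner_smul_left, inner_smul_right]
  simp

theorem bb_bs (j k : Fin d) (y : FinVec d) :
    bb z j (bs z k y) = bs z k (bb z j y) + (if j = k then y else 0) := by
  simp only [bb_apply, bs_apply, map_sub, map_smul, ccr]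
  module

theorem nm_bs_sq (j : Fin d) (y : FinVec d) :
    nm (bs z j y) ^ 2 = nm (bb z j y) ^ 2 + nm y ^ 2 := by
  have h1 : ⟪emb d (bs z j y), emb d (bs z j y)⟫_ℂ =
      ⟪emb d (bb z j y), emb d (bb z j y)⟫_ℂ + ⟪emb d y, emb d y⟫_ℂ := by
    rw [inner_bs, bb_bs, if_pos rfl, map_add, inner_add_right]
    congr 1
    rw [← inner_conj_symm, inner_bs, inner_conj_symm]
  rw [inner_self_eq_norm_sq_to_K, inner_self_eq_norm_sq_to_K, inner_self_eq_norm_sq_to_K] at h1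
  have h2 : ((nm (bs z j y) ^ 2 : ℝ) : ℂ) = ((nm (bb z j y) ^ 2 + nm y ^ 2 : ℝ) : ℂ) := by
    push_cast
    exact h1
  exact_mod_cast h2

end disp

namespace Param

variable {d : ℕ} (p : Param d)

theorem Hz_eq (z : Fin d → ℂ) : (p.Hz z : ℂ) =
    ∑ j, ∑ k, (p.Ω j k * (z k * conj (z j)) + p.κ j k / 2 * (conj (z j) * conj (z k)) +
      conj (p.κ j k) / 2 * (z j * z k)) +
    ∑ j, (p.ζ j / 2 * conj (z j) + conj (p.ζ j) / 2 * z j) := by
  have hA : conj (∑ j, ∑ k, p.Ω j k * (z k * conj (z j))) =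
      ∑ j, ∑ k, p.Ω j k * (z k * conj (z j)) := by
    simp only [map_sum, map_mul, Complex.conj_conj]
    rw [Finset.sum_comm]
    refine Finset.sum_congr rfl fun j _ => Finset.sum_congr rfl fun k _ => ?_
    have h1 : conj (p.Ω k j) = p.Ω j k := p.Ω_herm.apply j k
    rw [h1]
    ring
  have hB : conj (∑ j, ∑ k, p.κ j k * (conj (z j) * conj (z k))) =
      ∑ j, ∑ k, conj (p.κ j k) * (z j * z k) := by
    simp [map_sum]
  have hJ : ∑ j, conj (z j) * p.J z j = ∑ j, ∑ k, p.Ω j k * (z k * conj (z j)) +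
      ∑ j, ∑ k, p.κ j k * (conj (z j) * conj (z k)) := by
    rw [← Finset.sum_add_distrib]
    refine Finset.sum_congr rfl fun j _ => ?_
    rw [← Finset.sum_add_distrib, J, Finset.mul_sum]
    refine Finset.sum_congr rfl fun k _ => ?_
    ring
  have hZ : conj (∑ j, conj (p.ζ j) * z j) = ∑ j, p.ζ j * conj (z j) := by
    simp [map_sum]
  unfold Hz
  push_cast
  rw [Complex.re_eq_add_conj, Complex.re_eq_add_conj, hZ, hJ, map_add, hA, hB]
  have e1 : ∑ j, ∑ k, (p.Ω j k * (z k * conj (z j)) + p.κ j k / 2 * (conj (z j) * conj (z k)) +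
      conj (p.κ j k) / 2 * (z j * z k)) = ∑ j, ∑ k, p.Ω j k * (z k * conj (z j)) +
      (1 / 2) * ∑ j, ∑ k, p.κ j k * (conj (z j) * conj (z k)) +
      (1 / 2) * ∑ j, ∑ k, conj (p.κ j k) * (z j * z k) := by
    rw [Finset.mul_sum, Finset.mul_sum, ← Finset.sum_add_distrib, ← Finset.sum_add_distrib]
    refine Finset.sum_congr rfl fun j _ => ?_
    rw [Finset.mul_sum, Finset.mul_sum, ← Finset.sum_add_distrib, ← Finset.sum_add_distrib]
    refine Finset.sum_congr rfl fun k _ => ?_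
    ring
  have e2 : ∑ j, (p.ζ j / 2 * conj (z j) + conj (p.ζ j) / 2 * z j) =
      (1 / 2) * ∑ j, p.ζ j * conj (z j) + (1 / 2) * ∑ j, conj (p.ζ j) * z j := by
    rw [Finset.mul_sum, Finset.mul_sum, ← Finset.sum_add_distrib]
    refine Finset.sum_congr rfl fun j _ => ?_
    ring
  rw [e1, e2]
  ring

/-- the error term of `H` at a displaced vector -/
noncomputable def Rem (z : Fin d → ℂ) (x : FinVec d) : FinVec d :=
  ∑ j, ∑ k, (p.Ω j k • (bs z j (bb z k x) + conj (z j) • bb z k x) +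
    (p.κ j k / 2) • bs z j (bs z k x) +
    (conj (p.κ j k) / 2) • (bb z j (bb z k x) + z j • bb z k x + z k • bb z j x)) +
  ∑ j, (conj (p.ζ j) / 2) • bb z j x

theorem H_expand (z : Fin d → ℂ) (x : FinVec d) : p.H x =
    (p.Hz z : ℂ) • x + ∑ j, (p.J z j + p.ζ j / 2) • bs z j x + p.Rem z x := by
  have h1 : p.H x = ∑ j, ∑ k, (p.Ω j k • cre j (ann k x) + (p.κ j k / 2) • cre j (cre k x) +
      (conj (p.κ j k) / 2) • ann j (ann k x)) +
      ∑ j, ((p.ζ j / 2) • cre j x + (conj (p.ζ j) / 2) • ann j x) := by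
    rw [H_old]
    simp
  have hca : ∀ j k, cre j (ann k x) = bs z j (bb z k x) + conj (z j) • bb z k x +
      z k • bs z j x + (z k * conj (z j)) • x := by
    intro j k
    rw [ann_eq_bb z k x, map_add, map_smul, cre_eq_bs z j (bb z k x), cre_eq_bs z j x]
    module
  have hcc : ∀ j k, cre j (cre k x) = bs z j (bs z k x) + conj (z j) • bs z k x +
      conj (z k) • bs z j x + (conj (z j) * conj (z k)) • x := by
    intro j k
    rw [cre_eq_bs z k x, map_add, map_smul, cre_eq_bs z j (bs z k x), cre_eq_bs z j x]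
    module
  have haa : ∀ j k, ann j (ann k x) = bb z j (bb z k x) + z j • bb z k x +
      z k • bb z j x + (z j * z k) • x := by
    intro j k
    rw [ann_eq_bb z k x, map_add, map_smul, ann_eq_bb z j (bb z k x), ann_eq_bb z j x]
    module
  have hsym : ∑ j, ∑ k, (p.κ j k / 2) • (conj (z j) • bs z k x) =
      ∑ j, ∑ k, (p.κ j k / 2) • (conj (z k) • bs z j x) := by
    rw [Finset.sum_comm]
    refine Finset.sum_congr rfl fun j _ => Finset.sum_congr rfl fun k _ => ?_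
    have : p.κ k j = p.κ j k := by
      conv_rhs => rw [← p.κ_symm]
      rfl
    rw [this]
  have hS : ∑ j, (p.J z j + p.ζ j / 2) • bs z j x =
      ∑ j, ∑ k, (p.Ω j k * z k) • bs z j x + ∑ j, ∑ k, (p.κ j k / 2) • (conj (z k) • bs z j x) +
      ∑ j, ∑ k, (p.κ j k / 2) • (conj (z k) • bs z j x) + ∑ j, (p.ζ j / 2) • bs z j x := by
    rw [← Finset.sum_add_distrib, ← Finset.sum_add_distrib, ← Finset.sum_add_distrib]
    refine Finset.sum_congr rfl fun j _ => ?_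
    rw [add_smul, J, Finset.sum_smul]
    congr 1
    rw [← Finset.sum_add_distrib, ← Finset.sum_add_distrib]
    refine Finset.sum_congr rfl fun k _ => ?_
    module
  have e1 : ∀ (f1 f2 f3 f4 f5 : Fin d → Fin d → FinVec d) (g1 g2 g3 : Fin d → FinVec d),
      (∑ j, ∑ k, f1 j k + ∑ j, g1 j) + (∑ j, ∑ k, f2 j k + ∑ j, ∑ k, f3 j k +
        ∑ j, ∑ k, f4 j k + ∑ j, g2 j) + (∑ j, ∑ k, f5 j k + ∑ j, g3 j) =
      ∑ j, ∑ k, (f1 j k + f2 j k + f3 j k + f4 j k + f5 j k) + ∑ j, (g1 j + g2 j + g3 j) := by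
    intros
    simp only [Finset.sum_add_distrib]
    abel
  rw [hS]
  nth_rewrite 1 [← hsym]
  rw [h1, Hz_eq, Rem, add_smul, Finset.sum_smul, Finset.sum_smul]
  simp only [Finset.sum_smul]
  rw [e1]
  congr 1
  · refine Finset.sum_congr rfl fun j _ => Finset.sum_congr rfl fun k _ => ?_
    rw [hca, hcc, haa]
    module
  · refine Finset.sum_congr rfl fun j _ => ?_
    rw [cre_eq_bs z j x, ann_eq_bb z j x]
    module

theorem L_expand (z : Fin d → ℂ) (l : Fin (2 * d)) (x : FinVec d) : p.L l x =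
    p.Lz z l • x + ∑ k, (conj (p.V l k) • bb z k x + p.U l k • bs z k x) := by
  have h1 : p.L l x = ∑ k, (conj (p.V l k) • ann k x + p.U l k • cre k x) := by
    rw [L_old]
    simp
  rw [h1, Lz, Finset.sum_smul, ← Finset.sum_add_distrib]
  refine Finset.sum_congr rfl fun k _ => ?_
  rw [cre_eq_bs z k x, ann_eq_bb z k x]
  module

theorem Ls_expand (z : Fin d → ℂ) (l : Fin (2 * d)) (x : FinVec d) : p.Ls l x =
    conj (p.Lz z l) • x + ∑ k, (p.V l k • bs z k x + conj (p.U l k) • bb z k x) := by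
  have h1 : p.Ls l x = ∑ k, (p.V l k • cre k x + conj (p.U l k) • ann k x) := by
    rw [Ls_old]
    simp
  rw [h1, Lz, map_sum, Finset.sum_smul, ← Finset.sum_add_distrib]
  refine Finset.sum_congr rfl fun k _ => ?_
  rw [cre_eq_bs z k x, ann_eq_bb z k x, map_add, map_mul, map_mul, Complex.conj_conj,
    Complex.conj_conj]
  module

theorem nm_comb (a b : Fin d → ℂ) (u v : Fin d → FinVec d) (M : ℝ) (hu : ∀ k, nm (u k) ≤ M)
    (hv : ∀ k, nm (v k) ≤ M) :
    nm (∑ k, (a k • u k + b k • v k)) ≤ (∑ k, (‖a k‖ + ‖b k‖)) * M := by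
  refine (nm_sum _ _).trans ?_
  rw [Finset.sum_mul]
  refine Finset.sum_le_sum fun k _ => ?_
  refine (nm_add _ _).trans ?_
  rw [nm_smul, nm_smul, add_mul]
  have h1 := mul_le_mul_of_nonneg_left (hu k) (norm_nonneg (a k))
  have h2 := mul_le_mul_of_nonneg_left (hv k) (norm_nonneg (b k))
  linarith

/-- the size of the `l`-th rows -/
noncomputable def cl (l : Fin (2 * d)) : ℝ := ∑ k, (‖p.V l k‖ + ‖p.U l k‖)

theorem cl_nonneg (l : Fin (2 * d)) : 0 ≤ p.cl l :=
  Finset.sum_nonneg fun _ _ => by positivity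

theorem LsL_bound (z : Fin d → ℂ) (l : Fin (2 * d)) (x : FinVec d) (T : ℝ) (hT : nm x ≤ T)
    (hb : ∀ j, nm (bb z j x) ≤ T) (hs : ∀ j, nm (bs z j x) ≤ 2 * T)
    (hbb : ∀ j k, nm (bb z k (bb z j x)) ≤ T) (hsb : ∀ j k, nm (bs z k (bb z j x)) ≤ T)
    (hbs : ∀ j k, nm (bb z k (bs z j x)) ≤ 2 * T) (hss : ∀ j k, nm (bs z k (bs z j x)) ≤ 3 * T) :
    nm (p.Ls l (p.L l x)) ≤
      (‖p.Lz z l‖ ^ 2 + 4 * p.cl l * ‖p.Lz z l‖ + 3 * p.cl l ^ 2) * T := by
  have hT0 : 0 ≤ T := (nm_nonneg x).trans hT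
  have hc := p.cl_nonneg l
  have hcl : ∑ k, (‖conj (p.V l k)‖ + ‖p.U l k‖) = p.cl l := by simp [cl]
  have hcl' : ∑ k, (‖p.V l k‖ + ‖conj (p.U l k)‖) = p.cl l := by simp [cl]
  set W : FinVec d := ∑ k, (conj (p.V l k) • bb z k x + p.U l k • bs z k x) with hW
  have hW1 : nm W ≤ p.cl l * (2 * T) := by
    rw [hW, ← hcl]
    exact nm_comb _ _ _ _ _ (fun k => (hb k).trans (by linarith)) hs
  have hW2 : ∀ j, nm (bs z j W) ≤ p.cl l * (3 * T) := by
    intro j
    have : bs z j W = ∑ k, (conj (p.V l k) • bs z j (bb z k x) + p.U l k • bs z j (bs z k x)) := by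
      rw [hW, map_sum]
      simp only [map_add, map_smul]
    rw [this, ← hcl]
    exact nm_comb _ _ _ _ _ (fun k => (hsb k j).trans (by linarith)) fun k => hss k j
  have hW3 : ∀ j, nm (bb z j W) ≤ p.cl l * (3 * T) := by
    intro j
    have : bb z j W = ∑ k, (conj (p.V l k) • bb z j (bb z k x) + p.U l k • bb z j (bs z k x)) := by
      rw [hW, map_sum]
      simp only [map_add, map_smul]
    rw [this, ← hcl]
    exact nm_comb _ _ _ _ _ (fun k => (hbb k j).trans (by linarith))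
      fun k => (hbs k j).trans (by linarith)
  have hL : p.L l x = p.Lz z l • x + W := p.L_expand z l x
  have hL1 : nm (p.L l x) ≤ ‖p.Lz z l‖ * T + p.cl l * (2 * T) := by
    rw [hL]
    refine (nm_add _ _).trans ?_
    rw [nm_smul]
    gcongr
  have hL2 : ∀ j, nm (bs z j (p.L l x)) ≤ ‖p.Lz z l‖ * (2 * T) + p.cl l * (3 * T) := by
    intro j
    rw [hL, map_add, map_smul]
    refine (nm_add _ _).trans ?_
    rw [nm_smul]
    gcongr
    · exact hs j
    · exact hW2 j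
  have hL3 : ∀ j, nm (bb z j (p.L l x)) ≤ ‖p.Lz z l‖ * (2 * T) + p.cl l * (3 * T) := by
    intro j
    rw [hL, map_add, map_smul]
    refine (nm_add _ _).trans ?_
    rw [nm_smul]
    gcongr
    · exact (hb j).trans (by linarith)
    · exact hW3 j
  rw [p.Ls_expand z l (p.L l x)]
  refine (nm_add _ _).trans ?_
  rw [nm_smul, RCLike.norm_conj]
  have h5 := nm_comb (fun k => p.V l k) (fun k => conj (p.U l k)) (fun k => bs z k (p.L l x))
    (fun k => bb z k (p.L l x)) _ hL2 hL3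
  rw [hcl'] at h5
  have h6 := mul_le_mul_of_nonneg_left hL1 (norm_nonneg (p.Lz z l))
  calc _ ≤ ‖p.Lz z l‖ * (‖p.Lz z l‖ * T + p.cl l * (2 * T)) +
        p.cl l * (‖p.Lz z l‖ * (2 * T) + p.cl l * (3 * T)) := add_le_add h6 h5
    _ = _ := by ring

/-- the `z`-dependent constant in front of the small error -/
noncomputable def DD (z : Fin d → ℂ) : ℝ :=
  ∑ j, ∑ k, (‖p.Ω j k‖ * (1 + ‖z j‖) + ‖p.κ j k‖ * (1 + ‖z j‖ + ‖z k‖)) + ∑ j, ‖p.ζ j‖

theorem DD_nonneg (z : Fin d → ℂ) : 0 ≤ p.DD z := by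
  unfold DD
  positivity

theorem Rem_bound (z : Fin d → ℂ) (x : FinVec d) (T η : ℝ) (hη : 0 ≤ η) (hT : 0 ≤ T)
    (hb : ∀ j, nm (bb z j x) ≤ η)
    (hbb : ∀ j k, nm (bb z k (bb z j x)) ≤ η) (hsb : ∀ j k, nm (bs z k (bb z j x)) ≤ η)
    (hss : ∀ j k, nm (bs z k (bs z j x)) ≤ 3 * T) :
    nm (p.Rem z x) ≤ 2 * (∑ j, ∑ k, ‖p.κ j k‖) * T + η * p.DD z := by
  have h1 : ∀ j k, nm (p.Ω j k • (bs z j (bb z k x) + conj (z j) • bb z k x) +
      (p.κ j k / 2) • bs z j (bs z k x) +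
      (conj (p.κ j k) / 2) • (bb z j (bb z k x) + z j • bb z k x + z k • bb z j x)) ≤
      2 * ‖p.κ j k‖ * T + η * (‖p.Ω j k‖ * (1 + ‖z j‖) + ‖p.κ j k‖ * (1 + ‖z j‖ + ‖z k‖)) := by
    intro j k
    have a1 : nm (bs z j (bb z k x) + conj (z j) • bb z k x) ≤ η + ‖z j‖ * η := by
      refine (nm_add _ _).trans ?_
      rw [nm_smul, RCLike.norm_conj]
      gcongr
      · exact hsb k j
      · exact hb k
    have a2 : nm (bb z j (bb z k x) + z j • bb z k x + z k • bb z j x) ≤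
        η + ‖z j‖ * η + ‖z k‖ * η := by
      refine (nm_add _ _).trans (add_le_add ((nm_add _ _).trans ?_) ?_)
      · rw [nm_smul]
        gcongr
        · exact hbb k j
        · exact hb k
      · rw [nm_smul]
        gcongr
        exact hb j
    have n1 : ‖p.κ j k / 2‖ = ‖p.κ j k‖ / 2 := by simp
    have n2 : ‖conj (p.κ j k) / 2‖ = ‖p.κ j k‖ / 2 := by simp
    refine (nm_add _ _).trans ((add_le_add (nm_add _ _) le_rfl).trans ?_)
    rw [nm_smul, nm_smul, nm_smul, n1, n2]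
    have b1 := mul_le_mul_of_nonneg_left a1 (norm_nonneg (p.Ω j k))
    have b2 := mul_le_mul_of_nonneg_left a2 (by positivity : 0 ≤ ‖p.κ j k‖ / 2)
    have b3 := mul_le_mul_of_nonneg_left (hss k j) (by positivity : 0 ≤ ‖p.κ j k‖ / 2)
    have b4 : 0 ≤ ‖p.κ j k‖ * T := by positivity
    have b5 : 0 ≤ ‖p.κ j k‖ * (η + ‖z j‖ * η + ‖z k‖ * η) := by positivity
    calc _ ≤ ‖p.Ω j k‖ * (η + ‖z j‖ * η) + ‖p.κ j k‖ / 2 * (3 * T) +
          ‖p.κ j k‖ / 2 * (η + ‖z j‖ * η + ‖z k‖ * η) := add_le_add (add_le_add b1 b3) b2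
      _ ≤ _ := by nlinarith
  have h2 : ∀ j, nm ((conj (p.ζ j) / 2) • bb z j x) ≤ η * ‖p.ζ j‖ := by
    intro j
    rw [nm_smul]
    have n2 : ‖conj (p.ζ j) / 2‖ = ‖p.ζ j‖ / 2 := by simp
    rw [n2]
    have b1 := mul_le_mul_of_nonneg_left (hb j) (by positivity : 0 ≤ ‖p.ζ j‖ / 2)
    have b2 : 0 ≤ ‖p.ζ j‖ * η := by positivity
    linarith
  unfold Rem
  refine (nm_add _ _).trans ?_
  have h3 := (nm_sum Finset.univ fun j => ∑ k,
      (p.Ω j k • (bs z j (bb z k x) + conj (z j) • bb z k x) +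
      (p.κ j k / 2) • bs z j (bs z k x) +
      (conj (p.κ j k) / 2) • (bb z j (bb z k x) + z j • bb z k x + z k • bb z j x))).trans
    (Finset.sum_le_sum fun j _ => (nm_sum _ _).trans (Finset.sum_le_sum fun k _ => h1 j k))
  have h4 := (nm_sum Finset.univ fun j => (conj (p.ζ j) / 2) • bb z j x).trans
    (Finset.sum_le_sum fun j _ => h2 j)
  refine (add_le_add h3 h4).trans (le_of_eq ?_)
  unfold DD
  simp only [Finset.sum_add_distrib, ← Finset.mul_sum, ← Finset.sum_mul, mul_add]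
  ring

/-- coherent states are approximate eigenvectors of `G₀` -/
theorem coherent_bound : ∃ C : ℝ, 0 ≤ C ∧ ∀ (z : Fin d → ℂ) (ε : ℝ), 0 < ε →
    ∃ x : FinVec d, 1 ≤ ‖emb d x‖ ∧
      ‖emb d (p.G₀ x) + (Complex.I * (p.Hz z : ℂ)) • emb d x‖ ≤
        (C * (1 + ∑ j, ‖p.J z j‖ + ∑ l, ‖p.Lz z l‖ + ∑ l, ‖p.Lz z l‖ ^ 2) + ε) *
          ‖emb d x‖ := by
  set S1 : ℝ := ∑ j, ‖p.ζ j‖ with hS1
  set S2 : ℝ := ∑ j, ∑ k, ‖p.κ j k‖ with hS2
  set S3 : ℝ := ∑ l, (2 * p.cl l + 2 * p.cl l ^ 2) with hS3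
  have hS1' : 0 ≤ S1 := by positivity
  have hS2' : 0 ≤ S2 := by positivity
  have hS3' : 0 ≤ S3 := Finset.sum_nonneg fun l _ => by
    have := p.cl_nonneg l
    positivity
  refine ⟨2 + 2 * S1 + 2 * S2 + S3, by positivity, fun z ε hε => ?_⟩
  set η : ℝ := min 1 (ε / (p.DD z + 1)) with hη
  have hD := p.DD_nonneg z
  have hη0 : 0 < η := lt_min one_pos (by positivity)
  have hη1 : η ≤ 1 := min_le_left _ _
  have hηD : η * p.DD z ≤ ε := by
    have h1 : η ≤ ε / (p.DD z + 1) := min_le_right _ _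
    calc η * p.DD z ≤ ε / (p.DD z + 1) * p.DD z := by gcongr
      _ ≤ ε / (p.DD z + 1) * (p.DD z + 1) := by gcongr; linarith
      _ = ε := by field_simp
  obtain ⟨x, hx1, hb, hbb, hsb⟩ := exists_coherent z η hη0
  refine ⟨x, hx1, ?_⟩
  have hb' : ∀ j, nm (bb z j x) ≤ η := fun j => by rw [bb_apply]; exact hb j
  have hbb' : ∀ j k, nm (bb z k (bb z j x)) ≤ η := fun j k => by
    rw [bb_apply z k, bb_apply z j]; exact hbb j k
  have hsb' : ∀ j k, nm (bs z k (bb z j x)) ≤ η := fun j k => by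
    rw [bs_apply z k, bb_apply z j]; exact hsb j k
  set T : ℝ := nm x with hT
  have hT1 : 1 ≤ T := hx1
  have hT0 : 0 ≤ T := by linarith
  have hηT : η ≤ T := hη1.trans hT1
  have hs : ∀ j, nm (bs z j x) ≤ 2 * T := by
    intro j
    have h1 := nm_bs_sq z j x
    have h2 := hb' j
    have h3 := nm_nonneg (bb z j x)
    refine le_of_sq_le_sq ?_ (by positivity)
    rw [h1]
    nlinarith
  have hbs : ∀ j k, nm (bb z k (bs z j x)) ≤ 2 * T := by
    intro j k
    rw [bb_bs]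
    refine (nm_add _ _).trans ?_
    have h1 := hsb' k j
    have h2 : nm (if k = j then x else 0) ≤ T := by
      split_ifs
      · exact le_rfl
      · simp only [nm, map_zero, norm_zero]
        exact hT0
    linarith
  have hss : ∀ j k, nm (bs z k (bs z j x)) ≤ 3 * T := by
    intro j k
    have h1 := nm_bs_sq z k (bs z j x)
    have h2 := hbs j k
    have h3 := hs j
    have h4 := nm_nonneg (bb z k (bs z j x))
    have h5 := nm_nonneg (bs z j x)
    refine le_of_sq_le_sq ?_ (by positivity)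
    rw [h1]
    nlinarith
  have hR := p.Rem_bound z x T η hη0.le hT0 hb' hbb' hsb' hss
  have hLs := fun l => p.LsL_bound z l x T le_rfl (fun j => (hb' j).trans hηT) hs
    (fun j k => (hbb' j k).trans hηT) (fun j k => (hsb' j k).trans hηT) hbs hss
  have hJs : nm (∑ j, (p.J z j + p.ζ j / 2) • bs z j x) ≤ (∑ j, ‖p.J z j‖ + S1) * (2 * T) := by
    refine (nm_sum _ _).trans ?_
    rw [hS1, ← Finset.sum_add_distrib, Finset.sum_mul]
    refine Finset.sum_le_sum fun j _ => ?_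
    rw [nm_smul]
    have h1 : ‖p.J z j + p.ζ j / 2‖ ≤ ‖p.J z j‖ + ‖p.ζ j‖ := by
      refine (norm_add_le _ _).trans ?_
      gcongr
      rw [norm_div]
      have := norm_nonneg (p.ζ j)
      simp only [Complex.norm_ofNat]
      linarith
    have h2 := nm_nonneg (bs z j x)
    have h3 := hs j
    gcongr
  have hsumL : nm (∑ l, p.Ls l (p.L l x)) ≤
      (∑ l, (‖p.Lz z l‖ ^ 2 + 4 * p.cl l * ‖p.Lz z l‖ + 3 * p.cl l ^ 2)) * T := by
    refine (nm_sum _ _).trans ?_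
    rw [Finset.sum_mul]
    exact Finset.sum_le_sum fun l _ => hLs l
  have hG : p.G₀ x + (Complex.I * (p.Hz z : ℂ)) • x =
      (-Complex.I) • (∑ j, (p.J z j + p.ζ j / 2) • bs z j x) + (-Complex.I) • p.Rem z x +
      (-(1 / 2 : ℂ)) • ∑ l, p.Ls l (p.L l x) := by
    have h1 : p.G₀ x = (-Complex.I) • p.H x - (1 / 2 : ℂ) • ∑ l, p.Ls l (p.L l x) := by
      rw [G₀_old]
      simp
    rw [h1, p.H_expand z x]
    module
  have hfin : ‖emb d (p.G₀ x) + (Complex.I * (p.Hz z : ℂ)) • emb d x‖ =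
      nm (p.G₀ x + (Complex.I * (p.Hz z : ℂ)) • x) := by
    rw [nm, map_add, map_smul]
  rw [hfin, hG]
  have hkey : (∑ l, (‖p.Lz z l‖ ^ 2 + 4 * p.cl l * ‖p.Lz z l‖ + 3 * p.cl l ^ 2)) ≤
      ∑ l, ‖p.Lz z l‖ ^ 2 + 2 * (S3 * ∑ l, ‖p.Lz z l‖) + 2 * S3 := by
    rw [Finset.mul_sum, Finset.mul_sum]
    have h0 : 2 * S3 = ∑ l, (4 * p.cl l + 4 * p.cl l ^ 2) := by
      rw [hS3, Finset.mul_sum]
      exact Finset.sum_congr rfl fun l _ => by ring
    rw [h0, ← Finset.sum_add_distrib, ← Finset.sum_add_distrib]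
    refine Finset.sum_le_sum fun l _ => ?_
    have hcl := p.cl_nonneg l
    have h1 : 2 * p.cl l ≤ S3 := by
      have h2 : 2 * p.cl l + 2 * p.cl l ^ 2 ≤ S3 := by
        rw [hS3]
        exact Finset.single_le_sum (f := fun l => 2 * p.cl l + 2 * p.cl l ^ 2)
          (fun l _ => by have := p.cl_nonneg l; positivity) (Finset.mem_univ l)
      nlinarith [sq_nonneg (p.cl l)]
    have h3 := mul_le_mul_of_nonneg_right h1 (norm_nonneg (p.Lz z l))
    nlinarith [sq_nonneg (p.cl l)]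
  have t1 : nm ((-Complex.I) • (∑ j, (p.J z j + p.ζ j / 2) • bs z j x)) ≤
      (∑ j, ‖p.J z j‖ + S1) * (2 * T) := by
    rw [nm_smul]
    simpa using hJs
  have t2 : nm ((-Complex.I) • p.Rem z x) ≤ 2 * S2 * T + ε * T := by
    rw [nm_smul, norm_neg, Complex.norm_I, one_mul]
    have : ε ≤ ε * T := by nlinarith
    linarith
  have t3 : nm ((-(1 / 2 : ℂ)) • ∑ l, p.Ls l (p.L l x)) ≤
      (1 / 2) * ((∑ l, ‖p.Lz z l‖ ^ 2 + 2 * (S3 * ∑ l, ‖p.Lz z l‖) + 2 * S3) * T) := by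
    rw [nm_smul]
    have h1 : ‖-(1 / 2 : ℂ)‖ = 1 / 2 := by simp
    rw [h1]
    have h2 := mul_le_mul_of_nonneg_right hkey hT0
    linarith
  refine (nm_add _ _).trans ((add_le_add (nm_add _ _) le_rfl).trans
    ((add_le_add (add_le_add t1 t2) t3).trans ?_))
  have hA : 0 ≤ ∑ j, ‖p.J z j‖ := by positivity
  have hB : 0 ≤ ∑ l, ‖p.Lz z l‖ := by positivity
  have hC : 0 ≤ ∑ l, ‖p.Lz z l‖ ^ 2 := by positivity
  change _ ≤ _ * T
  generalize ∑ j, ‖p.J z j‖ = A at *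
  generalize ∑ l, ‖p.Lz z l‖ = B at *
  generalize ∑ l, ‖p.Lz z l‖ ^ 2 = Q at *
  have : (A + S1) * (2 * T) + (2 * S2 * T + ε * T) + (1 / 2) * ((Q + 2 * (S3 * B) + 2 * S3) * T) =
      (2 * A + 2 * S1 + 2 * S2 + ε + (1 / 2) * Q + S3 * B + S3) * T := by ring
  rw [this]
  refine mul_le_mul_of_nonneg_right ?_ hT0
  nlinarith [mul_nonneg hS1' hA, mul_nonneg hS1' hB, mul_nonneg hS1' hC, mul_nonneg hS2' hA,
    mul_nonneg hS2' hB, mul_nonneg hS2' hC, mul_nonneg hS3' hA, mul_nonneg hS3' hC]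

end Param

end GQ
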