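import Mathlib

open Filter Topology
open scoped ENNReal ComplexConjugate InnerProductSpace

namespace GQ

section aux

variable {𝔸 : Type*} [NormedRing 𝔸] [NormedAlgebra ℂ 𝔸] [CompleteSpace 𝔸]

/-- the `n`-th derivative of the semigroup -/
private noncomputable def esP (S B : ℝ → 𝔸) (n : ℕ) (t : ℝ) : 𝔸 :=
  if n = 0 then S t else (B (t / n)) ^ n

private theorem es_BS (S B : ℝ → 𝔸) (hadd : ∀ s t : ℝ, 0 < s → 0 < t → S (s + t) = S s * S t)
    (hder : ∀ t : ℝ, 0 < t → HasDerivAt S (B t) t) {r s : ℝ} (hr : 0 < r) (hs : 0 < s) :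
    B (r + s) = B r * S s ∧ B (r + s) = S s * B r := by
  have h1 : HasDerivAt (fun x => S (x + s)) (B (r + s)) r :=
    (hder (r + s) (by linarith)).comp_add_const r s
  have h2 : HasDerivAt (fun x => S x * S s) (B r * S s) r := (hder r hr).mul_const (S s)
  have h3 : HasDerivAt (fun x => S s * S x) (S s * B r) r := (hder r hr).const_mul (S s)
  have e2 : (fun x => S (x + s)) =ᶠ[𝓝 r] fun x => S x * S s := by
    filter_upwards [lt_mem_nhds hr] with x hx
    exact hadd x s hx hs
  have e3 : (fun x => S (x + s)) =ᶠ[𝓝 r] fun x => S s * S x := by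
    filter_upwards [lt_mem_nhds hr] with x hx
    rw [add_comm]; exact hadd s x hs hx
  exact ⟨h1.unique (h2.congr_of_eventuallyEq e2), h1.unique (h3.congr_of_eventuallyEq e3)⟩

private theorem es_pow (S : ℝ → 𝔸) (hadd : ∀ s t : ℝ, 0 < s → 0 < t → S (s + t) = S s * S t)
    {r : ℝ} (hr : 0 < r) (n : ℕ) : S (((n + 1 : ℕ) : ℝ) * r) = (S r) ^ (n + 1) := by
  induction n with
  | zero => simp
  | succ n ih =>
    have h : ((n + 1 + 1 : ℕ) : ℝ) * r = ((n + 1 : ℕ) : ℝ) * r + r := by push_cast; ring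
    rw [h, hadd _ _ (by positivity) hr, ih, ← pow_succ]

private theorem es_PS (S B : ℝ → 𝔸) (hadd : ∀ s t : ℝ, 0 < s → 0 < t → S (s + t) = S s * S t)
    (hder : ∀ t : ℝ, 0 < t → HasDerivAt S (B t) t) (n : ℕ) {s t : ℝ} (hs : 0 < s) (ht : 0 < t) :
    esP S B (n + 1) (s + t) = S s * esP S B (n + 1) t := by
  unfold esP
  rw [if_neg (Nat.succ_ne_zero n), if_neg (Nat.succ_ne_zero n)]
  have hn : (0 : ℝ) < ((n + 1 : ℕ) : ℝ) := by positivity
  have hs' : 0 < s / ((n + 1 : ℕ) : ℝ) := by positivity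
  have ht' : 0 < t / ((n + 1 : ℕ) : ℝ) := by positivity
  obtain ⟨h1, h2⟩ := es_BS S B hadd hder ht' hs'
  have hc : Commute (S (s / ((n + 1 : ℕ) : ℝ))) (B (t / ((n + 1 : ℕ) : ℝ))) := by
    rw [Commute, SemiconjBy, ← h1, ← h2]
  have hsum : (s + t) / ((n + 1 : ℕ) : ℝ) = t / ((n + 1 : ℕ) : ℝ) + s / ((n + 1 : ℕ) : ℝ) := by
    ring
  rw [hsum, h2, hc.mul_pow, ← es_pow S hadd hs' n]
  congr 2
  field_simp

private theorem es_deriv (S B : ℝ → 𝔸) (hadd : ∀ s t : ℝ, 0 < s → 0 < t → S (s + t) = S s * S t)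
    (hder : ∀ t : ℝ, 0 < t → HasDerivAt S (B t) t) (n : ℕ) {t : ℝ} (ht : 0 < t) :
    HasDerivAt (esP S B n) (esP S B (n + 1) t) t := by
  rcases n with _ | n
  · have h : esP S B (0 + 1) t = B t := by simp [esP]
    have h' : esP S B 0 = S := by funext x; simp [esP]
    rw [h, h']; exact hder t ht
  · set c : ℝ := ((n + 1 : ℕ) : ℝ) * t / ((n + 1 + 1 : ℕ) : ℝ) with hc
    have hn1 : (0 : ℝ) < ((n + 1 : ℕ) : ℝ) := by positivity
    have hn2 : (0 : ℝ) < ((n + 1 + 1 : ℕ) : ℝ) := by positivity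
    have hc0 : 0 < c := by positivity
    have htc : t - c = t / ((n + 1 + 1 : ℕ) : ℝ) := by
      rw [hc]; field_simp; push_cast; ring
    have hct : c < t := by
      have : 0 < t - c := by rw [htc]; positivity
      linarith
    have hcn : c / ((n + 1 : ℕ) : ℝ) = t / ((n + 1 + 1 : ℕ) : ℝ) := by
      rw [hc]; field_simp
    have h1 : HasDerivAt (fun x => S (x - c) * esP S B (n + 1) c)
        (B (t - c) * esP S B (n + 1) c) t :=
      ((hder (t - c) (by linarith)).comp_sub_const t c).mul_const _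
    have h2 : esP S B (n + 1) =ᶠ[𝓝 t] fun x => S (x - c) * esP S B (n + 1) c := by
      filter_upwards [lt_mem_nhds hct] with x hx
      have h3 := es_PS S B hadd hder n (s := x - c) (t := c) (by linarith) hc0
      rw [← h3]; congr 1; ring
    have h4 : B (t - c) * esP S B (n + 1) c = esP S B (n + 1 + 1) t := by
      rw [htc]
      unfold esP
      rw [if_neg (Nat.succ_ne_zero n), if_neg (Nat.succ_ne_zero (n + 1)), hcn, ← pow_succ']
    rw [← h4]
    exact h1.congr_of_eventuallyEq h2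

private theorem es_pow_self_le (n : ℕ) : (n : ℝ) ^ n ≤ 3 ^ n * (n.factorial : ℝ) := by
  have h1 := Real.pow_div_factorial_le_exp (n : ℝ) (Nat.cast_nonneg n) n
  have h2 : Real.exp (n : ℝ) ≤ 3 ^ n := by
    rw [← Real.exp_one_pow]
    exact pow_le_pow_left₀ (Real.exp_pos 1).le (by linarith [Real.exp_one_lt_d9]) n
  have h3 : (0 : ℝ) < (n.factorial : ℝ) := by exact_mod_cast n.factorial_pos
  rw [div_le_iff₀ h3] at h1
  exact h1.trans (mul_le_mul_of_nonneg_right h2 h3.le)

private theorem es_bound (S B : ℝ → 𝔸) (hS : ∀ t : ℝ, 0 < t → ‖S t‖ ≤ 1) (K : ℝ) (hK : 0 ≤ K)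
    (hB : ∀ t : ℝ, 0 < t → ‖B t‖ ≤ K / t) (n : ℕ) {t : ℝ} (ht : 0 < t) :
    ‖esP S B n t‖ ≤ (3 * K / t) ^ n * (n.factorial : ℝ) := by
  rcases n with _ | n
  · simpa [esP] using hS t ht
  · have hn1 : (0 : ℝ) < ((n + 1 : ℕ) : ℝ) := by positivity
    unfold esP
    rw [if_neg (Nat.succ_ne_zero n)]
    calc ‖B (t / ((n + 1 : ℕ) : ℝ)) ^ (n + 1)‖ ≤ ‖B (t / ((n + 1 : ℕ) : ℝ))‖ ^ (n + 1) :=
          norm_pow_le' _ (Nat.succ_pos n)
      _ ≤ (K / (t / ((n + 1 : ℕ) : ℝ))) ^ (n + 1) :=
          pow_le_pow_left₀ (norm_nonneg _) (hB _ (by positivity)) _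
      _ = (K / t) ^ (n + 1) * ((n + 1 : ℕ) : ℝ) ^ (n + 1) := by
          rw [← mul_pow]; congr 1; field_simp
      _ ≤ (K / t) ^ (n + 1) * (3 ^ (n + 1) * ((n + 1).factorial : ℝ)) :=
          mul_le_mul_of_nonneg_left (es_pow_self_le (n + 1)) (by positivity)
      _ = (3 * K / t) ^ (n + 1) * ((n + 1).factorial : ℝ) := by
          rw [← mul_assoc, ← mul_pow]; congr 2; ring

/-- the Taylor coefficient -/
private noncomputable def esc (n : ℕ) (s : ℝ) : ℂ := (Complex.I * (s : ℂ)) ^ n / (n.factorial : ℂ)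

private theorem esc_norm (n : ℕ) (s : ℝ) : ‖esc n s‖ = |s| ^ n / (n.factorial : ℝ) := by
  unfold esc
  rw [norm_div, norm_pow, norm_mul, Complex.norm_I, one_mul, Complex.norm_real, Real.norm_eq_abs,
    Complex.norm_natCast]

/-- derivative of the coefficient -/
private noncomputable def esc' (n : ℕ) (s : ℝ) : ℂ :=
  match n with
  | 0 => 0
  | n + 1 => Complex.I * esc n s

private theorem esc_deriv (n : ℕ) (s : ℝ) : HasDerivAt (esc n) (esc' n s) s := by
  rcases n with _ | n
  · have : esc 0 = fun _ => (1 : ℂ) := by funext x; simp [esc]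
    rw [this]
    exact hasDerivAt_const _ _
  · have h1 : HasDerivAt (fun s : ℝ => Complex.I * (s : ℂ)) Complex.I s := by
      have := (Complex.ofRealCLM.hasDerivAt (x := s)).const_mul Complex.I
      simpa using this
    have h2 := (h1.pow (n + 1)).div_const (((n + 1).factorial : ℕ) : ℂ)
    have h3 : (((n + 1 : ℕ) : ℂ) * (Complex.I * (s : ℂ)) ^ (n + 1 - 1) * Complex.I)
        / (((n + 1).factorial : ℕ) : ℂ) = esc' (n + 1) s := by
      simp only [esc', esc, Nat.add_sub_cancel]
      have hf : ((n.factorial : ℕ) : ℂ) ≠ 0 := by exact_mod_cast n.factorial_ne_zero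
      have hn : ((n + 1 : ℕ) : ℂ) ≠ 0 := by exact_mod_cast Nat.succ_ne_zero n
      rw [Nat.factorial_succ]
      push_cast at hn ⊢
      field_simp
    rw [← h3]
    exact h2

/-- the term of the Taylor series -/
private noncomputable def esf (S B : ℝ → 𝔸) (n : ℕ) (z : ℂ) : 𝔸 := esc n z.im • esP S B n z.re

private noncomputable def esa (S B : ℝ → 𝔸) (n : ℕ) (z : ℂ) : 𝔸 :=
  esc n z.im • esP S B (n + 1) z.re

private noncomputable def esb (S B : ℝ → 𝔸) (n : ℕ) (z : ℂ) : 𝔸 :=
  esc' n z.im • esP S B n z.re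

private theorem esb_succ (S B : ℝ → 𝔸) (n : ℕ) (z : ℂ) :
    esb S B (n + 1) z = Complex.I • esa S B n z := by
  simp only [esb, esa, esc', smul_smul]

private theorem esf_deriv (S B : ℝ → 𝔸)
    (hadd : ∀ s t : ℝ, 0 < s → 0 < t → S (s + t) = S s * S t)
    (hder : ∀ t : ℝ, 0 < t → HasDerivAt S (B t) t) (n : ℕ) {z : ℂ} (hz : 0 < z.re) :
    HasFDerivAt (𝕜 := ℝ) (esf S B n)
      (Complex.reCLM.smulRight (esa S B n z) + Complex.imCLM.smulRight (esb S B n z)) z := by
  have h1 : HasFDerivAt (𝕜 := ℝ) (fun z : ℂ => esc n z.im)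
      ((ContinuousLinearMap.toSpanSingleton ℝ (esc' n z.im)).comp Complex.imCLM) z :=
    (esc_deriv n z.im).hasFDerivAt.comp z Complex.imCLM.hasFDerivAt
  have h2 : HasFDerivAt (𝕜 := ℝ) (fun z : ℂ => esP S B n z.re)
      ((ContinuousLinearMap.toSpanSingleton ℝ (esP S B (n + 1) z.re)).comp Complex.reCLM) z :=
    (es_deriv S B hadd hder n hz).hasFDerivAt.comp z Complex.reCLM.hasFDerivAt
  have h3 := h1.smul h2
  have e : (Complex.reCLM.smulRight (esa S B n z) + Complex.imCLM.smulRight (esb S B n z)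
      : ℂ →L[ℝ] 𝔸) = esc n z.im • (ContinuousLinearMap.toSpanSingleton ℝ
        (esP S B (n + 1) z.re)).comp Complex.reCLM +
      ((ContinuousLinearMap.toSpanSingleton ℝ (esc' n z.im)).comp Complex.imCLM).smulRight
        (esP S B n z.re) := by
    apply ContinuousLinearMap.ext
    intro v
    change v.re • (esc n z.im • esP S B (n + 1) z.re) + v.im • (esc' n z.im • esP S B n z.re)
      = esc n z.im • (v.re • esP S B (n + 1) z.re) + (v.im • esc' n z.im) • esP S B n z.re
    rw [smul_comm, smul_assoc]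
  rw [e]
  exact h3

private theorem es_term_bound (S B : ℝ → 𝔸) (hS : ∀ t : ℝ, 0 < t → ‖S t‖ ≤ 1) (K : ℝ)
    (hK : 0 ≤ K) (hB : ∀ t : ℝ, 0 < t → ‖B t‖ ≤ K / t) (n : ℕ) {z : ℂ} (hz : 0 < z.re)
    (hz2 : 12 * K * |z.im| ≤ z.re) :
    ‖esf S B n z‖ ≤ (1 / 2) ^ n ∧ ‖esa S B n z‖ ≤ (3 * K / z.re) * (1 / 2) ^ n := by
  have hfac : ∀ m : ℕ, (0 : ℝ) < (m.factorial : ℝ) := fun m => by exact_mod_cast m.factorial_pos
  have hq : 3 * K * |z.im| / z.re ≤ 1 / 4 := by
    rw [div_le_iff₀ hz]; linarith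
  have hq0 : 0 ≤ 3 * K * |z.im| / z.re := by positivity
  have h14 : ((1 : ℝ) / 4) ^ n ≤ (1 / 2) ^ n := pow_le_pow_left₀ (by norm_num) (by norm_num) n
  constructor
  · unfold esf
    rw [norm_smul, esc_norm]
    calc |z.im| ^ n / (n.factorial : ℝ) * ‖esP S B n z.re‖
        ≤ |z.im| ^ n / (n.factorial : ℝ) * ((3 * K / z.re) ^ n * (n.factorial : ℝ)) :=
          mul_le_mul_of_nonneg_left (es_bound S B hS K hK hB n hz)
            (div_nonneg (by positivity) (hfac n).le)
      _ = (3 * K * |z.im| / z.re) ^ n := by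
          have hfn := (hfac n).ne'
          have h5 : 3 * K * |z.im| / z.re = |z.im| * (3 * K / z.re) := by ring
          rw [h5, mul_pow]
          field_simp
      _ ≤ (1 / 4) ^ n := pow_le_pow_left₀ hq0 hq n
      _ ≤ (1 / 2) ^ n := h14
  · unfold esa
    rw [norm_smul, esc_norm]
    have hn2 : ((n + 1 : ℕ) : ℝ) ≤ 2 ^ n := by exact_mod_cast Nat.lt_two_pow_self
    calc |z.im| ^ n / (n.factorial : ℝ) * ‖esP S B (n + 1) z.re‖
        ≤ |z.im| ^ n / (n.factorial : ℝ) * ((3 * K / z.re) ^ (n + 1) * ((n + 1).factorial : ℝ)) :=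
          mul_le_mul_of_nonneg_left (es_bound S B hS K hK hB (n + 1) hz)
            (div_nonneg (by positivity) (hfac n).le)
      _ = (3 * K / z.re) * (((n + 1 : ℕ) : ℝ) * (3 * K * |z.im| / z.re) ^ n) := by
          have := (hfac n).ne'
          rw [Nat.factorial_succ, Nat.cast_mul, pow_succ, div_pow, div_pow, mul_pow (3 * K) |z.im|]
          field_simp
      _ ≤ (3 * K / z.re) * (2 ^ n * (1 / 4) ^ n) := by
          apply mul_le_mul_of_nonneg_left _ (by positivity)
          exact mul_le_mul hn2 (pow_le_pow_left₀ hq0 hq n) (by positivity) (by positivity)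
      _ = (3 * K / z.re) * (1 / 2) ^ n := by
          rw [← mul_pow]; norm_num

end aux

/-- a semigroup in a Banach algebra whose derivative is bounded by `K / t` extends to a bounded
holomorphic map on a sector -/
theorem extend_sector {𝔸 : Type*} [NormedRing 𝔸] [NormedAlgebra ℂ 𝔸] [CompleteSpace 𝔸]
    (S B : ℝ → 𝔸) (hadd : ∀ s t : ℝ, 0 < s → 0 < t → S (s + t) = S s * S t)
    (hS : ∀ t : ℝ, 0 < t → ‖S t‖ ≤ 1) (K : ℝ) (hK : 0 ≤ K)
    (hB : ∀ t : ℝ, 0 < t → ‖B t‖ ≤ K / t)
    (hder : ∀ t : ℝ, 0 < t → HasDerivAt S (B t) t) :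
    ∃ θ : ℝ, 0 < θ ∧ θ ≤ Real.pi / 2 ∧ ∃ Q : ℂ → 𝔸,
      DifferentiableOn ℂ Q {z : ℂ | z ≠ 0 ∧ |z.arg| < θ} ∧
      (∀ t : ℝ, 0 < t → Q t = S t) ∧ ∃ M : ℝ, ∀ z : ℂ, z ≠ 0 → |z.arg| < θ → ‖Q z‖ ≤ M := by
  set L : ℝ := K + 1 with hL
  have hL0 : 0 < L := by linarith
  have hBL : ∀ t : ℝ, 0 < t → ‖B t‖ ≤ L / t := fun t ht =>
    (hB t ht).trans (div_le_div_of_nonneg_right (by linarith) ht.le)
  set δ : ℝ := 1 / (12 * L) with hδ
  have hδ0 : 0 < δ := by positivity
  have hcone : ∀ z : ℂ, |z.im| < δ * z.re → 12 * L * |z.im| ≤ z.re := by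
    intro z hz
    have h1 : 12 * L * |z.im| ≤ 12 * L * (δ * z.re) :=
      mul_le_mul_of_nonneg_left hz.le (by positivity)
    have h2 : 12 * L * (δ * z.re) = z.re := by rw [hδ]; field_simp
    linarith
  have hsector : ∀ z : ℂ, z ≠ 0 → |z.arg| < Real.arctan δ → 0 < z.re ∧ |z.im| < δ * z.re := by
    intro z hz hθ
    have hlt : |z.arg| < Real.pi / 2 := hθ.trans (Real.arctan_lt_pi_div_two δ)
    have hre : 0 < z.re := by
      rcases Complex.abs_arg_lt_pi_div_two_iff.mp hlt with h | h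
      · exact h
      · exact absurd h hz
    refine ⟨hre, ?_⟩
    have h1 := abs_lt.mp hθ
    have htan : Real.tan z.arg = z.im / z.re := Complex.tan_arg z
    have h2 : Real.arctan (z.im / z.re) = z.arg := by
      rw [← htan, Real.arctan_tan (by linarith [(abs_lt.mp hlt).1]) (abs_lt.mp hlt).2]
    rw [← h2] at h1
    have h3 : z.im / z.re < δ := Real.arctan_strictMono.lt_iff_lt.mp h1.2
    have h4 : -δ < z.im / z.re := by
      rw [← Real.arctan_neg] at h1
      exact Real.arctan_strictMono.lt_iff_lt.mp h1.1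
    rw [div_lt_iff₀ hre] at h3
    rw [lt_div_iff₀ hre] at h4
    rw [abs_lt]
    constructor <;> linarith
  refine ⟨Real.arctan δ, Real.arctan_pos.mpr hδ0, (Real.arctan_lt_pi_div_two δ).le,
    fun z => ∑' n, esf S B n z, ?_, ?_, 2, ?_⟩
  · intro z0 hz0
    obtain ⟨hre0, him0⟩ := hsector z0 hz0.1 hz0.2
    apply DifferentiableAt.differentiableWithinAt
    set V : Set ℂ := {z | z0.re / 2 < z.re ∧ |z.im| < δ * z.re} with hV
    have hVopen : IsOpen V := by
      apply IsOpen.inter
      · exact isOpen_lt continuous_const Complex.continuous_re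
      · exact isOpen_lt (Complex.continuous_im.abs) (continuous_const.mul Complex.continuous_re)
    have hVconv : Convex ℝ V := by
      intro x hx y hy a b ha hb hab
      refine ⟨?_, ?_⟩
      · have h1 := hx.1
        have h2 := hy.1
        simp only [Complex.add_re, Complex.real_smul, Complex.re_ofReal_mul]
        have hb' : b = 1 - a := by linarith
        subst hb'
        rcases lt_or_eq_of_le ha with ha' | ha'
        · nlinarith [mul_lt_mul_of_pos_left h1 ha', mul_le_mul_of_nonneg_left h2.le hb]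
        · rw [← ha'] at hb ⊢; nlinarith
      · have h1 := hx.2
        have h2 := hy.2
        simp only [Complex.add_im, Complex.add_re, Complex.real_smul, Complex.re_ofReal_mul,
          Complex.im_ofReal_mul]
        have h3 : |a * x.im + b * y.im| ≤ a * |x.im| + b * |y.im| := by
          refine (abs_add_le _ _).trans ?_
          rw [abs_mul, abs_mul, abs_of_nonneg ha, abs_of_nonneg hb]
        have hb' : b = 1 - a := by linarith
        subst hb'
        rcases lt_or_eq_of_le ha with ha' | ha'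
        · nlinarith [mul_lt_mul_of_pos_left h1 ha', mul_le_mul_of_nonneg_left h2.le hb]
        · rw [← ha'] at hb h3 ⊢; nlinarith
    have hz0V : z0 ∈ V := ⟨by linarith, him0⟩
    have hpos : ∀ z ∈ V, 0 < z.re := fun z hz => by have := hz.1; linarith
    set C : ℝ := 6 * L / z0.re with hC
    have hC0 : 0 ≤ C := by positivity
    have hCle : ∀ z ∈ V, 3 * L / z.re ≤ C := by
      intro z hz
      have h1 := hz.1
      have h2 := hpos z hz
      rw [hC, div_le_div_iff₀ h2 hre0]
      nlinarith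
    have ha_bound : ∀ n, ∀ z ∈ V, ‖esa S B n z‖ ≤ C * (1 / 2) ^ n := fun n z hz =>
      ((es_term_bound S B hS L hL0.le hBL n (hpos z hz) (hcone z hz.2)).2).trans
        (mul_le_mul_of_nonneg_right (hCle z hz) (by positivity))
    have hb_bound : ∀ n, ∀ z ∈ V, ‖esb S B n z‖ ≤ 2 * C * (1 / 2) ^ n := by
      intro n z hz
      rcases n with _ | n
      · simp only [esb, esc', zero_smul, norm_zero]; positivity
      · rw [esb_succ, norm_smul, Complex.norm_I, one_mul]
        refine (ha_bound n z hz).trans (le_of_eq ?_)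
        rw [pow_succ]; ring
    have hsumgeo : Summable (fun n : ℕ => (3 * C) * (1 / 2 : ℝ) ^ n) :=
      (summable_geometric_two).mul_left _
    have hDF : ∀ n, ∀ z ∈ V, ‖(Complex.reCLM.smulRight (esa S B n z)
        + Complex.imCLM.smulRight (esb S B n z) : ℂ →L[ℝ] 𝔸)‖ ≤ (3 * C) * (1 / 2 : ℝ) ^ n := by
      intro n z hz
      refine (norm_add_le _ _).trans ?_
      rw [ContinuousLinearMap.norm_smulRight_apply, ContinuousLinearMap.norm_smulRight_apply,
        Complex.reCLM_norm, Complex.imCLM_norm, one_mul, one_mul]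
      have h1 := ha_bound n z hz
      have h2 := hb_bound n z hz
      calc _ ≤ C * (1 / 2) ^ n + 2 * C * (1 / 2) ^ n := add_le_add h1 h2
        _ = _ := by ring
    have hf0 : Summable (fun n => esf S B n z0) := by
      apply Summable.of_norm_bounded summable_geometric_two
      intro n
      exact (es_term_bound S B hS L hL0.le hBL n hre0 (hcone z0 him0)).1
    have hmain := hasFDerivAt_tsum_of_isPreconnected (𝕜 := ℝ) (f := esf S B)
      (f' := fun n z => (Complex.reCLM.smulRight (esa S B n z)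
        + Complex.imCLM.smulRight (esb S B n z) : ℂ →L[ℝ] 𝔸)) hsumgeo hVopen
      hVconv.isPreconnected (fun n z hz => esf_deriv S B hadd hder n (hpos z hz)) hDF hz0V hf0 hz0V
    have hsa : Summable (fun n => esa S B n z0) :=
      Summable.of_norm_bounded (summable_geometric_two.mul_left C) (fun n => ha_bound n z0 hz0V)
    have hb_sum : HasSum (fun n => esb S B n z0) (Complex.I • ∑' n, esa S B n z0) := by
      have h1 : HasSum (fun n => esb S B (n + 1) z0) (Complex.I • ∑' n, esa S B n z0) := by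
        simp only [esb_succ]
        exact hsa.hasSum.const_smul Complex.I
      have h2 := (hasSum_nat_add_iff (f := fun n => esb S B n z0) 1).mp h1
      simpa [esb, esc'] using h2
    have hD : (∑' n, (Complex.reCLM.smulRight (esa S B n z0)
        + Complex.imCLM.smulRight (esb S B n z0) : ℂ →L[ℝ] 𝔸)) =
        (((1 : ℂ →L[ℂ] ℂ).smulRight (∑' n, esa S B n z0)).restrictScalars ℝ) := by
      have hs : Summable (fun n => (Complex.reCLM.smulRight (esa S B n z0)
        + Complex.imCLM.smulRight (esb S B n z0) : ℂ →L[ℝ] 𝔸)) :=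
        Summable.of_norm_bounded hsumgeo (fun n => hDF n z0 hz0V)
      apply ContinuousLinearMap.ext
      intro v
      have h1 := hs.hasSum.mapL (ContinuousLinearMap.apply ℝ 𝔸 v)
      simp only [ContinuousLinearMap.apply_apply] at h1
      have h2 : HasSum (fun n => v.re • esa S B n z0 + v.im • esb S B n z0)
          (v.re • (∑' n, esa S B n z0) + v.im • (Complex.I • ∑' n, esa S B n z0)) :=
        (hsa.hasSum.const_smul v.re).add (hb_sum.const_smul v.im)
      have h3 := h1.unique h2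
      rw [h3]
      simp only [ContinuousLinearMap.coe_restrictScalars', ContinuousLinearMap.smulRight_apply,
        ContinuousLinearMap.one_apply]
      rw [← Complex.coe_smul v.re, ← Complex.coe_smul v.im, smul_smul, ← add_smul,
        Complex.re_add_im]
    rw [hD] at hmain
    exact (hasFDerivAt_of_restrictScalars ℝ hmain rfl).differentiableAt
  · intro t ht
    change ∑' n, esf S B n (t : ℂ) = S t
    rw [tsum_eq_single 0]
    · simp [esf, esc, esP]
    · intro n hn
      simp [esf, esc, hn]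
  · intro z hz hθ
    obtain ⟨hre, him⟩ := hsector z hz hθ
    exact tsum_of_norm_bounded hasSum_geometric_two
      (fun n => (es_term_bound S B hS L hL0.le hBL n hre (hcone z him)).1)

end GQ
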