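import Mathlib

open Filter Topology
open scoped ENNReal ComplexConjugate InnerProductSpace Matrix

namespace GQ

theorem exists_ginv {ι ρ : Type} [Fintype ι] [Fintype ρ] [DecidableEq ι] [DecidableEq ρ]
    (Λ : Matrix ρ ι ℂ) : ∃ Y : (ρ → ℂ) →ₗ[ℂ] (ι → ℂ), ∀ x, Λ.mulVec (Y (Λ.mulVec x)) = Λ.mulVec x := by
  let f : (ι → ℂ) →ₗ[ℂ] (ρ → ℂ) := Λ.mulVecLin
  obtain ⟨s, hs⟩ := f.rangeRestrict.exists_rightInverse_of_surjective f.range_rangeRestrict
  obtain ⟨Y, hY⟩ := s.exists_extend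
  refine ⟨Y, fun x => ?_⟩
  have h1 : Y (f x) = s (f.rangeRestrict x) := by
    have := LinearMap.congr_fun hY (f.rangeRestrict x)
    exact this
  have h2 : f.rangeRestrict (s (f.rangeRestrict x)) = f.rangeRestrict x :=
    LinearMap.congr_fun hs (f.rangeRestrict x)
  have h3 : f (s (f.rangeRestrict x)) = f x := congrArg Subtype.val h2
  show f (Y (f x)) = f x
  rw [h1, h3]

/-- if the Hermitian matrix `M` vanishes on the kernel of `Λ`, then the quadratic form of `M` on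
vectors of an inner product space is bounded by the squares of the rows of `Λ` -/
theorem quad_bound {ι ρ : Type} [Fintype ι] [Fintype ρ] [DecidableEq ι] [DecidableEq ρ]
    (M : Matrix ι ι ℂ) (hM : M.IsHermitian)
    (Λ : Matrix ρ ι ℂ) (hΛ : ∀ x : ι → ℂ, Λ.mulVec x = 0 → M.mulVec x = 0) :
    ∃ C : ℝ, 0 ≤ C ∧ ∀ (E : Type) [NormedAddCommGroup E] [InnerProductSpace ℂ E] (w : ι → E),
      ‖∑ p, ∑ q, M p q * ⟪w p, w q⟫_ℂ‖ ≤ C * ∑ r, ‖∑ p, Λ r p • w p‖ ^ 2 := by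
  classical
  obtain ⟨Y, hY⟩ := exists_ginv Λ
  set Ym : Matrix ι ρ ℂ := LinearMap.toMatrix' Y with hYm
  have hYv : ∀ v, Ym.mulVec v = Y v := by
    intro v
    rw [hYm, LinearMap.toMatrix'_mulVec]
  have h1 : M * Ym * Λ = M := by
    apply Matrix.mulVec_injective
    funext x
    rw [← Matrix.mulVec_mulVec, ← Matrix.mulVec_mulVec, hYv]
    have h2 : Λ.mulVec (Y (Λ.mulVec x) - x) = 0 := by
      rw [Matrix.mulVec_sub, hY, sub_self]
    have h3 := hΛ _ h2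
    rw [Matrix.mulVec_sub, sub_eq_zero] at h3
    exact h3
  set N : Matrix ρ ρ ℂ := Ymᴴ * M * Ym with hN
  have h2 : M = Λᴴ * N * Λ := by
    have h3 : M = Λᴴ * Ymᴴ * M := by
      have := congrArg Matrix.conjTranspose h1
      rw [Matrix.conjTranspose_mul, Matrix.conjTranspose_mul, hM.eq] at this
      rw [← Matrix.mul_assoc] at this
      exact this.symm
    calc M = M * Ym * Λ := h1.symm
      _ = (Λᴴ * Ymᴴ * M) * Ym * Λ := by rw [← h3]
      _ = Λᴴ * N * Λ := by rw [hN]; simp only [Matrix.mul_assoc]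
  have h3 : ∀ p q, M p q = ∑ r, ∑ s, conj (Λ r p) * N r s * Λ s q := by
    intro p q
    conv_lhs => rw [h2]
    rw [Matrix.mul_apply]
    simp only [Matrix.mul_apply, Matrix.conjTranspose_apply, Finset.sum_mul]
    rw [Finset.sum_comm]
    rfl
  refine ⟨∑ r, ∑ s, ‖N r s‖, Finset.sum_nonneg (fun r _ => Finset.sum_nonneg (fun s _ => norm_nonneg _)), ?_⟩
  intro E _ _ w
  set W : ρ → E := fun r => ∑ p, Λ r p • w p with hW
  have h4 : ∑ p, ∑ q, M p q * ⟪w p, w q⟫_ℂ = ∑ r, ∑ s, N r s * ⟪W r, W s⟫_ℂ := by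
    have h5 : ∀ r s, ⟪W r, W s⟫_ℂ = ∑ p, ∑ q, conj (Λ r p) * Λ s q * ⟪w p, w q⟫_ℂ := by
      intro r s
      simp only [hW]
      rw [sum_inner]
      refine Finset.sum_congr rfl (fun p _ => ?_)
      rw [inner_sum]
      refine Finset.sum_congr rfl (fun q _ => ?_)
      rw [inner_smul_left, inner_smul_right]
      ring
    simp only [h5, h3, Finset.sum_mul, Finset.mul_sum]
    -- LHS: ∑ p q r s ; RHS: ∑ r s p q
    have e1 : ∀ p, ∑ q, ∑ r, ∑ s, conj (Λ r p) * N r s * Λ s q * ⟪w p, w q⟫_ℂ =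
        ∑ r, ∑ s, ∑ q, conj (Λ r p) * N r s * Λ s q * ⟪w p, w q⟫_ℂ := by
      intro p
      rw [Finset.sum_comm]
      refine Finset.sum_congr rfl (fun r _ => ?_)
      rw [Finset.sum_comm]
    simp only [e1]
    rw [Finset.sum_comm]
    refine Finset.sum_congr rfl (fun r _ => ?_)
    rw [Finset.sum_comm]
    refine Finset.sum_congr rfl (fun s _ => ?_)
    refine Finset.sum_congr rfl (fun p _ => ?_)
    refine Finset.sum_congr rfl (fun q _ => ?_)
    ring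
  rw [h4, Finset.sum_mul]
  refine (norm_sum_le _ _).trans (Finset.sum_le_sum (fun r _ => ?_))
  rw [Finset.sum_mul]
  refine (norm_sum_le _ _).trans (Finset.sum_le_sum (fun s _ => ?_))
  rw [norm_mul]
  apply mul_le_mul_of_nonneg_left _ (norm_nonneg _)
  have hr : ‖W r‖ ^ 2 ≤ ∑ r, ‖W r‖ ^ 2 :=
    Finset.single_le_sum (f := fun r => ‖W r‖ ^ 2) (fun i _ => by positivity) (Finset.mem_univ r)
  have hs : ‖W s‖ ^ 2 ≤ ∑ r, ‖W r‖ ^ 2 :=
    Finset.single_le_sum (f := fun r => ‖W r‖ ^ 2) (fun i _ => by positivity) (Finset.mem_univ s)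
  have h5 := norm_inner_le_norm (𝕜 := ℂ) (W r) (W s)
  have h6 : 2 * (‖W r‖ * ‖W s‖) ≤ ‖W r‖ ^ 2 + ‖W s‖ ^ 2 := by
    nlinarith [sq_nonneg (‖W r‖ - ‖W s‖)]
  have h7 : ∑ r, ‖∑ p, Λ r p • w p‖ ^ 2 = ∑ r, ‖W r‖ ^ 2 := rfl
  rw [h7]
  linarith

/-- a linear form vanishing on the kernel of `Λ` is a combination of the rows of `Λ` -/
theorem lin_span {ι ρ : Type} [Fintype ι] [Fintype ρ] [DecidableEq ι] [DecidableEq ρ]
    (f : ι → ℂ)
    (Λ : Matrix ρ ι ℂ) (hΛ : ∀ x : ι → ℂ, Λ.mulVec x = 0 → ∑ p, f p * x p = 0) :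
    ∃ c : ρ → ℂ, ∀ p, f p = ∑ r, c r * Λ r p := by
  classical
  obtain ⟨Y, hY⟩ := exists_ginv Λ
  refine ⟨fun r => ∑ q, f q * Y (Pi.single r 1) q, fun p => ?_⟩
  have h1 := hΛ (Y (Λ.mulVec (Pi.single p 1)) - Pi.single p 1) (by
    rw [Matrix.mulVec_sub, hY, sub_self])
  simp only [Pi.sub_apply, mul_sub, Finset.sum_sub_distrib] at h1
  rw [sub_eq_zero] at h1
  have h2 : ∑ q, f q * (Pi.single p (1:ℂ) : ι → ℂ) q = f p := by
    simp [Pi.single_apply]
  rw [h2] at h1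
  rw [← h1]
  have h3 : Λ.mulVec (Pi.single p 1) = ∑ r, Λ r p • (Pi.single r (1:ℂ) : ρ → ℂ) := by
    rw [Matrix.mulVec_single_one]
    funext r
    rw [Finset.sum_apply]
    simp [Pi.single_apply]
  rw [h3, map_sum]
  simp only [map_smul, Finset.sum_apply, Pi.smul_apply, smul_eq_mul, Finset.mul_sum, Finset.sum_mul]
  rw [Finset.sum_comm]
  refine Finset.sum_congr rfl (fun r _ => Finset.sum_congr rfl (fun q _ => ?_))
  ring

end GQ
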