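import Mathlib

open Filter Topology
open scoped ENNReal ComplexConjugate InnerProductSpace

namespace GQ

variable {E : Type} [NormedAddCommGroup E] [NormedSpace ℂ E] [CompleteSpace E]

/-- from the estimate `‖t S_t A x‖ ≤ K ‖x‖` on a dense subspace to operator norm
differentiability of the semigroup -/
theorem norm_differentiable (S : ℝ → E →L[ℂ] E) (hS0 : S 0 = 1)
    (hadd : ∀ s t : ℝ, 0 ≤ s → 0 ≤ t → S (s + t) = S s * S t)
    (hS : ∀ t : ℝ, 0 ≤ t → ‖S t‖ ≤ 1) {V : Type} [AddCommGroup V] [Module ℂ V]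
    (e : V →ₗ[ℂ] E) (he : DenseRange e) (A : V →ₗ[ℂ] V)
    (hder : ∀ (x : V) (t : ℝ), 0 ≤ t → HasDerivWithinAt (fun s => S s (e x)) (S t (e (A x)))
      (Set.Ici t) t)
    (hcont : ∀ x : V, ContinuousOn (fun s => S s (e x)) (Set.Ici 0))
    (K : ℝ) (hK : 0 ≤ K)
    (hbd : ∀ (x : V) (t : ℝ), 0 < t → t * ‖S t (e (A x))‖ ≤ K * ‖e x‖) :
    ∃ B : ℝ → E →L[ℂ] E, (∀ t : ℝ, 0 < t → ‖B t‖ ≤ K / t) ∧
      ∀ t : ℝ, 0 < t → HasDerivAt S (B t) t := by
  have hext : ∀ f g : E →L[ℂ] E, (∀ x, f (e x) = g (e x)) → f = g := by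
    intro f g h
    ext y
    exact he.induction (P := fun y => f y = g y) (fun y hy => by
      obtain ⟨x, rfl⟩ := hy
      exact h x) (isClosed_eq f.continuous g.continuous) y
  have hopn : ∀ (f : E →L[ℂ] E) (C : ℝ), 0 ≤ C → (∀ x, ‖f (e x)‖ ≤ C * ‖e x‖) → ‖f‖ ≤ C := by
    intro f C hC h
    refine f.opNorm_le_bound hC fun y => ?_
    exact he.induction (P := fun y => ‖f y‖ ≤ C * ‖y‖) (fun y hy => by
      obtain ⟨x, rfl⟩ := hy
      exact h x) (isClosed_le (by fun_prop) (by fun_prop)) y
  have hbd' : ∀ t : ℝ, 0 < t → ∀ x : V, ‖((S t : E →ₗ[ℂ] E) ∘ₗ e ∘ₗ A) x‖ ≤ K / t * ‖e x‖ := by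
    intro t ht x
    have := hbd x t ht
    have h2 : ‖S t (e (A x))‖ ≤ K / t * ‖e x‖ := by
      rw [div_mul_eq_mul_div, le_div_iff₀ ht]
      linarith
    simpa using h2
  set B : ℝ → E →L[ℂ] E := fun t => ((S t : E →ₗ[ℂ] E) ∘ₗ e ∘ₗ A).extendOfNorm e with hBdef
  have hB : ∀ t : ℝ, 0 < t → ∀ x, B t (e x) = S t (e (A x)) := by
    intro t ht x
    have := LinearMap.extendOfNorm_eq he ⟨K / t, hbd' t ht⟩ x
    rw [hBdef]
    simpa using this
  have hBn : ∀ t : ℝ, 0 < t → ‖B t‖ ≤ K / t := by
    intro t ht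
    exact LinearMap.opNorm_extendOfNorm_le he (by positivity) (hbd' t ht)
  have hdec : ∀ s r : ℝ, 0 < s → s ≤ r → B r = S (r - s) * B s := by
    intro s r hs hr
    apply hext
    intro x
    rw [hB r (by linarith) x, mul_apply_eq_comp, hB s hs x]
    have := hadd (r - s) s (by linarith) hs.le
    rw [sub_add_cancel] at this
    rw [this, mul_apply_eq_comp]
  have hlip : ∀ s r : ℝ, 0 < s → s ≤ r → ‖S r - S s‖ ≤ K / s * (r - s) := by
    intro s r hs hr
    apply hopn _ _ (mul_nonneg (by positivity) (by linarith))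
    intro x
    have := norm_image_sub_le_of_norm_deriv_right_le_segment (a := s) (b := r)
      (f := fun q => S q (e x)) (f' := fun q => S q (e (A x))) (C := K / s * ‖e x‖)
      ((hcont x).mono fun q hq => by
        simp only [Set.mem_Icc, Set.mem_Ici] at *
        linarith [hq.1])
      (fun q hq => hder x q (by linarith [hq.1]))
      (fun q hq => by
        have h1 := hbd' q (by linarith [hq.1]) x
        have h2 : K / q * ‖e x‖ ≤ K / s * ‖e x‖ := by
          apply mul_le_mul_of_nonneg_right _ (norm_nonneg _)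
          exact div_le_div_of_nonneg_left hK hs hq.1
        refine le_trans ?_ h2
        simpa using h1) r ⟨hr, le_refl r⟩
    rw [sub_apply]
    linarith
  have hlip' : ∀ m s r : ℝ, 0 < m → m ≤ s → m ≤ r → ‖S r - S s‖ ≤ K / m * |r - s| := by
    intro m s r hm hs hr
    rcases le_total s r with h | h
    · refine (hlip s r (by linarith) h).trans ?_
      rw [abs_of_nonneg (by linarith : 0 ≤ r - s)]
      apply mul_le_mul_of_nonneg_right _ (by linarith)
      exact div_le_div_of_nonneg_left hK hm hs
    · rw [norm_sub_rev, abs_sub_comm]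
      refine (hlip r s (by linarith) h).trans ?_
      rw [abs_of_nonneg (by linarith : 0 ≤ s - r)]
      apply mul_le_mul_of_nonneg_right _ (by linarith)
      exact div_le_div_of_nonneg_left hK hm hr
  refine ⟨B, hBn, ?_⟩
  intro t ht
  set M : ℝ := (K / (t / 4)) * (K / (t / 2)) with hM
  have hM0 : 0 ≤ M := by positivity
  have hBlip : ∀ r : ℝ, |r - t| ≤ t / 4 → ‖B r - B t‖ ≤ M * |r - t| := by
    intro r hr
    have hr' := abs_le.1 hr
    rw [hdec (t / 2) r (by linarith) (by linarith), hdec (t / 2) t (by linarith) (by linarith),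
      ← sub_mul]
    refine (norm_mul_le _ _).trans ?_
    have h1 := hlip' (t / 4) (t - t / 2) (r - t / 2) (by linarith) (by linarith) (by linarith)
    have h2 := hBn (t / 2) (by linarith)
    rw [show r - t / 2 - (t - t / 2) = r - t by ring] at h1
    calc ‖S (r - t / 2) - S (t - t / 2)‖ * ‖B (t / 2)‖ ≤ (K / (t / 4) * |r - t|) * (K / (t / 2)) :=
          mul_le_mul h1 h2 (norm_nonneg _) (by positivity)
      _ = M * |r - t| := by rw [hM]; ring
  have hmain : ∀ a b : ℝ, a ≤ b → t - t / 4 ≤ a → b ≤ t + t / 4 → a ≤ t → t ≤ b →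
      ‖S b - S a - (b - a) • B t‖ ≤ M * (b - a) * (b - a) := by
    intro a b hab ha hb hat htb
    apply hopn _ _ (mul_nonneg (mul_nonneg hM0 (by linarith)) (by linarith))
    intro x
    have := norm_image_sub_le_of_norm_deriv_right_le_segment (a := a) (b := b)
      (f := fun q => S q (e x) - (q - t) • B t (e x)) (f' := fun q => B q (e x) - B t (e x))
      (C := M * (b - a) * ‖e x‖)
      (by
        refine ContinuousOn.sub ((hcont x).mono fun q hq => ?_) ?_
        · simp only [Set.mem_Icc, Set.mem_Ici] at *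
          linarith [hq.1]
        · fun_prop)
      (fun q hq => by
        have h1 := hder x q (by linarith [hq.1])
        have h0 : HasDerivAt (fun q : ℝ => q - t) 1 q := (hasDerivAt_id q).sub_const t
        have h2 : HasDerivAt (fun q : ℝ => (q - t) • B t (e x)) ((1 : ℝ) • B t (e x)) q :=
          h0.smul_const (B t (e x))
        rw [one_smul] at h2
        have h3 := h1.sub h2.hasDerivWithinAt
        rw [← hB q (by linarith [hq.1]) x] at h3
        exact h3)
      (fun q hq => by
        have hq1 : |q - t| ≤ b - a := by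
          rw [abs_le]
          constructor <;> linarith [hq.1, hq.2]
        have hq2 : |q - t| ≤ t / 4 := by
          rw [abs_le]
          constructor <;> linarith [hq.1, hq.2]
        have h1 := hBlip q hq2
        rw [← sub_apply]
        refine ((B q - B t).le_opNorm (e x)).trans ?_
        apply mul_le_mul_of_nonneg_right _ (norm_nonneg _)
        exact h1.trans (mul_le_mul_of_nonneg_left hq1 hM0)) b ⟨hab, le_refl b⟩
    have h5 : (S b - S a - (b - a) • B t) (e x) =
        (S b (e x) - (b - t) • B t (e x)) - (S a (e x) - (a - t) • B t (e x)) := by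
      have h6 : (S b - S a - (b - a) • B t) (e x) = S b (e x) - S a (e x) - (b - a) • B t (e x) := by
        simp
      rw [h6, show b - a = (b - t) - (a - t) by ring, sub_smul]
      abel
    rw [h5]
    calc _ ≤ M * (b - a) * ‖e x‖ * (b - a) := this
      _ = _ := by ring
  rw [hasDerivAt_iff_isLittleO]
  have hO : (fun r => S r - S t - (r - t) • B t) =O[𝓝 t] fun r => ‖r - t‖ ^ 2 := by
    apply Asymptotics.IsBigO.of_bound M
    have hnear : ∀ᶠ r in 𝓝 t, |r - t| < t / 4 := by
      have := Metric.ball_mem_nhds t (by positivity : (0 : ℝ) < t / 4)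
      filter_upwards [this] with r hr
      simpa [Real.dist_eq] using hr
    filter_upwards [hnear] with r hr
    have hr' := abs_lt.1 hr
    rw [Real.norm_of_nonneg (by positivity : 0 ≤ ‖r - t‖ ^ 2), Real.norm_eq_abs, sq_abs]
    rcases le_total t r with h | h
    · have := hmain t r h (by linarith) (by linarith) (le_refl t) h
      calc _ ≤ M * (r - t) * (r - t) := this
        _ = _ := by ring
    · have := hmain r t h (by linarith) (by linarith) h (le_refl t)
      have h2 : S r - S t - (r - t) • B t = -(S t - S r - (t - r) • B t) := by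
        rw [show r - t = -(t - r) by ring, neg_smul]
        abel
      rw [h2, norm_neg]
      calc _ ≤ M * (t - r) * (t - r) := this
        _ = _ := by ring
  exact hO.trans_isLittleO (Asymptotics.isLittleO_pow_sub_sub t (by norm_num))

end GQ
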