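import Mathlib
import Pool.Agent.GQ.Defs
import Pool.Agent.GQ.Symbols

open Filter Topology
open scoped ENNReal ComplexConjugate InnerProductSpace

namespace GQ

namespace Param

variable {d : ℕ} (p : Param d)

theorem J_lin (a b : ℝ) (z w : Fin d → ℂ) (j : Fin d) :
    p.J (fun k => (a : ℂ) * z k + (b : ℂ) * w k) j = (a : ℂ) * p.J z j + (b : ℂ) * p.J w j := by
  unfold J
  rw [Finset.mul_sum, Finset.mul_sum, ← Finset.sum_add_distrib]
  refine Finset.sum_congr rfl fun k _ => ?_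
  simp only [map_add, map_mul, Complex.conj_ofReal]
  ring

theorem Lz_lin (a b : ℝ) (z w : Fin d → ℂ) (l : Fin (2 * d)) :
    p.Lz (fun k => (a : ℂ) * z k + (b : ℂ) * w k) l = (a : ℂ) * p.Lz z l + (b : ℂ) * p.Lz w l := by
  unfold Lz
  rw [Finset.mul_sum, Finset.mul_sum, ← Finset.sum_add_distrib]
  refine Finset.sum_congr rfl fun k _ => ?_
  simp only [map_add, map_mul, Complex.conj_ofReal]
  ring

noncomputable def bt (z w : Fin d → ℂ) : ℝ := (∑ j, conj (z j) * p.J w j).re

noncomputable def rr (z : Fin d → ℂ) : ℝ := (∑ j, conj (p.ζ j) * z j).re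

theorem bt_symm (z w : Fin d → ℂ) : p.bt z w = p.bt w z := by
  have hex : ∀ z w : Fin d → ℂ, (∑ j, conj (z j) * p.J w j)
      = (∑ j, ∑ k, conj (z j) * (p.Ω j k * w k)) + ∑ j, ∑ k, conj (z j) * (p.κ j k * conj (w k)) := by
    intro z w
    rw [← Finset.sum_add_distrib]
    refine Finset.sum_congr rfl fun j _ => ?_
    unfold J
    rw [Finset.mul_sum, ← Finset.sum_add_distrib]
    refine Finset.sum_congr rfl fun k _ => ?_
    ring
  have h1 : (∑ j, ∑ k, conj (z j) * (p.Ω j k * w k))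
      = conj (∑ j, ∑ k, conj (w j) * (p.Ω j k * z k)) := by
    rw [Finset.sum_comm, map_sum]
    refine Finset.sum_congr rfl fun j _ => ?_
    rw [map_sum]
    refine Finset.sum_congr rfl fun k _ => ?_
    have hO : conj (p.Ω j k) = p.Ω k j := p.Ω_herm.apply k j
    rw [map_mul, map_mul, Complex.conj_conj, hO]
    ring
  have h2 : (∑ j, ∑ k, conj (z j) * (p.κ j k * conj (w k)))
      = ∑ j, ∑ k, conj (w j) * (p.κ j k * conj (z k)) := by
    rw [Finset.sum_comm]
    refine Finset.sum_congr rfl fun j _ => Finset.sum_congr rfl fun k _ => ?_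
    have hK : p.κ k j = p.κ j k := congrFun (congrFun p.κ_symm j) k
    rw [hK]
    ring
  unfold bt
  rw [hex, hex, h2, Complex.add_re, Complex.add_re, h1, Complex.conj_re]

theorem Hz_lin (a b : ℝ) (z w : Fin d → ℂ) :
    p.Hz (fun k => (a : ℂ) * z k + (b : ℂ) * w k)
      = a ^ 2 * p.bt z z + 2 * a * b * p.bt w z + b ^ 2 * p.bt w w + a * p.rr z + b * p.rr w := by
  have h1 : (∑ j, conj ((a : ℂ) * z j + (b : ℂ) * w j) *
      p.J (fun k => (a : ℂ) * z k + (b : ℂ) * w k) j)
      = ((a ^ 2 : ℝ) : ℂ) * (∑ j, conj (z j) * p.J z j) + ((a * b : ℝ) : ℂ) * (∑ j, conj (z j) * p.J w j)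
        + ((a * b : ℝ) : ℂ) * (∑ j, conj (w j) * p.J z j)
        + ((b ^ 2 : ℝ) : ℂ) * (∑ j, conj (w j) * p.J w j) := by
    rw [Finset.mul_sum, Finset.mul_sum, Finset.mul_sum, Finset.mul_sum, ← Finset.sum_add_distrib,
      ← Finset.sum_add_distrib, ← Finset.sum_add_distrib]
    refine Finset.sum_congr rfl fun j _ => ?_
    rw [J_lin]
    simp only [map_add, map_mul, Complex.conj_ofReal]
    push_cast
    ring
  have h2 : (∑ j, conj (p.ζ j) * ((a : ℂ) * z j + (b : ℂ) * w j))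
      = ((a : ℝ) : ℂ) * (∑ j, conj (p.ζ j) * z j) + ((b : ℝ) : ℂ) * (∑ j, conj (p.ζ j) * w j) := by
    rw [Finset.mul_sum, Finset.mul_sum, ← Finset.sum_add_distrib]
    refine Finset.sum_congr rfl fun j _ => ?_
    ring
  have h3 := p.bt_symm z w
  unfold bt at h3
  unfold Hz bt rr
  rw [h1, h2]
  simp only [Complex.add_re, Complex.re_ofReal_mul]
  rw [h3]
  ring

theorem num3a (C δ A r s : ℝ) (hC : 0 ≤ C) (hδ : 0 < δ) (hA : 0 ≤ A) (hs : 0 < s) :
    ∃ mu : ℝ, 0 ≤ mu ∧ C * A + 1 ≤ δ * (2 * mu * s + r) := by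
  refine ⟨((C * A + 1) / δ + |r|) / (2 * s), by positivity, ?_⟩
  have h0 : 2 * (((C * A + 1) / δ + |r|) / (2 * s)) * s = (C * A + 1) / δ + |r| := by
    field_simp
  rw [h0]
  have h1 : δ * ((C * A + 1) / δ + |r| + r) = C * A + 1 + δ * (|r| + r) := by
    field_simp
    ring
  rw [h1]
  have h2 : 0 ≤ |r| + r := by
    have := neg_abs_le r
    linarith
  have := mul_nonneg hδ.le h2
  linarith

theorem num3b (C δ K A B E1 E2 D P : ℝ) (hC : 0 ≤ C) (hδ : 0 < δ) (hA : 0 ≤ A) (hB : 0 ≤ B)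
    (hE1 : 0 ≤ E1) (hE2 : 0 ≤ E2) (hP : C * A + 1 ≤ δ * P) :
    ∃ lam : ℝ, 0 ≤ lam ∧ K ≤ |lam * P + D| ∧
      C * (1 + (lam * A + B) + E1 + E2) ≤ δ * |lam * P + D| := by
  have hF : 0 ≤ C * (1 + B + E1 + E2) := by positivity
  have hD : 0 ≤ δ * |D| := by positivity
  have hK : 0 ≤ δ * |K| := by positivity
  refine ⟨C * (1 + B + E1 + E2) + δ * |D| + δ * |K|, by positivity, ?_⟩
  generalize hlam : C * (1 + B + E1 + E2) + δ * |D| + δ * |K| = lam
  have hlam0 : 0 ≤ lam := by rw [← hlam]; positivity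
  have hkey : lam * (C * A + 1) - δ * |D| ≤ δ * |lam * P + D| := by
    have h1 := mul_le_mul_of_nonneg_left (le_abs_self (lam * P + D)) hδ.le
    have h2 := mul_le_mul_of_nonneg_left hP hlam0
    have h3 := mul_le_mul_of_nonneg_left (neg_abs_le D) hδ.le
    have h4 : δ * (lam * P + D) = lam * (δ * P) + δ * D := by ring
    have h5 : δ * -|D| = -(δ * |D|) := by ring
    rw [h4] at h1
    rw [h5] at h3
    linarith
  have h6 : lam * (C * A + 1) - δ * |D| = lam * (C * A) + (C * (1 + B + E1 + E2) + δ * |K|) := by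
    have : lam * (C * A + 1) = lam * (C * A) + lam := by ring
    rw [this]
    linarith
  rw [h6] at hkey
  have h7 : 0 ≤ lam * (C * A) := by positivity
  constructor
  · have h8 := mul_le_mul_of_nonneg_left (le_abs_self K) hδ.le
    exact le_of_mul_le_mul_left (by linarith) hδ
  · have h9 : C * (1 + (lam * A + B) + E1 + E2) = C * (1 + B + E1 + E2) + lam * (C * A) := by ring
    rw [h9]
    linarith

/-- if the condition fails, the symbol of `H` dominates at some points of phase space -/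
theorem exists_point (hp : ¬ p.Cond) (C δ K₀ : ℝ) (hC : 0 ≤ C) (hδ : 0 < δ) :
    ∃ z : Fin d → ℂ, K₀ ≤ |p.Hz z| ∧
      C * (1 + ∑ j, ‖p.J z j‖ + ∑ l, ‖p.Lz z l‖ + ∑ l, ‖p.Lz z l‖ ^ 2) ≤ δ * |p.Hz z| := by
  unfold Cond at hp
  push Not at hp
  obtain ⟨z0, hL0, hz0⟩ := hp
  have hL0' : ∀ l, p.Lz z0 l = 0 := hL0
  set A := ∑ j, ‖p.J z0 j‖ with hA
  have hA0 : 0 ≤ A := Finset.sum_nonneg fun j _ => norm_nonneg _
  by_cases hq : p.bt z0 z0 = 0
  · by_cases hJ : ∀ j, p.J z0 j = 0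
    · -- case 2
      have hr : p.rr z0 ≠ 0 := hz0 hJ
      have hr' : 0 < |p.rr z0| := abs_pos.2 hr
      set lam := (|K₀| + C / δ) / |p.rr z0| with hlam
      have hlr : |lam * p.rr z0| = |K₀| + C / δ := by
        have hl0 : 0 ≤ lam := by positivity
        rw [abs_mul, abs_of_nonneg hl0, hlam]
        field_simp
      have hCd : 0 ≤ C / δ := by positivity
      refine ⟨fun k => (lam : ℂ) * z0 k + ((0 : ℝ) : ℂ) * (0 : Fin d → ℂ) k, ?_, ?_⟩
      · rw [p.Hz_lin, hq]
        have : lam ^ 2 * 0 + 2 * lam * 0 * p.bt 0 z0 + 0 ^ 2 * p.bt 0 0 + lam * p.rr z0 + 0 * p.rr 0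
          = lam * p.rr z0 := by ring
        rw [this, hlr]
        have := le_abs_self K₀
        linarith
      · rw [p.Hz_lin, hq]
        have : lam ^ 2 * 0 + 2 * lam * 0 * p.bt 0 z0 + 0 ^ 2 * p.bt 0 0 + lam * p.rr z0 + 0 * p.rr 0
          = lam * p.rr z0 := by ring
        rw [this, hlr]
        have hJ1 : ∀ j, p.J (fun k => (lam : ℂ) * z0 k + ((0 : ℝ) : ℂ) * (0 : Fin d → ℂ) k) j = 0 := by
          intro j
          rw [p.J_lin, hJ, Complex.ofReal_zero, zero_mul, mul_zero, add_zero]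
        have hL1 : ∀ l, p.Lz (fun k => (lam : ℂ) * z0 k + ((0 : ℝ) : ℂ) * (0 : Fin d → ℂ) k) l = 0 := by
          intro l
          rw [p.Lz_lin, hL0', Complex.ofReal_zero, zero_mul, mul_zero, add_zero]
        simp only [hJ1, hL1, norm_zero, Finset.sum_const_zero, zero_pow (two_ne_zero), add_zero]
        have h3 : δ * (|K₀| + C / δ) = δ * |K₀| + C := by field_simp
        rw [h3]
        have := mul_nonneg hδ.le (abs_nonneg K₀)
        linarith
    · -- case 3
      push Not at hJ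
      obtain ⟨j0, hj0⟩ := hJ
      set w : Fin d → ℂ := fun j => p.J z0 j with hw
      have hs : p.bt w z0 = ∑ j, ‖p.J z0 j‖ ^ 2 := by
        unfold bt
        rw [Complex.re_sum]
        refine Finset.sum_congr rfl fun j _ => ?_
        show (conj (p.J z0 j) * p.J z0 j).re = _
        rw [← Complex.normSq_eq_conj_mul_self, Complex.ofReal_re, Complex.normSq_eq_norm_sq]
      have hs0 : 0 < p.bt w z0 := by
        rw [hs]
        refine Finset.sum_pos' (fun j _ => by positivity) ⟨j0, Finset.mem_univ _, ?_⟩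
        have := norm_pos_iff.2 hj0
        positivity
      obtain ⟨mu, hmu0, hP⟩ := num3a C δ A (p.rr z0) (p.bt w z0) hC hδ hA0 hs0
      obtain ⟨lam, hlam0, hk1, hk2⟩ := num3b C δ K₀ A (mu * ∑ j, ‖p.J w j‖) (mu * ∑ l, ‖p.Lz w l‖)
        (mu ^ 2 * ∑ l, ‖p.Lz w l‖ ^ 2) (mu ^ 2 * p.bt w w + mu * p.rr w)
        (2 * mu * p.bt w z0 + p.rr z0) hC hδ hA0
        (mul_nonneg hmu0 (Finset.sum_nonneg fun j _ => norm_nonneg _))
        (mul_nonneg hmu0 (Finset.sum_nonneg fun j _ => norm_nonneg _))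
        (mul_nonneg (sq_nonneg _) (Finset.sum_nonneg fun j _ => sq_nonneg _)) hP
      have hHz : p.Hz (fun k => (lam : ℂ) * z0 k + (mu : ℂ) * w k)
          = lam * (2 * mu * p.bt w z0 + p.rr z0) + (mu ^ 2 * p.bt w w + mu * p.rr w) := by
        rw [p.Hz_lin, hq]; ring
      refine ⟨fun k => (lam : ℂ) * z0 k + (mu : ℂ) * w k, ?_, ?_⟩
      · rw [hHz]
        exact hk1
      · rw [hHz]
        refine le_trans ?_ hk2
        have hJs : ∑ j, ‖p.J (fun k => (lam : ℂ) * z0 k + (mu : ℂ) * w k) j‖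
            ≤ lam * A + mu * ∑ j, ‖p.J w j‖ := by
          rw [hA, Finset.mul_sum, Finset.mul_sum, ← Finset.sum_add_distrib]
          refine Finset.sum_le_sum fun j _ => ?_
          rw [p.J_lin]
          refine (norm_add_le _ _).trans (le_of_eq ?_)
          rw [norm_mul, norm_mul, Complex.norm_real, Complex.norm_real, Real.norm_of_nonneg hlam0,
            Real.norm_of_nonneg hmu0]
        have hL1 : ∑ l, ‖p.Lz (fun k => (lam : ℂ) * z0 k + (mu : ℂ) * w k) l‖
            = mu * ∑ l, ‖p.Lz w l‖ := by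
          rw [Finset.mul_sum]
          refine Finset.sum_congr rfl fun l _ => ?_
          rw [p.Lz_lin, hL0', mul_zero, zero_add, norm_mul, Complex.norm_real, Real.norm_of_nonneg hmu0]
        have hL2 : ∑ l, ‖p.Lz (fun k => (lam : ℂ) * z0 k + (mu : ℂ) * w k) l‖ ^ 2
            = mu ^ 2 * ∑ l, ‖p.Lz w l‖ ^ 2 := by
          rw [Finset.mul_sum]
          refine Finset.sum_congr rfl fun l _ => ?_
          rw [p.Lz_lin, hL0', mul_zero, zero_add, norm_mul, Complex.norm_real, Real.norm_of_nonneg hmu0,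
            mul_pow]
        rw [hL1, hL2]
        refine mul_le_mul_of_nonneg_left ?_ hC
        linarith
  · -- case 1
    have hq' : 0 < |p.bt z0 z0| := abs_pos.2 hq
    set M := |K₀| + C * (1 + A) / δ with hM
    have hM0 : 0 ≤ M := by positivity
    set lam := 1 + (M + |p.rr z0|) / |p.bt z0 z0| with hlam
    have hlam1 : 1 ≤ lam := by
      rw [hlam]
      have : 0 ≤ (M + |p.rr z0|) / |p.bt z0 z0| := by positivity
      linarith
    have hlam0 : 0 ≤ lam := by linarith
    have hHz : p.Hz (fun k => (lam : ℂ) * z0 k + ((0 : ℝ) : ℂ) * (0 : Fin d → ℂ) k)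
        = lam * (lam * p.bt z0 z0 + p.rr z0) := by
      rw [p.Hz_lin]; ring
    have h1 : M ≤ |lam * p.bt z0 z0 + p.rr z0| := by
      have h2 : |lam * p.bt z0 z0| - |p.rr z0| ≤ |lam * p.bt z0 z0 + p.rr z0| := by
        have := abs_sub_abs_le_abs_sub (lam * p.bt z0 z0) (-p.rr z0)
        rw [abs_neg, sub_neg_eq_add] at this
        exact this
      have h3 : |lam * p.bt z0 z0| = |p.bt z0 z0| + (M + |p.rr z0|) := by
        rw [abs_mul, abs_of_nonneg hlam0, hlam]
        field_simp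
      rw [h3] at h2
      linarith
    have h4 : lam * M ≤ |lam * (lam * p.bt z0 z0 + p.rr z0)| := by
      rw [abs_mul, abs_of_nonneg hlam0]
      exact mul_le_mul_of_nonneg_left h1 hlam0
    refine ⟨fun k => (lam : ℂ) * z0 k + ((0 : ℝ) : ℂ) * (0 : Fin d → ℂ) k, ?_, ?_⟩
    · rw [hHz]
      refine le_trans ?_ h4
      have h5 : M ≤ lam * M := le_mul_of_one_le_left hM0 hlam1
      have h6 : |K₀| ≤ M := by
        rw [hM]
        have : 0 ≤ C * (1 + A) / δ := by positivity
        linarith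
      exact (le_abs_self K₀).trans (h6.trans h5)
    · rw [hHz]
      refine le_trans ?_ (mul_le_mul_of_nonneg_left h4 hδ.le)
      have hJs : ∑ j, ‖p.J (fun k => (lam : ℂ) * z0 k + ((0 : ℝ) : ℂ) * (0 : Fin d → ℂ) k) j‖
          = lam * A := by
        rw [hA, Finset.mul_sum]
        refine Finset.sum_congr rfl fun j _ => ?_
        rw [p.J_lin, Complex.ofReal_zero, zero_mul, add_zero, norm_mul, Complex.norm_real,
          Real.norm_of_nonneg hlam0]
      have hL1 : ∀ l, p.Lz (fun k => (lam : ℂ) * z0 k + ((0 : ℝ) : ℂ) * (0 : Fin d → ℂ) k) l = 0 := by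
        intro l
        rw [p.Lz_lin, hL0', Complex.ofReal_zero, zero_mul, mul_zero, add_zero]
      rw [hJs]
      simp only [hL1, norm_zero, Finset.sum_const_zero, zero_pow (two_ne_zero), add_zero]
      have h5 : δ * (lam * M) = lam * (δ * |K₀|) + lam * (C * (1 + A)) := by
        rw [hM]; field_simp
      rw [h5]
      have h6 : 0 ≤ lam * (δ * |K₀|) := by positivity
      have h7 : C * (1 + lam * A) ≤ lam * (C * (1 + A)) := by
        have : lam * (C * (1 + A)) - C * (1 + lam * A) = C * (lam - 1) := by ring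
        have h8 : 0 ≤ C * (lam - 1) := mul_nonneg hC (by linarith)
        linarith
      linarith

end Param

end GQ
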