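import Mathlib
import Pool.Agent.GQ.Defs

open Filter Topology
open scoped ENNReal ComplexConjugate InnerProductSpace

namespace GQ

variable {E : Type} [NormedAddCommGroup E] [NormedSpace ℂ E] [CompleteSpace E]

theorem C0Semigroup.aux_zero (P : C0Semigroup E) (f : E) {ε : ℝ} (hε : 0 < ε) :
    ∃ δ > 0, ∀ h : ℝ, 0 ≤ h → h < δ → ‖P.T h f - f‖ < ε := by
  have h1 := (Metric.tendsto_nhdsWithin_nhds.mp (P.cont f)) ε hε
  obtain ⟨δ, hδ, h2⟩ := h1
  refine ⟨δ, hδ, fun h hh hlt => ?_⟩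
  rcases eq_or_lt_of_le hh with h0 | h0
  · rw [← h0, P.map_zero]
    simpa using hε
  · have h3 := h2 (x := h) h0 (by rw [Real.dist_eq, sub_zero, abs_of_pos h0]; exact hlt)
    rwa [dist_eq_norm] at h3

theorem C0Semigroup.aux_bdd_zero (P : C0Semigroup E) :
    ∃ δ > 0, ∃ M : ℝ, ∀ t : ℝ, 0 ≤ t → t ≤ δ → ‖P.T t‖ ≤ M := by
  by_contra hcon
  push Not at hcon
  have h1 : ∀ n : ℕ, ∃ t : ℝ, 0 ≤ t ∧ t ≤ 1 / ((n : ℝ) + 1) ∧ (n : ℝ) < ‖P.T t‖ := fun n =>
    hcon (1 / ((n : ℝ) + 1)) Nat.one_div_pos_of_nat n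
  choose t ht0 ht1 ht2 using h1
  have hlim : Tendsto t atTop (𝓝 0) :=
    squeeze_zero ht0 ht1 tendsto_one_div_add_atTop_nhds_zero_nat
  have hb : ∀ x : E, ∃ C, ∀ i, ‖P.T (t i) x‖ ≤ C := by
    intro x
    have hx : Tendsto (fun i => P.T (t i) x) atTop (𝓝 x) := by
      rw [Metric.tendsto_atTop]
      intro ε hε
      obtain ⟨δ, hδ, h2⟩ := P.aux_zero x hε
      obtain ⟨N, hN⟩ := (Metric.tendsto_atTop.mp hlim) δ hδ
      refine ⟨N, fun n hn => ?_⟩
      rw [dist_eq_norm]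
      apply h2 _ (ht0 n)
      have := hN n hn
      rw [Real.dist_eq, sub_zero] at this
      exact lt_of_le_of_lt (le_abs_self _) this
    obtain ⟨C, hC⟩ := (Metric.isBounded_range_of_tendsto _ hx).exists_norm_le
    exact ⟨C, fun i => hC _ ⟨i, rfl⟩⟩
  obtain ⟨C, hC⟩ := banach_steinhaus hb
  obtain ⟨n, hn⟩ := exists_nat_gt C
  have := hC n
  have := ht2 n
  linarith

theorem C0Semigroup.aux_bdd (P : C0Semigroup E) (b : ℝ) :
    ∃ M : ℝ, 1 ≤ M ∧ ∀ t : ℝ, 0 ≤ t → t ≤ b → ‖P.T t‖ ≤ M := by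
  obtain ⟨δ, hδ, M0, hM0⟩ := P.aux_bdd_zero
  have key : ∀ n : ℕ, ∀ t : ℝ, 0 ≤ t → t ≤ (n + 1) * δ → ‖P.T t‖ ≤ (max M0 1) ^ (n + 1) := by
    intro n
    induction n with
    | zero =>
      intro t h0 h1
      have := hM0 t h0 (by simpa using h1)
      simpa using Or.inl this
    | succ n ih =>
      intro t h0 h1
      rcases le_total t ((n + 1) * δ) with h2 | h2
      · refine (ih t h0 h2).trans ?_
        exact pow_le_pow_right₀ (le_max_right _ _) (by omega)
      · have h3 : P.T t = P.T (t - δ) * P.T δ := by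
          rw [← P.map_add (t - δ) δ (by nlinarith [(Nat.cast_nonneg n : (0:ℝ) ≤ n)]) hδ.le]
          congr 1; ring
        rw [h3]
        refine (norm_mul_le _ _).trans ?_
        rw [pow_succ]
        apply mul_le_mul _ _ (norm_nonneg _) (by positivity)
        · apply ih
          · nlinarith [(Nat.cast_nonneg n : (0:ℝ) ≤ n)]
          · push_cast at h1
            linarith
        · exact (hM0 δ hδ.le le_rfl).trans (le_max_left _ _)
  obtain ⟨n, hn⟩ := exists_nat_gt (b / δ)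
  refine ⟨(max M0 1) ^ (n + 1), one_le_pow₀ (le_max_right _ _), fun t h0 h1 => key n t h0 ?_⟩
  rw [div_lt_iff₀ hδ] at hn
  nlinarith

theorem C0Semigroup.aux_diff (P : C0Semigroup E) (f : E) {s t M : ℝ} (hs : 0 ≤ s) (hst : s ≤ t) (hM : ‖P.T s‖ ≤ M) :
    ‖P.T t f - P.T s f‖ ≤ M * ‖P.T (t - s) f - f‖ := by
  have h1 : P.T t = P.T s * P.T (t - s) := by
    rw [← P.map_add s (t - s) hs (by linarith)]
    congr 1; ring
  rw [h1]
  have h2 : (P.T s * P.T (t - s)) f - P.T s f = P.T s (P.T (t - s) f - f) := by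
    rw [map_sub]; rfl
  rw [h2]
  exact (ContinuousLinearMap.le_opNorm _ _).trans (mul_le_mul_of_nonneg_right hM (norm_nonneg _))

theorem C0Semigroup.continuousOn (P : C0Semigroup E) (f : E) :
    ContinuousOn (fun t => P.T t f) (Set.Ici 0) := by
  intro t0 ht0
  simp only [Set.mem_Ici] at ht0
  rw [Metric.continuousWithinAt_iff]
  intro ε hε
  obtain ⟨M, hM1, hM⟩ := P.aux_bdd (t0 + 1)
  obtain ⟨δ, hδ, h2⟩ := P.aux_zero f (ε := ε / M) (by positivity)
  refine ⟨min δ 1, by positivity, fun s hs hd => ?_⟩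
  simp only [Set.mem_Ici] at hs
  rw [Real.dist_eq] at hd
  have hd1 := lt_of_lt_of_le hd (min_le_left _ _)
  have hd2 := lt_of_lt_of_le hd (min_le_right _ _)
  rw [abs_lt] at hd1 hd2
  rw [dist_eq_norm]
  rcases le_total s t0 with h | h
  · rw [norm_sub_rev]
    calc ‖P.T t0 f - P.T s f‖ ≤ M * ‖P.T (t0 - s) f - f‖ := P.aux_diff f hs h (hM s hs (by linarith))
      _ < M * (ε / M) := by
        apply mul_lt_mul_of_pos_left (h2 _ (by linarith) (by linarith)) (by linarith)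
      _ = ε := by field_simp
  · calc ‖P.T s f - P.T t0 f‖ ≤ M * ‖P.T (s - t0) f - f‖ := P.aux_diff f ht0 h (hM t0 ht0 (by linarith))
      _ < M * (ε / M) := by
        apply mul_lt_mul_of_pos_left (h2 _ (by linarith) (by linarith)) (by linarith)
      _ = ε := by field_simp

theorem C0Semigroup.hasDerivWithinAt (P : C0Semigroup E) {f g : E} (h : P.IsGen f g) (t : ℝ)
    (ht : 0 ≤ t) : HasDerivWithinAt (fun s => P.T s f) (P.T t g) (Set.Ici t) t := by
  rw [← hasDerivWithinAt_Ioi_iff_Ici, hasDerivWithinAt_iff_tendsto_slope' (by simp)]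
  have hlim : Tendsto (fun y : ℝ => y - t) (𝓝[>] t) (𝓝[>] 0) := by
    apply tendsto_nhdsWithin_of_tendsto_nhds_of_eventually_within
    · have h1 : Tendsto (fun y : ℝ => y - t) (𝓝 t) (𝓝 (t - t)) := (continuous_id.sub continuous_const).tendsto t
      rw [sub_self] at h1
      exact h1.mono_left nhdsWithin_le_nhds
    · filter_upwards [self_mem_nhdsWithin] with y hy
      simp only [Set.mem_Ioi] at hy ⊢
      linarith
  have h2 : Tendsto (fun y : ℝ => P.T t ((((y - t)⁻¹ : ℝ) : ℂ) • (P.T (y - t) f - f))) (𝓝[>] t) (𝓝 (P.T t g)) :=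
    ((P.T t).continuous.tendsto g).comp (h.comp hlim)
  refine h2.congr' ?_
  filter_upwards [self_mem_nhdsWithin] with y hy
  simp only [Set.mem_Ioi] at hy
  have h3 : P.T y = P.T t * P.T (y - t) := by
    rw [← P.map_add t (y - t) ht (by linarith)]
    congr 1; ring
  rw [slope_def_module, h3, map_smul, map_sub, Complex.coe_smul]
  rfl

theorem C0Semigroup.isGen_map (P : C0Semigroup E) {f g : E} (h : P.IsGen f g) (t : ℝ)
    (ht : 0 ≤ t) : P.IsGen (P.T t f) (P.T t g) := by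
  have h2 : Tendsto (fun s : ℝ => P.T t (((s⁻¹ : ℝ) : ℂ) • (P.T s f - f))) (𝓝[>] 0) (𝓝 (P.T t g)) :=
    ((P.T t).continuous.tendsto g).comp h
  refine h2.congr' ?_
  filter_upwards [self_mem_nhdsWithin] with s hs
  simp only [Set.mem_Ioi] at hs
  have h3 : P.T s * P.T t = P.T t * P.T s := by
    rw [← P.map_add s t hs.le ht, ← P.map_add t s ht hs.le, add_comm]
  have h4 : P.T s (P.T t f) = P.T t (P.T s f) := by
    have := congrArg (fun A : E →L[ℂ] E => A f) h3
    exact this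
  rw [h4, map_smul, map_sub]

end GQ
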