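import Mathlib
import Pool.Agent.GQ.Defs
import Pool.Agent.GQ.Semi

open Filter Topology
open scoped ENNReal ComplexConjugate InnerProductSpace

namespace GQ

/-! ### TARGET -/
section target

variable {E : Type} [NormedAddCommGroup E] [NormedSpace ℂ E] [CompleteSpace E]

theorem ball_sub_sector (θ : ℝ) (h0 : 0 < θ) (h1 : θ ≤ Real.pi / 2) (x : ℝ) (hx : 0 < x)
    (z : ℂ) (hz : ‖z - x‖ ≤ Real.sin θ / 4 * x) : z ∈ sector θ := by
  have hpi := Real.pi_pos
  have hs : 0 < Real.sin θ := Real.sin_pos_of_pos_of_lt_pi h0 (by linarith)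
  have hs1 : Real.sin θ ≤ 1 := Real.sin_le_one θ
  have hre : |z.re - x| ≤ Real.sin θ / 4 * x := by
    have := Complex.abs_re_le_norm (z - x)
    rw [Complex.sub_re, Complex.ofReal_re] at this
    exact this.trans hz
  have him : |z.im| ≤ Real.sin θ / 4 * x := by
    have := Complex.abs_im_le_norm (z - x)
    rw [Complex.sub_im, Complex.ofReal_im, sub_zero] at this
    exact this.trans hz
  have hre2 : x / 2 ≤ z.re := by
    have := (abs_le.mp hre).1
    nlinarith
  have hrepos : 0 < z.re := by linarith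
  have hnorm : x / 2 ≤ ‖z‖ := hre2.trans ((le_abs_self _).trans (Complex.abs_re_le_norm z))
  have hnpos : 0 < ‖z‖ := by linarith
  refine ⟨norm_pos_iff.mp hnpos, ?_⟩
  by_contra hcon
  push Not at hcon
  have h2 : |z.arg| < Real.pi / 2 := by
    rw [Complex.abs_arg_lt_pi_div_two_iff]
    left; exact hrepos
  have h3 : Real.sin θ ≤ Real.sin |z.arg| :=
    Real.sin_le_sin_of_le_of_le_pi_div_two (by linarith) h2.le hcon
  have h4 : Real.sin |z.arg| = |z.im| / ‖z‖ := by
    have h5 : |Real.sin z.arg| = Real.sin |z.arg| := by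
      rcases abs_cases z.arg with ⟨h6, h7⟩ | ⟨h6, h7⟩
      · rw [h6, abs_of_nonneg]
        apply Real.sin_nonneg_of_nonneg_of_le_pi h7
        rw [← h6]; linarith
      · rw [h6, Real.sin_neg, abs_of_nonpos]
        apply Real.sin_nonpos_of_nonpos_of_neg_pi_le h7.le
        linarith
    rw [← h5, Complex.sin_arg, abs_div, abs_of_pos hnpos]
  rw [h4, le_div_iff₀ hnpos] at h3
  nlinarith

/-- an analytic semigroup has no quasi-modes at arbitrarily high frequencies -/
theorem not_analytic (P : C0Semigroup E) (hP : P.IsAnalytic)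
    (h : ∀ δ : ℝ, 0 < δ → ∀ K₀ : ℝ, ∃ κ : ℝ, K₀ ≤ |κ| ∧ ∃ f g : E, P.IsGen f g ∧ f ≠ 0 ∧
      ‖g + (Complex.I * (κ : ℂ)) • f‖ ≤ δ * |κ| * ‖f‖) : False := by
  obtain ⟨θ, hθ0, hθ1, Q, hQd, hQ, M, hM⟩ := hP
  have hpi := Real.pi_pos
  have hs : 0 < Real.sin θ := Real.sin_pos_of_pos_of_lt_pi hθ0 (by linarith)
  have hs1 : Real.sin θ ≤ 1 := Real.sin_le_one θ
  set c : ℝ := Real.sin θ / 4 with hc
  have hc0 : 0 < c := by positivity
  have hc1 : c ≤ 1 / 4 := by rw [hc]; linarith
  have hnormx : ∀ x : ℝ, 0 < x → ∀ z : ℂ, ‖z - x‖ ≤ c * x → ‖z‖ ≤ (1 + c) * x := by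
    intro x hx z hz
    calc ‖z‖ = ‖(z - x) + x‖ := by rw [sub_add_cancel]
      _ ≤ ‖z - x‖ + ‖(x : ℂ)‖ := norm_add_le _ _
      _ ≤ c * x + x := by
        rw [Complex.norm_real, Real.norm_eq_abs, abs_of_pos hx]
        linarith
      _ = _ := by ring
  have hMx : ∀ x : ℝ, 0 < x → x ≤ 1 / 2 → ∀ z : ℂ, ‖z - x‖ ≤ c * x → ‖Q z‖ ≤ M := by
    intro x hx hx2 z hz
    refine hM z (ball_sub_sector θ hθ0 hθ1 x hx z hz) ?_
    refine (hnormx x hx z hz).trans ?_
    nlinarith
  have hTM : ∀ x : ℝ, 0 < x → x ≤ 1 / 2 → ‖P.T x‖ ≤ M := by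
    intro x hx hx2
    rw [← hQ x hx]
    exact hMx x hx hx2 _ (by simp; positivity)
  have hM0 : 0 ≤ M := (norm_nonneg _).trans (hTM (1/2) (by norm_num) le_rfl)
  have hT1 : ∀ x : ℝ, 0 ≤ x → x ≤ 1 / 2 → ∀ f : E, ‖P.T x f‖ ≤ max M 1 * ‖f‖ := by
    intro x hx hx2 f
    rcases hx.eq_or_lt with rfl | hx
    · rw [P.map_zero]
      simp only [one_apply_eq_self]
      exact le_mul_of_one_le_left (norm_nonneg _) (le_max_right _ _)
    · refine (P.T x).le_of_opNorm_le ((hTM x hx hx2).trans (le_max_left _ _)) f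
  -- differentiability at real points
  have hQat : ∀ x : ℝ, 0 < x → DifferentiableAt ℂ Q x := by
    intro x hx
    have hcx : 0 < c * x := by positivity
    have h1 : Metric.ball (x : ℂ) (c * x) ⊆ sector θ := by
      intro z hz
      rw [Metric.mem_ball, dist_eq_norm] at hz
      exact ball_sub_sector θ hθ0 hθ1 x hx z hz.le
    exact (hQd.mono h1).differentiableAt (Metric.ball_mem_nhds _ hcx)
  have hderiv : ∀ x : ℝ, 0 < x → x ≤ 1 / 2 → ‖deriv Q x‖ ≤ M / (c * x) := by
    intro x hx hx2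
    have hcx : 0 < c * x := by positivity
    refine Complex.norm_deriv_le_of_forall_mem_sphere_norm_le hcx ?_ ?_
    · have h1 : DifferentiableOn ℂ Q (Metric.closedBall (x : ℂ) (c * x)) := by
        refine hQd.mono ?_
        intro z hz
        rw [Metric.mem_closedBall, dist_eq_norm] at hz
        exact ball_sub_sector θ hθ0 hθ1 x hx z hz
      exact h1.diffContOnCl_ball subset_rfl
    · intro z hz
      rw [mem_sphere_iff_norm] at hz
      exact hMx x hx hx2 z hz.le
  have hmv : ∀ s t : ℝ, 0 < s → s ≤ t → t ≤ 1 / 2 → ∀ f : E,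
      ‖P.T t f - P.T s f‖ ≤ M / (c * s) * (t - s) * ‖f‖ := by
    intro s t hs hst ht f
    have h1 := norm_image_sub_le_of_norm_deriv_le_segment' (f := fun x : ℝ => Q x)
      (f' := fun x : ℝ => deriv Q x) (a := s) (b := t) (C := M / (c * s)) (fun x hx => by
        have hx0 : 0 < x := lt_of_lt_of_le hs hx.1
        have h2 : HasDerivAt (fun y : ℝ => (y : ℂ)) 1 x := by
          simpa using (hasDerivAt_id x).ofReal_comp
        have := HasDerivAt.scomp x (hQat x hx0).hasDerivAt h2
        rw [one_smul] at this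
        exact this.hasDerivWithinAt) (fun x hx => by
        have hx0 : 0 < x := lt_of_lt_of_le hs hx.1
        refine (hderiv x hx0 (hx.2.le.trans ht)).trans ?_
        have := hx.1
        gcongr) t ⟨hst, le_rfl⟩
    rw [hQ t (lt_of_lt_of_le hs hst), hQ s hs] at h1
    have h2 := (P.T t - P.T s).le_of_opNorm_le h1 f
    simpa using h2
  set M1 : ℝ := max M 1 with hM1
  have hM1pos : 0 < M1 := lt_of_lt_of_le one_pos (le_max_right _ _)
  obtain ⟨N, hN⟩ := exists_nat_ge (max (M / c) 1)
  have hN1 : (1:ℝ) ≤ N := (le_max_right _ _).trans hN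
  have hNM : M / c ≤ N := (le_max_left _ _).trans hN
  obtain ⟨κ, hκ, f, g, hfg, hf0, hfgn⟩ := h (1 / (4 * Real.pi * (N + 1) * M1)) (by positivity)
    (2 * (N + 1) * Real.pi + 1)
  have hκpos : 0 < |κ| := lt_of_lt_of_le (by positivity) hκ
  have hκne : κ ≠ 0 := abs_pos.mp hκpos
  set δ : ℝ := 1 / (4 * Real.pi * (N + 1) * M1) with hδ
  have hδpos : 0 < δ := by positivity
  -- the function F
  have hexp : ∀ t : ℝ, ‖Complex.exp (Complex.I * κ * t)‖ = 1 := by
    intro t
    rw [Complex.norm_exp]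
    have : (Complex.I * κ * t).re = 0 := by simp
    rw [this, Real.exp_zero]
  have hF : ∀ t : ℝ, 0 ≤ t → t ≤ 1 / 2 →
      ‖Complex.exp (Complex.I * κ * t) • P.T t f - f‖ ≤ M1 * (δ * |κ| * ‖f‖) * t := by
    intro t ht ht2
    have hc1 : Continuous (fun t : ℝ => Complex.exp (Complex.I * κ * t)) := by fun_prop
    have h1 := norm_image_sub_le_of_norm_deriv_right_le_segment
      (f := fun t : ℝ => Complex.exp (Complex.I * κ * t) • P.T t f)
      (f' := fun t : ℝ => Complex.exp (Complex.I * κ * t) • P.T t (g + (Complex.I * κ) • f))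
      (a := 0) (b := 1 / 2) (C := M1 * (δ * |κ| * ‖f‖)) (by
        refine ContinuousOn.smul hc1.continuousOn ?_
        exact (P.continuousOn f).mono (fun x hx => hx.1)) (fun x hx => by
        have h2 := P.hasDerivWithinAt hfg x hx.1
        have h3 : HasDerivAt (fun t : ℝ => Complex.exp (Complex.I * κ * t))
            (Complex.exp (Complex.I * κ * x) * (Complex.I * κ)) x := by
          have h4 : HasDerivAt (fun z : ℂ => Complex.exp (Complex.I * κ * z))
              (Complex.exp (Complex.I * κ * x) * (Complex.I * κ)) (x : ℂ) := by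
            have h5 : HasDerivAt (fun z : ℂ => Complex.I * κ * z) (Complex.I * κ) (x : ℂ) := by
              simpa using (hasDerivAt_id (x : ℂ)).const_mul (Complex.I * κ)
            exact h5.cexp
          exact h4.comp_ofReal
        have h6 := h3.hasDerivWithinAt (s := Set.Ici x) |>.smul h2
        refine h6.congr_deriv ?_
        rw [map_add, map_smul, smul_add, smul_smul]) (fun x hx => by
        rw [norm_smul, hexp, one_mul]
        refine (hT1 x hx.1 hx.2.le _).trans ?_
        gcongr) t ⟨ht, ht2⟩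
    have h0 : Complex.exp (Complex.I * κ * (0:ℝ)) • P.T 0 f = f := by
      rw [P.map_zero]; simp
    rw [sub_zero] at h1
    rw [h0] at h1
    exact h1
  -- the two times
  set s : ℝ := N * Real.pi / |κ| with hsdef
  set t : ℝ := (N + 1) * Real.pi / |κ| with htdef
  have hs0 : 0 < s := by positivity
  have hst : t - s = Real.pi / |κ| := by rw [hsdef, htdef]; ring
  have hst' : s ≤ t := by
    have : 0 < Real.pi / |κ| := by positivity
    linarith
  have ht2 : t ≤ 1 / 2 := by
    rw [htdef, div_le_iff₀ hκpos]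
    linarith
  have ht0 : 0 < t := by linarith
  have hst2 : Complex.exp (Complex.I * κ * t) = - Complex.exp (Complex.I * κ * s) := by
    have h1 : t = s + Real.pi / |κ| := by linarith
    rw [h1]
    have h2 : Complex.exp (Complex.I * κ * ((Real.pi / |κ| : ℝ) : ℂ)) = -1 := by
      rcases abs_choice κ with h3 | h3
      · rw [h3]
        have : Complex.I * κ * ((Real.pi / κ : ℝ) : ℂ) = Real.pi * Complex.I := by
          have : (κ : ℂ) ≠ 0 := by exact_mod_cast hκne
          push_cast
          field_simp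
        rw [this, Complex.exp_pi_mul_I]
      · rw [h3]
        have : Complex.I * κ * ((Real.pi / -κ : ℝ) : ℂ) = -(Real.pi * Complex.I) := by
          have : (κ : ℂ) ≠ 0 := by exact_mod_cast hκne
          push_cast
          field_simp
        rw [this, Complex.exp_neg, Complex.exp_pi_mul_I]
        norm_num
    have h4 : Complex.I * κ * ((s + Real.pi / |κ| : ℝ) : ℂ)
        = Complex.I * κ * s + Complex.I * κ * ((Real.pi / |κ| : ℝ) : ℂ) := by push_cast; ring
    rw [h4, Complex.exp_add, h2, mul_neg_one]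
  have hup := hmv s t hs0 hst' ht2 f
  have hFt := hF t ht0.le ht2
  have hFs := hF s hs0.le (hst'.trans ht2)
  have hlow : ‖P.T t f - P.T s f‖ = ‖Complex.exp (Complex.I * κ * t) • P.T t f
      + Complex.exp (Complex.I * κ * s) • P.T s f‖ := by
    have h1 : Complex.exp (Complex.I * κ * t) • P.T t f
      + Complex.exp (Complex.I * κ * s) • P.T s f
      = Complex.exp (Complex.I * κ * t) • (P.T t f - P.T s f) := by
      rw [smul_sub, sub_eq_add_neg, ← neg_smul, hst2, neg_neg]
    rw [h1, norm_smul, hexp, one_mul]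
  have htri : 2 * ‖f‖ ≤ ‖P.T t f - P.T s f‖ + ‖Complex.exp (Complex.I * κ * t) • P.T t f - f‖
      + ‖Complex.exp (Complex.I * κ * s) • P.T s f - f‖ := by
    rw [hlow]
    set A := Complex.exp (Complex.I * κ * t) • P.T t f
    set B := Complex.exp (Complex.I * κ * s) • P.T s f
    have h1 : (2 : ℂ) • f = (A + B) - (A - f) - (B - f) := by
      rw [two_smul]; abel
    calc 2 * ‖f‖ = ‖(2 : ℂ) • f‖ := by rw [norm_smul]; simp
      _ = ‖(A + B) - (A - f) - (B - f)‖ := by rw [h1]
      _ ≤ ‖(A + B) - (A - f)‖ + ‖B - f‖ := norm_sub_le _ _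
      _ ≤ ‖A + B‖ + ‖A - f‖ + ‖B - f‖ := by
        gcongr
        exact norm_sub_le _ _
  have hfpos : 0 < ‖f‖ := norm_pos_iff.mpr hf0
  have e1 : M1 * (δ * |κ| * ‖f‖) * t = ‖f‖ / 4 := by
    rw [hδ, htdef]
    field_simp
  have e2 : M1 * (δ * |κ| * ‖f‖) * s ≤ ‖f‖ / 4 := by
    rw [← e1]
    gcongr
  have e3 : M / (c * s) * (t - s) * ‖f‖ ≤ ‖f‖ := by
    have : M / (c * s) * (t - s) = (M / c) / N := by
      rw [hst, hsdef]
      field_simp
    rw [this]
    have h1 : (M / c) / N ≤ 1 := by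
      rw [div_le_one (by linarith)]
      exact hNM
    nlinarith
  linarith

end target

end GQ

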