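import Mathlib
import Pool.Agent.GQ.Defs
import Pool.Agent.GQ.Ladder
import Pool.Agent.GQ.LinAlg

open Filter Topology
open scoped ENNReal ComplexConjugate InnerProductSpace

namespace GQ

/-! ### TARGETS -/

namespace Param

variable {d : ℕ} (p : Param d)


theorem inner_Ls (l : Fin (2 * d)) (x y : FinVec d) :
    ⟪emb d (p.L l x), emb d y⟫_ℂ = ⟪emb d x, emb d (p.Ls l y)⟫_ℂ := by
  simp only [L_old, Ls_old, LinearMap.sum_apply, LinearMap.add_apply, LinearMap.smul_apply, map_sum,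
    map_add, map_smul, sum_inner, inner_sum, inner_add_left, inner_add_right, inner_smul_left,
    inner_smul_right, inner_ann, inner_cre, Complex.conj_conj]

theorem inner_H (x y : FinVec d) :
    ⟪emb d (p.H x), emb d y⟫_ℂ = ⟪emb d x, emb d (p.H y)⟫_ℂ := by
  have hΩ : ∀ j k, conj (p.Ω j k) = p.Ω k j := fun j k => p.Ω_herm.apply k j
  have hκ : ∀ j k, p.κ j k = p.κ k j := fun j k => by
    conv_lhs => rw [← p.κ_symm]
    rfl
  simp only [H_old, LinearMap.add_apply, LinearMap.sum_apply, LinearMap.smul_apply,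
    Module.End.mul_apply, map_add, map_sum, map_smul, sum_inner, inner_sum, inner_add_left,
    inner_add_right, inner_smul_left, inner_smul_right, inner_ann, inner_cre, map_div₀,
    Complex.conj_conj, hΩ, Complex.conj_ofNat]
  congr 1
  · rw [Finset.sum_comm]
    refine Finset.sum_congr rfl fun j _ => Finset.sum_congr rfl fun k _ => ?_
    rw [hκ k j]
    ring
  · refine Finset.sum_congr rfl fun j _ => ?_
    ring

/-- `⟨x, H x⟩` is real -/
theorem im_inner_H (x : FinVec d) : (⟪emb d x, emb d (p.H x)⟫_ℂ).im = 0 := by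
  have h := inner_conj_symm (𝕜 := ℂ) (emb d x) (emb d (p.H x))
  rw [p.inner_H] at h
  exact Complex.conj_eq_iff_im.mp h

theorem inner_G₀_eq (x : FinVec d) : ⟪emb d x, emb d (p.G₀ x)⟫_ℂ =
    -Complex.I * ⟪emb d x, emb d (p.H x)⟫_ℂ - (1 / 2 : ℂ) * ((∑ l, ‖emb d (p.L l x)‖ ^ 2 : ℝ) : ℂ) := by
  have h1 : ∀ l, ⟪emb d x, emb d (p.Ls l (p.L l x))⟫_ℂ = ((‖emb d (p.L l x)‖ ^ 2 : ℝ) : ℂ) := by
    intro l
    rw [← p.inner_Ls, inner_self_eq_norm_sq_to_K]
    push_cast
    rfl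
  simp only [G₀_old, LinearMap.sub_apply, LinearMap.sum_apply, LinearMap.smul_apply,
    Module.End.mul_apply, map_sub, map_sum, map_smul, inner_sum, inner_sub_right,
    inner_smul_right, h1]
  push_cast
  ring

/-- the real part of the form -/
theorem re_inner_G₀ (x : FinVec d) :
    (⟪emb d x, emb d (p.G₀ x)⟫_ℂ).re = -(1 / 2) * ∑ l, ‖emb d (p.L l x)‖ ^ 2 := by
  rw [inner_G₀_eq]
  have h := p.im_inner_H x
  have h2 : ((1 / 2 : ℂ) * ((∑ l, ‖emb d (p.L l x)‖ ^ 2 : ℝ) : ℂ)) =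
      ((1 / 2 * ∑ l, ‖emb d (p.L l x)‖ ^ 2 : ℝ) : ℂ) := by
    push_cast; ring
  rw [h2, Complex.sub_re, Complex.ofReal_re, Complex.mul_re, Complex.neg_re, Complex.neg_im,
    Complex.I_re, Complex.I_im, h]
  ring

theorem im_inner_G₀ (x : FinVec d) :
    (⟪emb d x, emb d (p.G₀ x)⟫_ℂ).im = -(⟪emb d x, emb d (p.H x)⟫_ℂ).re := by
  rw [inner_G₀_eq]
  have h2 : ((1 / 2 : ℂ) * ((∑ l, ‖emb d (p.L l x)‖ ^ 2 : ℝ) : ℂ)) =
      ((1 / 2 * ∑ l, ‖emb d (p.L l x)‖ ^ 2 : ℝ) : ℂ) := by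
    push_cast; ring
  rw [h2, Complex.sub_im, Complex.ofReal_im, Complex.mul_im, Complex.neg_re, Complex.neg_im,
    Complex.I_re, Complex.I_im]
  ring

/-- the ladder vectors -/
noncomputable def wv (x : FinVec d) : Fin d ⊕ Fin d → Fock d :=
  Sum.elim (fun k => emb d (ann k x)) (fun k => emb d (cre k x))

/-- the matrix of the quadratic part -/
noncomputable def MM : Matrix (Fin d ⊕ Fin d) (Fin d ⊕ Fin d) ℂ :=
  Matrix.fromBlocks p.Ω p.κ (p.κ.map conj) (p.Ω.map conj)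

/-- the matrix of the Kraus operators -/
noncomputable def LL : Matrix (Fin (2 * d) ⊕ Fin (2 * d)) (Fin d ⊕ Fin d) ℂ :=
  Matrix.fromBlocks (p.V.map conj) p.U (p.U.map conj) p.V

/-- the linear part -/
noncomputable def ff : Fin d ⊕ Fin d → ℂ :=
  Sum.elim (fun k => conj (p.ζ k) / 2) (fun k => p.ζ k / 2)

theorem MM_herm : p.MM.IsHermitian := by
  have hΩ : ∀ j k, conj (p.Ω j k) = p.Ω k j := fun j k => p.Ω_herm.apply k j
  have hκ : ∀ j k, p.κ j k = p.κ k j := fun j k => by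
    conv_lhs => rw [← p.κ_symm]
    rfl
  ext i j
  rcases i with i | i <;> rcases j with j | j
  · simp [MM, hΩ]
  · simp [MM, hκ i j]
  · simp [MM, hκ i j]
  · simp [MM, hΩ]

theorem row_inl (l : Fin (2 * d)) (x : FinVec d) :
    ∑ q, p.LL (Sum.inl l) q • wv x q = emb d (p.L l x) := by
  simp only [Fintype.sum_sum_type, LL, wv, Matrix.fromBlocks_apply₁₁, Matrix.fromBlocks_apply₁₂,
    Sum.elim_inl, Sum.elim_inr, Matrix.map_apply, L_old, LinearMap.sum_apply, LinearMap.add_apply,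
    LinearMap.smul_apply, map_sum, map_add, map_smul, Finset.sum_add_distrib]

theorem row_inr (l : Fin (2 * d)) (x : FinVec d) :
    ∑ q, p.LL (Sum.inr l) q • wv x q = emb d (p.Ls l x) := by
  simp only [Fintype.sum_sum_type, LL, wv, Matrix.fromBlocks_apply₂₁, Matrix.fromBlocks_apply₂₂,
    Sum.elim_inl, Sum.elim_inr, Matrix.map_apply, Ls_old, LinearMap.sum_apply, LinearMap.add_apply,
    LinearMap.smul_apply, map_sum, map_add, map_smul, Finset.sum_add_distrib]
  rw [add_comm]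

/-- the linear part of the Hamiltonian -/
noncomputable def linp : FinVec d →ₗ[ℂ] FinVec d :=
  ∑ j, ((p.ζ j / 2) • cre j + (conj (p.ζ j) / 2) • ann j)

/-- the quadratic part of the Hamiltonian -/
noncomputable def quadp : FinVec d →ₗ[ℂ] FinVec d :=
  ∑ j, ∑ k, (p.Ω j k • (cre j * ann k : Module.End ℂ (FinVec d)) +
    (p.κ j k / 2) • (cre j * cre k : Module.End ℂ (FinVec d)) +
    (conj (p.κ j k) / 2) • (ann j * ann k : Module.End ℂ (FinVec d)))

theorem lin_eq (x : FinVec d) : emb d (p.linp x) = ∑ q, p.ff q • wv x q := by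
  simp only [Fintype.sum_sum_type, ff, wv, Sum.elim_inl, Sum.elim_inr, linp,
    LinearMap.sum_apply, LinearMap.add_apply,
    LinearMap.smul_apply, map_sum, map_add, map_smul, Finset.sum_add_distrib]
  rw [add_comm]

theorem quad_eq (x : FinVec d) :
    ∑ q, ∑ r, p.MM q r * ⟪wv x q, wv x r⟫_ℂ =
      2 * ⟪emb d x, emb d (p.quadp x)⟫_ℂ + conj (p.Ω.trace) * ((‖emb d x‖ ^ 2 : ℝ) : ℂ) := by
  have hΩ : ∀ j k, conj (p.Ω j k) = p.Ω k j := fun j k => p.Ω_herm.apply k j
  have h1 : ∀ j k, ⟪emb d (cre j x), emb d (cre k x)⟫_ℂ = ⟪emb d x, emb d (cre k (ann j x))⟫_ℂ +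
      (if j = k then ((‖emb d x‖ ^ 2 : ℝ) : ℂ) else 0) := by
    intro j k
    rw [inner_cre, ccr, map_add, inner_add_right]
    congr 1
    split_ifs
    · rw [inner_self_eq_norm_sq_to_K]
      push_cast
      rfl
    · simp
  simp only [Fintype.sum_sum_type, MM, wv, Matrix.fromBlocks_apply₁₁, Matrix.fromBlocks_apply₁₂,
    Matrix.fromBlocks_apply₂₁, Matrix.fromBlocks_apply₂₂,
    Sum.elim_inl, Sum.elim_inr, Matrix.map_apply, quadp, LinearMap.sum_apply, LinearMap.add_apply,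
    LinearMap.smul_apply, Module.End.mul_apply, map_sum, map_add, map_smul,
    Finset.sum_add_distrib, inner_sum, inner_add_right, inner_smul_right, h1, mul_add,
    Finset.mul_sum, inner_ann]
  simp only [inner_cre]
  have e1 : ∑ a, ∑ b, conj (p.Ω a b) * ⟪emb d x, emb d (cre b (ann a x))⟫_ℂ =
      ∑ a, ∑ b, p.Ω a b * ⟪emb d x, emb d (cre a (ann b x))⟫_ℂ := by
    rw [Finset.sum_comm]
    simp only [hΩ]
  have e2 : ∑ a, ∑ b, conj (p.Ω a b) * (if a = b then ((‖emb d x‖ ^ 2 : ℝ) : ℂ) else 0) =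
      conj p.Ω.trace * ((‖emb d x‖ ^ 2 : ℝ) : ℂ) := by
    simp only [Matrix.trace, Matrix.diag, map_sum, Finset.sum_mul, mul_ite, mul_zero,
      Finset.sum_ite_eq, Finset.mem_univ, if_true]
  have e3 : ∀ f g : Fin d → Fin d → ℂ, ∑ a, ∑ b, 2 * (f a b / 2 * g a b) =
      ∑ a, ∑ b, f a b * g a b := by
    intro f g
    refine Finset.sum_congr rfl fun a _ => Finset.sum_congr rfl fun b _ => ?_
    ring
  have e4 : ∀ f : Fin d → Fin d → ℂ, ∑ a, ∑ b, 2 * f a b = 2 * ∑ a, ∑ b, f a b := by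
    intro f
    simp only [Finset.mul_sum]
  rw [e1, e2, e3 (fun a b => p.κ a b), e3 (fun a b => conj (p.κ a b)), e4]
  ring

theorem ker_cond (hp : p.Cond) (u : Fin d ⊕ Fin d → ℂ) (hu : p.LL.mulVec u = 0) :
    p.MM.mulVec u = 0 ∧ ∑ q, p.ff q * u q = 0 := by
  obtain ⟨a, ha⟩ : ∃ a : Fin d → ℂ, ∀ k, u (Sum.inl k) = a k := ⟨_, fun _ => rfl⟩
  obtain ⟨b, hb⟩ : ∃ b : Fin d → ℂ, ∀ k, u (Sum.inr k) = b k := ⟨_, fun _ => rfl⟩
  have h1 : ∀ l, ∑ k, (conj (p.V l k) * a k + p.U l k * b k) = 0 := by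
    intro l
    have := congrFun hu (Sum.inl l)
    simpa [LL, Matrix.mulVec, dotProduct, Fintype.sum_sum_type, Finset.sum_add_distrib, ha, hb]
      using this
  have h2 : ∀ l, ∑ k, (p.U l k * conj (a k) + conj (p.V l k) * conj (b k)) = 0 := by
    intro l
    have := congrFun hu (Sum.inr l)
    have h3 : ∑ k, (conj (p.U l k) * a k + p.V l k * b k) = 0 := by
      simpa [LL, Matrix.mulVec, dotProduct, Fintype.sum_sum_type, Finset.sum_add_distrib, ha, hb]
        using this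
    have h4 := congrArg conj h3
    simpa [map_sum, map_add, map_mul] using h4
  have hz := hp (fun k => a k + conj (b k)) (by
    intro l
    have : ∑ k, (conj (p.V l k) * (a k + conj (b k)) + p.U l k * conj (a k + conj (b k))) =
        ∑ k, (conj (p.V l k) * a k + p.U l k * b k) +
          ∑ k, (p.U l k * conj (a k) + conj (p.V l k) * conj (b k)) := by
      rw [← Finset.sum_add_distrib]
      refine Finset.sum_congr rfl fun k _ => ?_
      simp only [map_add, Complex.conj_conj]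
      ring
    rw [this, h1, h2, add_zero])
  have hz' := hp (fun k => Complex.I * (a k - conj (b k))) (by
    intro l
    have : ∑ k, (conj (p.V l k) * (Complex.I * (a k - conj (b k))) +
          p.U l k * conj (Complex.I * (a k - conj (b k)))) =
        Complex.I * ∑ k, (conj (p.V l k) * a k + p.U l k * b k) -
          Complex.I * ∑ k, (p.U l k * conj (a k) + conj (p.V l k) * conj (b k)) := by
      rw [Finset.mul_sum, Finset.mul_sum, ← Finset.sum_sub_distrib]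
      refine Finset.sum_congr rfl fun k _ => ?_
      simp only [map_sub, map_mul, Complex.conj_conj, Complex.conj_I]
      ring
    rw [this, h1, h2, mul_zero, sub_zero])
  refine ⟨?_, ?_⟩
  · funext q
    rcases q with j | j
    · have e1 : ∑ k, (p.Ω j k * a k + p.κ j k * b k) =
          1 / 2 * ∑ k, (p.Ω j k * (a k + conj (b k)) + p.κ j k * conj (a k + conj (b k))) -
          Complex.I / 2 * ∑ k, (p.Ω j k * (Complex.I * (a k - conj (b k))) +
            p.κ j k * conj (Complex.I * (a k - conj (b k)))) := by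
        rw [Finset.mul_sum, Finset.mul_sum, ← Finset.sum_sub_distrib]
        refine Finset.sum_congr rfl fun k _ => ?_
        simp only [map_add, map_sub, map_mul, Complex.conj_conj, Complex.conj_I]
        linear_combination ((p.Ω j k * (a k - conj (b k)) - p.κ j k * (conj (a k) - b k)) / 2) *
          Complex.I_mul_I
      have e2 : ∑ k, (p.Ω j k * a k + p.κ j k * b k) = 0 := by
        rw [e1, hz.1 j, hz'.1 j]; simp
      simpa [MM, Matrix.mulVec, dotProduct, Fintype.sum_sum_type, Finset.sum_add_distrib, ha, hb]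
        using e2
    · have e1 : ∑ k, (p.κ j k * conj (a k) + p.Ω j k * conj (b k)) =
          1 / 2 * ∑ k, (p.Ω j k * (a k + conj (b k)) + p.κ j k * conj (a k + conj (b k))) +
          Complex.I / 2 * ∑ k, (p.Ω j k * (Complex.I * (a k - conj (b k))) +
            p.κ j k * conj (Complex.I * (a k - conj (b k)))) := by
        rw [Finset.mul_sum, Finset.mul_sum, ← Finset.sum_add_distrib]
        refine Finset.sum_congr rfl fun k _ => ?_
        simp only [map_add, map_sub, map_mul, Complex.conj_conj, Complex.conj_I]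
        linear_combination (-(p.Ω j k * (a k - conj (b k)) - p.κ j k * (conj (a k) - b k)) / 2) *
          Complex.I_mul_I
      have e2 : ∑ k, (p.κ j k * conj (a k) + p.Ω j k * conj (b k)) = 0 := by
        rw [e1, hz.1 j, hz'.1 j]; simp
      have e3 := congrArg conj e2
      simpa [MM, Matrix.mulVec, dotProduct, Fintype.sum_sum_type, Finset.sum_add_distrib, ha, hb]
        using e3
  · have hA := hz.2
    have hB := hz'.2
    obtain ⟨A, hAe⟩ : ∃ A : ℂ, A = ∑ k, conj (p.ζ k) * a k := ⟨_, rfl⟩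
    obtain ⟨B, hBe⟩ : ∃ B : ℂ, B = ∑ k, p.ζ k * b k := ⟨_, rfl⟩
    have e1 : ∑ k, conj (p.ζ k) * (a k + conj (b k)) = A + conj B := by
      rw [hAe, hBe, map_sum, ← Finset.sum_add_distrib]
      refine Finset.sum_congr rfl fun k _ => ?_
      rw [map_mul]; ring
    have e2 : ∑ k, conj (p.ζ k) * (Complex.I * (a k - conj (b k))) = Complex.I * (A - conj B) := by
      rw [hAe, hBe, map_sum, ← Finset.sum_sub_distrib, Finset.mul_sum]
      refine Finset.sum_congr rfl fun k _ => ?_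
      rw [map_mul]; ring
    rw [e1] at hA
    rw [e2] at hB
    simp only [Complex.add_re, Complex.conj_re, Complex.mul_re, Complex.I_re, Complex.I_im,
      Complex.sub_im, Complex.conj_im, zero_mul, one_mul] at hA hB
    have e3 : A + B = 0 := by
      apply Complex.ext
      · rw [Complex.add_re, Complex.zero_re]; exact hA
      · rw [Complex.add_im, Complex.zero_im]; linarith
    have e4 : ∑ q, p.ff q * u q = (A + B) / 2 := by
      rw [Fintype.sum_sum_type, hAe, hBe, add_div, Finset.sum_div, Finset.sum_div]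
      congr 1
      · refine Finset.sum_congr rfl fun k _ => ?_
        simp only [ff, Sum.elim_inl, ha]; ring
      · refine Finset.sum_congr rfl fun k _ => ?_
        simp only [ff, Sum.elim_inr, hb]; ring
    rw [e4, e3, zero_div]

theorem comm_L (l : Fin (2 * d)) (x : FinVec d) :
    p.L l (p.Ls l x) = p.Ls l (p.L l x) +
      ((∑ k, (‖p.V l k‖ ^ 2 - ‖p.U l k‖ ^ 2) : ℝ) : ℂ) • x := by
  have hL : p.L l (p.Ls l x) = ∑ j, ∑ k, ((conj (p.V l j) * p.V l k) • ann j (cre k x) +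
      (conj (p.V l j) * conj (p.U l k)) • ann j (ann k x) +
      (p.U l j * p.V l k) • cre j (cre k x) +
      (p.U l j * conj (p.U l k)) • cre j (ann k x)) := by
    rw [Finset.sum_comm]
    simp only [L_old, Ls_old, LinearMap.sum_apply, LinearMap.add_apply, LinearMap.smul_apply, map_sum,
      map_add, map_smul]
    refine Finset.sum_congr rfl fun k _ => ?_
    rw [Finset.smul_sum, Finset.smul_sum, ← Finset.sum_add_distrib]
    refine Finset.sum_congr rfl fun j _ => ?_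
    simp only [smul_add, smul_smul]
    rw [mul_comm (p.V l k), mul_comm (p.V l k), mul_comm (conj (p.U l k)),
      mul_comm (conj (p.U l k))]
    abel
  have hR : p.Ls l (p.L l x) = ∑ j, ∑ k, ((conj (p.V l j) * p.V l k) • cre k (ann j x) +
      (conj (p.V l j) * conj (p.U l k)) • ann j (ann k x) +
      (p.U l j * p.V l k) • cre j (cre k x) +
      (p.U l j * conj (p.U l k)) • ann k (cre j x)) := by
    simp only [L_old, Ls_old, LinearMap.sum_apply, LinearMap.add_apply, LinearMap.smul_apply, map_sum,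
      map_add, map_smul]
    refine Finset.sum_congr rfl fun j _ => ?_
    rw [Finset.smul_sum, Finset.smul_sum, ← Finset.sum_add_distrib]
    refine Finset.sum_congr rfl fun k _ => ?_
    simp only [smul_add, smul_smul]
    rw [ann_comm k j, cre_comm k j]
    abel
  have hd : ∑ j, ∑ k, ((conj (p.V l j) * p.V l k) • (if j = k then x else 0) -
      (p.U l j * conj (p.U l k)) • (if k = j then x else 0)) =
      ((∑ k, (‖p.V l k‖ ^ 2 - ‖p.U l k‖ ^ 2) : ℝ) : ℂ) • x := by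
    simp only [smul_ite, smul_zero, Finset.sum_sub_distrib, Finset.sum_ite_eq, Finset.sum_ite_eq',
      Finset.mem_univ, if_true]
    push_cast
    simp only [← Finset.sum_sub_distrib, ← sub_smul, ← Finset.sum_smul]
    congr 1
    refine Finset.sum_congr rfl fun k _ => ?_
    rw [Complex.conj_mul', Complex.mul_conj']
  rw [← hd, hL, hR, ← Finset.sum_add_distrib]
  refine Finset.sum_congr rfl fun j _ => ?_
  rw [← Finset.sum_add_distrib]
  refine Finset.sum_congr rfl fun k _ => ?_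
  rw [ccr j k, ccr k j, smul_add, smul_add]
  abel

theorem norm_Ls (l : Fin (2 * d)) (x : FinVec d) : ‖emb d (p.Ls l x)‖ ^ 2 =
    ‖emb d (p.L l x)‖ ^ 2 + (∑ k, (‖p.V l k‖ ^ 2 - ‖p.U l k‖ ^ 2)) * ‖emb d x‖ ^ 2 := by
  have h1 : ∀ y z, ⟪emb d (p.Ls l y), emb d z⟫_ℂ = ⟪emb d y, emb d (p.L l z)⟫_ℂ := by
    intro y z
    rw [← inner_conj_symm, ← p.inner_Ls, inner_conj_symm]
  have h2 : ⟪emb d (p.Ls l x), emb d (p.Ls l x)⟫_ℂ = ⟪emb d (p.L l x), emb d (p.L l x)⟫_ℂ +
      ((∑ k, (‖p.V l k‖ ^ 2 - ‖p.U l k‖ ^ 2) : ℝ) : ℂ) * ⟪emb d x, emb d x⟫_ℂ := by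
    rw [h1, comm_L, map_add, map_smul, inner_add_right, inner_smul_right, p.inner_Ls]
  rw [inner_self_eq_norm_sq_to_K, inner_self_eq_norm_sq_to_K, inner_self_eq_norm_sq_to_K] at h2
  apply Complex.ofReal_injective
  push_cast
  push_cast at h2
  exact h2

theorem H_eq (x : FinVec d) : p.H x = p.quadp x + p.linp x := by rw [H_old]; rfl

theorem aux_final (C1 S T R X Y N Q W : ℝ) (hC1 : 0 ≤ C1) (hS0 : 0 ≤ S) (hT0 : 0 ≤ T)
    (n1 : 0 ≤ X) (n2 : 0 ≤ Y) (n3 : 0 ≤ N) (a1 : R ≤ 2 * Y + T * X) (a2 : W ≤ S * (X + R))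
    (a3 : Q ≤ C1 * R + N * X) : Q + W ≤ ((C1 + S) * (2 + T) + N + S) * (X + Y) := by
  have b1 : (C1 + S) * R ≤ (C1 + S) * (2 * Y + T * X) :=
    mul_le_mul_of_nonneg_left a1 (by positivity)
  have b2 : (C1 + S) * (2 * Y + T * X) ≤ (C1 + S) * ((2 + T) * (X + Y)) := by
    refine mul_le_mul_of_nonneg_left ?_ (by positivity)
    nlinarith [mul_nonneg hT0 n2]
  nlinarith [mul_nonneg n3 n2, mul_nonneg hS0 n2]

theorem H_bound (hp : p.Cond) : ∃ C : ℝ, 0 ≤ C ∧ ∀ x : FinVec d,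
    ‖⟪emb d x, emb d (p.H x)⟫_ℂ‖ ≤ C * (‖emb d x‖ ^ 2 + ∑ l, ‖emb d (p.L l x)‖ ^ 2) := by
  obtain ⟨C1, hC1, hq⟩ := quad_bound p.MM p.MM_herm p.LL (fun u hu => (p.ker_cond hp u hu).1)
  obtain ⟨c, hc⟩ := lin_span p.ff p.LL (fun u hu => (p.ker_cond hp u hu).2)
  obtain ⟨T, hT⟩ : ∃ T : ℝ, T = ∑ l, |∑ k, (‖p.V l k‖ ^ 2 - ‖p.U l k‖ ^ 2)| := ⟨_, rfl⟩
  have hT0 : 0 ≤ T := by rw [hT]; positivity
  obtain ⟨S, hS⟩ : ∃ S : ℝ, S = ∑ r, ‖c r‖ := ⟨_, rfl⟩
  have hS0 : 0 ≤ S := by rw [hS]; positivity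
  -- rows
  have hrow : ∀ x : FinVec d, ∑ r, ‖∑ q, p.LL r q • wv x q‖ ^ 2 ≤
      2 * ∑ l, ‖emb d (p.L l x)‖ ^ 2 + T * ‖emb d x‖ ^ 2 := by
    intro x
    rw [Fintype.sum_sum_type]
    simp only [row_inl, row_inr, norm_Ls, Finset.sum_add_distrib, ← Finset.sum_mul]
    have : (∑ l, ∑ k, (‖p.V l k‖ ^ 2 - ‖p.U l k‖ ^ 2)) * ‖emb d x‖ ^ 2 ≤ T * ‖emb d x‖ ^ 2 := by
      refine mul_le_mul_of_nonneg_right ?_ (sq_nonneg _)
      rw [hT]
      exact Finset.sum_le_sum fun l _ => le_abs_self _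
    linarith
  have hlin : ∀ x : FinVec d, ‖⟪emb d x, emb d (p.linp x)⟫_ℂ‖ ≤
      S * (‖emb d x‖ ^ 2 + ∑ r, ‖∑ q, p.LL r q • wv x q‖ ^ 2) := by
    intro x
    have h1 : emb d (p.linp x) = ∑ r, c r • ∑ q, p.LL r q • wv x q := by
      rw [lin_eq]
      simp only [hc, Finset.sum_smul, Finset.smul_sum, smul_smul]
      rw [Finset.sum_comm]
    rw [h1, inner_sum, hS, Finset.sum_mul]
    refine (norm_sum_le _ _).trans (Finset.sum_le_sum fun r _ => ?_)
    rw [inner_smul_right, norm_mul]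
    refine mul_le_mul_of_nonneg_left ?_ (norm_nonneg _)
    refine (norm_inner_le_norm _ _).trans ?_
    have h2 : ‖∑ q, p.LL r q • wv x q‖ ^ 2 ≤ ∑ r, ‖∑ q, p.LL r q • wv x q‖ ^ 2 :=
      Finset.single_le_sum (f := fun r => ‖∑ q, p.LL r q • wv x q‖ ^ 2)
        (fun _ _ => sq_nonneg _) (Finset.mem_univ r)
    nlinarith [sq_nonneg (‖emb d x‖ - ‖∑ q, p.LL r q • wv x q‖), sq_nonneg ‖emb d x‖,
      sq_nonneg ‖∑ q, p.LL r q • wv x q‖]
  have hquad : ∀ x : FinVec d, ‖⟪emb d x, emb d (p.quadp x)⟫_ℂ‖ ≤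
      C1 * ∑ r, ‖∑ q, p.LL r q • wv x q‖ ^ 2 + ‖p.Ω.trace‖ * ‖emb d x‖ ^ 2 := by
    intro x
    have h1 := hq (Fock d) (wv x)
    have h2 : 2 * ⟪emb d x, emb d (p.quadp x)⟫_ℂ =
        ∑ q, ∑ r, p.MM q r * ⟪wv x q, wv x r⟫_ℂ -
          conj (p.Ω.trace) * ((‖emb d x‖ ^ 2 : ℝ) : ℂ) := by
      rw [quad_eq]; ring
    have h3 : ‖(2 : ℂ) * ⟪emb d x, emb d (p.quadp x)⟫_ℂ‖ ≤
        C1 * ∑ r, ‖∑ q, p.LL r q • wv x q‖ ^ 2 + ‖p.Ω.trace‖ * ‖emb d x‖ ^ 2 := by
      rw [h2]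
      refine (norm_sub_le _ _).trans (add_le_add h1 (le_of_eq ?_))
      rw [norm_mul, RCLike.norm_conj, Complex.norm_real, Real.norm_of_nonneg (sq_nonneg _)]
    rw [norm_mul, Complex.norm_ofNat] at h3
    linarith [norm_nonneg (⟪emb d x, emb d (p.quadp x)⟫_ℂ)]
  refine ⟨(C1 + S) * (2 + T) + ‖p.Ω.trace‖ + S, by positivity, fun x => ?_⟩
  rw [H_eq, map_add, inner_add_right]
  refine (norm_add_le _ _).trans ?_
  exact aux_final C1 S T _ _ _ _ _ _ hC1 hS0 hT0 (sq_nonneg _)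
    (Finset.sum_nonneg fun _ _ => sq_nonneg _) (norm_nonneg _) (hrow x) (hlin x) (hquad x)

/-- sectoriality of the form under the condition -/
theorem sectorial (hp : p.Cond) : ∃ C ω : ℝ, 0 ≤ C ∧ 0 ≤ ω ∧ ∀ x : FinVec d,
    |(⟪emb d x, emb d (p.G₀ x)⟫_ℂ).im| ≤
      C * (ω * ‖emb d x‖ ^ 2 - (⟪emb d x, emb d (p.G₀ x)⟫_ℂ).re) := by
  obtain ⟨C, hC, hb⟩ := p.H_bound hp
  refine ⟨2 * C, 1 / 2, by positivity, by norm_num, fun x => ?_⟩
  rw [im_inner_G₀, re_inner_G₀, abs_neg]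
  refine (Complex.abs_re_le_norm _).trans ((hb x).trans (le_of_eq ?_))
  ring

end Param

end GQ
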