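import Mathlib
import Pool.Agent.GQ.Defs
import Pool.Agent.GQ.Semi

open Filter Topology
open scoped ENNReal ComplexConjugate InnerProductSpace

namespace GQ

/-! ### TARGET -/
section target

variable {E : Type} [NormedAddCommGroup E] [InnerProductSpace ℂ E] [CompleteSpace E]

theorem se_nsq {f : ℝ → E} {f' : E} {s : Set ℝ} {t : ℝ} (h : HasDerivWithinAt f f' s t) :
    HasDerivWithinAt (fun s => ‖f s‖ ^ 2) (2 * (⟪f t, f'⟫_ℂ).re) s t := by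
  have h2 := h.inner ℂ h
  have h3 := Complex.reCLM.hasFDerivAt.comp_hasDerivWithinAt t h2
  have e1 : (fun s => ‖f s‖ ^ 2) = (Complex.reCLM ∘ fun t => ⟪f t, f t⟫_ℂ) := by
    funext s
    simp only [Function.comp_apply, Complex.reCLM_apply]
    exact (inner_self_eq_norm_sq (𝕜 := ℂ) (f s)).symm
  have e2 : Complex.reCLM (⟪f t, f'⟫_ℂ + ⟪f', f t⟫_ℂ) = 2 * (⟪f t, f'⟫_ℂ).re := by
    rw [Complex.reCLM_apply, Complex.add_re]
    have := inner_re_symm (𝕜 := ℂ) f' (f t)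
    have h4 : (⟪f', f t⟫_ℂ).re = (⟪f t, f'⟫_ℂ).re := this
    rw [h4]; ring
  rw [e1, ← e2]
  exact h3

theorem se_anti {φ φ' : ℝ → ℝ} (hc : ContinuousOn φ (Set.Ici 0))
    (hd : ∀ t, 0 ≤ t → HasDerivWithinAt φ (φ' t) (Set.Ici t) t) (hn : ∀ t, 0 ≤ t → φ' t ≤ 0)
    {t : ℝ} (ht : 0 ≤ t) : φ t ≤ φ 0 := by
  have h1 := image_le_of_deriv_right_le_deriv_boundary (f := φ) (f' := φ') (a := 0) (b := t)
    (hc.mono Set.Icc_subset_Ici_self) (fun x hx => hd x hx.1) (B := fun _ => φ 0)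
    (B' := fun _ => 0) le_rfl continuousOn_const (fun x _ => hasDerivWithinAt_const _ _ _)
    (fun x hx => hn x hx.1)
  exact h1 ⟨ht, le_rfl⟩

theorem se_gen_smul (P : C0Semigroup E) {f g : E} (h : P.IsGen f g) (c : ℂ) :
    P.IsGen (c • f) (c • g) := by
  unfold C0Semigroup.IsGen at *
  refine (h.const_smul c).congr (fun t => ?_)
  rw [map_smul, ← smul_sub, smul_comm]

theorem se_gen_add (P : C0Semigroup E) {f g f' g' : E} (h : P.IsGen f g) (h' : P.IsGen f' g') :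
    P.IsGen (f + f') (g + g') := by
  unfold C0Semigroup.IsGen at *
  refine (h.add h').congr (fun t => ?_)
  rw [map_add, ← smul_add]
  congr 1
  abel

/-- shifted generator -/
def SA (P : C0Semigroup E) (ω : ℝ) (f g : E) : Prop := P.IsGen f (g + (ω : ℂ) • f)

theorem SA_smul {P : C0Semigroup E} {ω : ℝ} {f g : E} (h : SA P ω f g) (c : ℂ) :
    SA P ω (c • f) (c • g) := by
  unfold SA at *
  have h1 := se_gen_smul P h c
  rw [smul_add, smul_comm] at h1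
  exact h1

theorem SA_add {P : C0Semigroup E} {ω : ℝ} {f g f' g' : E} (h : SA P ω f g) (h' : SA P ω f' g') :
    SA P ω (f + f') (g + g') := by
  unfold SA at *
  have h1 := se_gen_add P h h'
  have e : g + (ω : ℂ) • f + (g' + (ω : ℂ) • f') = g + g' + (ω : ℂ) • (f + f') := by
    rw [smul_add]; abel
  rw [e] at h1
  exact h1

/-- quadratic form bounds give the polarised bound -/
theorem se_polar {P : C0Semigroup E} {ω C : ℝ} (hC : 0 ≤ C)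
    (hq : ∀ f g, SA P ω f g → ‖⟪f, g⟫_ℂ‖ ≤ (1 + C) * (-(⟪f, g⟫_ℂ).re)) {a a' b b' : E}
    (ha : SA P ω a a') (hb : SA P ω b b') :
    ‖⟪b, a'⟫_ℂ‖ ≤ (1 + C) * (-(⟪a, a'⟫_ℂ).re + -(⟪b, b'⟫_ℂ).re) := by
  have h0 := hq _ _ (SA_add ha hb)
  have h1 := hq _ _ (SA_add ha (SA_smul hb Complex.I))
  have h2 := hq _ _ (SA_add ha (SA_smul hb (-1)))
  have h3 := hq _ _ (SA_add ha (SA_smul hb (-Complex.I)))
  have e : 4 * ⟪b, a'⟫_ℂ = ⟪a + b, a' + b'⟫_ℂ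
      + Complex.I * ⟪a + Complex.I • b, a' + Complex.I • b'⟫_ℂ
      - ⟪a + (-1 : ℂ) • b, a' + (-1 : ℂ) • b'⟫_ℂ
      - Complex.I * ⟪a + (-Complex.I) • b, a' + (-Complex.I) • b'⟫_ℂ := by
    simp only [inner_add_left, inner_add_right, inner_smul_left, inner_smul_right, map_neg,
      Complex.conj_I, map_one]
    linear_combination (2 * ⟪b, a'⟫_ℂ - 2 * ⟪a, b'⟫_ℂ) * Complex.I_sq
  have e2 : (⟪a + b, a' + b'⟫_ℂ).re + (⟪a + Complex.I • b, a' + Complex.I • b'⟫_ℂ).re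
      + (⟪a + (-1 : ℂ) • b, a' + (-1 : ℂ) • b'⟫_ℂ).re
      + (⟪a + (-Complex.I) • b, a' + (-Complex.I) • b'⟫_ℂ).re
      = 4 * ((⟪a, a'⟫_ℂ).re + (⟪b, b'⟫_ℂ).re) := by
    rw [← Complex.add_re, ← Complex.add_re, ← Complex.add_re]
    have e3 : ⟪a + b, a' + b'⟫_ℂ + ⟪a + Complex.I • b, a' + Complex.I • b'⟫_ℂ
      + ⟪a + (-1 : ℂ) • b, a' + (-1 : ℂ) • b'⟫_ℂ
      + ⟪a + (-Complex.I) • b, a' + (-Complex.I) • b'⟫_ℂ = ((4 : ℝ) : ℂ) * (⟪a, a'⟫_ℂ + ⟪b, b'⟫_ℂ) := by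
      simp only [inner_add_left, inner_add_right, inner_smul_left, inner_smul_right, map_neg,
        Complex.conj_I, map_one]
      push_cast
      linear_combination (-2 * ⟪b, b'⟫_ℂ) * Complex.I_sq
    rw [e3, Complex.re_ofReal_mul, Complex.add_re]
  have n4 : ‖4 * ⟪b, a'⟫_ℂ‖ = 4 * ‖⟪b, a'⟫_ℂ‖ := by
    rw [norm_mul]; simp
  have n5 : ‖4 * ⟪b, a'⟫_ℂ‖ ≤ ‖⟪a + b, a' + b'⟫_ℂ‖
      + ‖⟪a + Complex.I • b, a' + Complex.I • b'⟫_ℂ‖
      + ‖⟪a + (-1 : ℂ) • b, a' + (-1 : ℂ) • b'⟫_ℂ‖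
      + ‖⟪a + (-Complex.I) • b, a' + (-Complex.I) • b'⟫_ℂ‖ := by
    rw [e]
    refine (norm_sub_le _ _).trans ?_
    have m1 := norm_sub_le (⟪a + b, a' + b'⟫_ℂ
      + Complex.I * ⟪a + Complex.I • b, a' + Complex.I • b'⟫_ℂ)
      (⟪a + (-1 : ℂ) • b, a' + (-1 : ℂ) • b'⟫_ℂ)
    have m2 := norm_add_le (⟪a + b, a' + b'⟫_ℂ)
      (Complex.I * ⟪a + Complex.I • b, a' + Complex.I • b'⟫_ℂ)
    rw [norm_mul, Complex.norm_I, one_mul] at m2 ⊢
    linarith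
  have key : 4 * ‖⟪b, a'⟫_ℂ‖ ≤ (1 + C) * (4 * (-(⟪a, a'⟫_ℂ).re + -(⟪b, b'⟫_ℂ).re)) := by
    rw [← n4]
    refine n5.trans ?_
    have : (1 + C) * (4 * (-(⟪a, a'⟫_ℂ).re + -(⟪b, b'⟫_ℂ).re))
        = (1 + C) * (-(⟪a + b, a' + b'⟫_ℂ).re)
        + (1 + C) * (-(⟪a + Complex.I • b, a' + Complex.I • b'⟫_ℂ).re)
        + (1 + C) * (-(⟪a + (-1 : ℂ) • b, a' + (-1 : ℂ) • b'⟫_ℂ).re)
        + (1 + C) * (-(⟪a + (-Complex.I) • b, a' + (-Complex.I) • b'⟫_ℂ).re) := by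
      linear_combination (1 + C) * e2
    rw [this]
    linarith
  linarith

theorem se_polar2 {P : C0Semigroup E} {ω C : ℝ} (hC : 0 ≤ C)
    (hq : ∀ f g, SA P ω f g → ‖⟪f, g⟫_ℂ‖ ≤ (1 + C) * (-(⟪f, g⟫_ℂ).re)) {a a' b b' : E}
    (ha : SA P ω a a') (hb : SA P ω b b') {l : ℝ} (hl : 0 < l) :
    ‖⟪b, a'⟫_ℂ‖ ≤ (1 + C) * (l * -(⟪a, a'⟫_ℂ).re + l⁻¹ * -(⟪b, b'⟫_ℂ).re) := by
  have hs : 0 < Real.sqrt l := Real.sqrt_pos.2 hl
  have hs2 : Real.sqrt l * Real.sqrt l = l := Real.mul_self_sqrt hl.le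
  have h := se_polar hC hq (SA_smul ha ((Real.sqrt l : ℝ) : ℂ)) (SA_smul hb (((Real.sqrt l)⁻¹ : ℝ) : ℂ))
  simp only [inner_smul_left, inner_smul_right, Complex.conj_ofReal] at h
  have e1 : (((Real.sqrt l)⁻¹ : ℝ) : ℂ) * ((((Real.sqrt l : ℝ)) : ℂ) * ⟪b, a'⟫_ℂ) = ⟪b, a'⟫_ℂ := by
    rw [← mul_assoc, ← Complex.ofReal_mul, inv_mul_cancel₀ hs.ne', Complex.ofReal_one, one_mul]
  have e1' : (((Real.sqrt l : ℝ)) : ℂ) * ((((Real.sqrt l)⁻¹ : ℝ) : ℂ) * ⟪b, a'⟫_ℂ) = ⟪b, a'⟫_ℂ := by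
    rw [← mul_assoc, ← Complex.ofReal_mul, mul_inv_cancel₀ hs.ne', Complex.ofReal_one, one_mul]
  have e2 : ((((Real.sqrt l : ℝ)) : ℂ) * ((((Real.sqrt l : ℝ)) : ℂ) * ⟪a, a'⟫_ℂ)).re
      = l * (⟪a, a'⟫_ℂ).re := by
    rw [Complex.re_ofReal_mul, Complex.re_ofReal_mul, ← mul_assoc, hs2]
  have e3 : ((((Real.sqrt l)⁻¹ : ℝ) : ℂ) * ((((Real.sqrt l)⁻¹ : ℝ) : ℂ) * ⟪b, b'⟫_ℂ)).re
      = l⁻¹ * (⟪b, b'⟫_ℂ).re := by
    rw [Complex.re_ofReal_mul, Complex.re_ofReal_mul, ← mul_assoc, ← mul_inv, hs2]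
  rw [e2, e3] at h
  first
    | rw [e1] at h
    | rw [e1'] at h
  calc _ ≤ _ := h
    _ = _ := by ring

/-- bound for quasi-contractive semigroups with a core, and the analytic estimate
`‖t A S_t‖ ≤ K` from sectoriality (`A = G - ω`, `S_t = e^{-ωt} P_t`) -/
theorem sectorial_estimate (P : C0Semigroup E) {V : Type} [AddCommGroup V] [Module ℂ V]
    (e : V →ₗ[ℂ] E) (G₀ : V →ₗ[ℂ] V) (he : DenseRange e)
    (hG : ∀ f g, P.IsGen f g ↔ (f, g) ∈ closure (Set.range fun x => (e x, e (G₀ x))))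
    (C ω : ℝ) (hC : 0 ≤ C) (hω : 0 ≤ ω)
    (hdis : ∀ x, (⟪e x, e (G₀ x)⟫_ℂ).re ≤ ω * ‖e x‖ ^ 2)
    (hsec : ∀ x, |(⟪e x, e (G₀ x)⟫_ℂ).im| ≤ C * (ω * ‖e x‖ ^ 2 - (⟪e x, e (G₀ x)⟫_ℂ).re)) :
    (∀ t : ℝ, 0 ≤ t → ∀ f, ‖P.T t f‖ ≤ Real.exp (ω * t) * ‖f‖) ∧
    (∀ (x : V) (t : ℝ), 0 ≤ t → HasDerivWithinAt (fun s => P.T s (e x)) (P.T t (e (G₀ x)))
      (Set.Ici t) t) ∧
    (∀ x : V, ContinuousOn (fun s => P.T s (e x)) (Set.Ici 0)) ∧
    ∃ K : ℝ, 0 ≤ K ∧ ∀ (x : V) (t : ℝ), 0 < t →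
      t * ‖P.T t (e (G₀ x)) - (ω : ℂ) • P.T t (e x)‖ ≤ K * Real.exp (ω * t) * ‖e x‖ := by
  have hgen : ∀ x : V, P.IsGen (e x) (e (G₀ x)) := fun x =>
    (hG _ _).2 (subset_closure ⟨x, rfl⟩)
  -- extension of the form bounds to the graph
  have hdis' : ∀ f g, P.IsGen f g → (⟪f, g⟫_ℂ).re ≤ ω * ‖f‖ ^ 2 := by
    intro f g hfg
    have hcl : IsClosed {p : E × E | (⟪p.1, p.2⟫_ℂ).re ≤ ω * ‖p.1‖ ^ 2} := by
      apply isClosed_le
      · exact Complex.continuous_re.comp (continuous_fst.inner continuous_snd)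
      · fun_prop
    exact closure_minimal (by rintro _ ⟨x, rfl⟩; exact hdis x) hcl ((hG f g).1 hfg)
  have hsec' : ∀ f g, P.IsGen f g →
      |(⟪f, g⟫_ℂ).im| ≤ C * (ω * ‖f‖ ^ 2 - (⟪f, g⟫_ℂ).re) := by
    intro f g hfg
    have hci : Continuous (fun p : E × E => ⟪p.1, p.2⟫_ℂ) := continuous_fst.inner continuous_snd
    have hcl : IsClosed {p : E × E | |(⟪p.1, p.2⟫_ℂ).im|
        ≤ C * (ω * ‖p.1‖ ^ 2 - (⟪p.1, p.2⟫_ℂ).re)} := by
      apply isClosed_le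
      · exact (Complex.continuous_im.comp hci).abs
      · have h1 : Continuous (fun p : E × E => (⟪p.1, p.2⟫_ℂ).re) := Complex.continuous_re.comp hci
        have h2 : Continuous (fun p : E × E => ω * ‖p.1‖ ^ 2) := by fun_prop
        exact (h2.sub h1).const_mul C
    exact closure_minimal (by rintro _ ⟨x, rfl⟩; exact hsec x) hcl ((hG f g).1 hfg)
  have hSre : ∀ f g, SA P ω f g → (⟪f, g⟫_ℂ).re = (⟪f, g + (ω : ℂ) • f⟫_ℂ).re - ω * ‖f‖ ^ 2 := by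
    intro f g _
    rw [inner_add_right, inner_smul_right, Complex.add_re, Complex.re_ofReal_mul]
    have : (⟪f, f⟫_ℂ).re = ‖f‖ ^ 2 := inner_self_eq_norm_sq (𝕜 := ℂ) f
    rw [this]; ring
  have hSim : ∀ f g, SA P ω f g → (⟪f, g⟫_ℂ).im = (⟪f, g + (ω : ℂ) • f⟫_ℂ).im := by
    intro f g _
    rw [inner_add_right, inner_smul_right, Complex.add_im, Complex.im_ofReal_mul]
    have : (⟪f, f⟫_ℂ).im = 0 := inner_self_im (𝕜 := ℂ) f
    rw [this]; ring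
  have hS0 : ∀ f g, SA P ω f g → 0 ≤ -(⟪f, g⟫_ℂ).re := by
    intro f g h
    rw [hSre f g h]
    have := hdis' _ _ h
    linarith
  have hq : ∀ f g, SA P ω f g → ‖⟪f, g⟫_ℂ‖ ≤ (1 + C) * (-(⟪f, g⟫_ℂ).re) := by
    intro f g h
    have h1 := hS0 f g h
    have h2 := hsec' _ _ h
    have h3 : |(⟪f, g⟫_ℂ).im| ≤ C * (-(⟪f, g⟫_ℂ).re) := by
      rw [hSim f g h, hSre f g h]
      refine h2.trans (le_of_eq ?_)
      ring
    refine (Complex.norm_le_abs_re_add_abs_im _).trans ?_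
    have h4 : |(⟪f, g⟫_ℂ).re| = -(⟪f, g⟫_ℂ).re := abs_of_nonpos (by linarith)
    rw [h4]
    linarith
  -- scaled semigroup
  have hexpd : ∀ t : ℝ, HasDerivWithinAt (fun s : ℝ => Real.exp (-ω * s)) (-ω * Real.exp (-ω * t))
      (Set.Ici t) t := by
    intro t
    have h1 : HasDerivAt (fun s : ℝ => -ω * s) (-ω) t := by
      simpa using (hasDerivAt_id t).const_mul (-ω)
    have h2 := h1.exp
    rw [mul_comm] at h2
    exact h2.hasDerivWithinAt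
  have hder : ∀ f g, SA P ω f g → ∀ t : ℝ, 0 ≤ t →
      HasDerivWithinAt (fun s => Real.exp (-ω * s) • P.T s f) (Real.exp (-ω * t) • P.T t g)
        (Set.Ici t) t := by
    intro f g h t ht
    have h1 := (hexpd t).smul (C0Semigroup.hasDerivWithinAt P h t ht)
    have e1 : Real.exp (-ω * t) • (P.T t) (g + (ω : ℂ) • f) + (-ω * Real.exp (-ω * t)) • (P.T t) f
        = Real.exp (-ω * t) • P.T t g := by
      rw [map_add, map_smul, smul_add, add_assoc]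
      have e2 : ((ω : ℂ) • P.T t f) = ω • P.T t f := Complex.coe_smul ω _
      rw [e2, smul_smul, ← add_smul]
      have e3 : Real.exp (-ω * t) * ω + -ω * Real.exp (-ω * t) = 0 := by ring
      rw [e3, zero_smul, add_zero]
    rw [e1] at h1
    exact h1
  have hcon : ∀ f, ContinuousOn (fun s => Real.exp (-ω * s) • P.T s f) (Set.Ici 0) := by
    intro f
    have h1 : ContinuousOn (fun s : ℝ => Real.exp (-ω * s)) (Set.Ici 0) := by fun_prop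
    exact h1.smul (C0Semigroup.continuousOn P f)
  have hSA : ∀ f g, SA P ω f g → ∀ t : ℝ, 0 ≤ t →
      SA P ω (Real.exp (-ω * t) • P.T t f) (Real.exp (-ω * t) • P.T t g) := by
    intro f g h t ht
    have h1 : SA P ω (P.T t f) (P.T t g) := by
      unfold SA at *
      have h2 := C0Semigroup.isGen_map P h t ht
      rw [map_add, map_smul] at h2
      exact h2
    have h2 := SA_smul h1 ((Real.exp (-ω * t) : ℝ) : ℂ)
    rw [Complex.coe_smul, Complex.coe_smul] at h2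
    exact h2
  have hSe : ∀ x : V, SA P ω (e x) (e (G₀ x - (ω : ℂ) • x)) := by
    intro x
    unfold SA
    rw [map_sub, map_smul, sub_add_cancel]
    exact hgen x
  -- contraction
  have hcontr : ∀ f g, SA P ω f g → ∀ t : ℝ, 0 ≤ t → ‖Real.exp (-ω * t) • P.T t f‖ ^ 2 ≤ ‖f‖ ^ 2 := by
    intro f g h t ht
    have h1 := se_anti (φ := fun s => ‖Real.exp (-ω * s) • P.T s f‖ ^ 2)
      (φ' := fun s => 2 * (⟪Real.exp (-ω * s) • P.T s f, Real.exp (-ω * s) • P.T s g⟫_ℂ).re)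
      ((hcon f).norm.pow 2) (fun s hs => se_nsq (hder f g h s hs))
      (fun s hs => by
        have := hS0 _ _ (hSA f g h s hs)
        linarith) ht
    simp only [mul_zero, Real.exp_zero, one_smul, P.map_zero] at h1
    simpa using h1
  have hbound : ∀ t : ℝ, 0 ≤ t → ∀ f, ‖P.T t f‖ ≤ Real.exp (ω * t) * ‖f‖ := by
    intro t ht f
    have hcl : IsClosed {f : E | ‖P.T t f‖ ≤ Real.exp (ω * t) * ‖f‖} := by
      apply isClosed_le <;> fun_prop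
    have hr : ∀ x : V, e x ∈ {f : E | ‖P.T t f‖ ≤ Real.exp (ω * t) * ‖f‖} := by
      intro x
      have h1 := hcontr _ _ (hSe x) t ht
      have h2 := le_of_sq_le_sq h1 (norm_nonneg _)
      rw [norm_smul, Real.norm_eq_abs, abs_of_pos (Real.exp_pos _)] at h2
      change ‖P.T t (e x)‖ ≤ Real.exp (ω * t) * ‖e x‖
      have h3 : ‖P.T t (e x)‖ = Real.exp (ω * t) * (Real.exp (-ω * t) * ‖P.T t (e x)‖) := by
        rw [← mul_assoc, ← Real.exp_add]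
        have : ω * t + -ω * t = 0 := by ring
        rw [this, Real.exp_zero, one_mul]
      rw [h3]
      exact mul_le_mul_of_nonneg_left h2 (Real.exp_pos _).le
    have h4 : closure (Set.range e) ⊆ {f : E | ‖P.T t f‖ ≤ Real.exp (ω * t) * ‖f‖} :=
      closure_minimal (by rintro _ ⟨x, rfl⟩; exact hr x) hcl
    exact h4 (he f)
  refine ⟨hbound, fun x t ht => C0Semigroup.hasDerivWithinAt P (hgen x) t ht,
    fun x => C0Semigroup.continuousOn P (e x), 2 * (1 + C), by positivity, ?_⟩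
  intro x t ht
  set x1 : V := G₀ x - (ω : ℂ) • x with hx1
  set x2 : V := G₀ x1 - (ω : ℂ) • x1 with hx2
  set u : ℝ → E := fun s => Real.exp (-ω * s) • P.T s (e x) with hu
  set v : ℝ → E := fun s => Real.exp (-ω * s) • P.T s (e x1) with hv
  set w : ℝ → E := fun s => Real.exp (-ω * s) • P.T s (e x2) with hw
  have du : ∀ s, 0 ≤ s → HasDerivWithinAt u (v s) (Set.Ici s) s := hder _ _ (hSe x)
  have dv : ∀ s, 0 ≤ s → HasDerivWithinAt v (w s) (Set.Ici s) s := hder _ _ (hSe x1)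
  have auv : ∀ s, 0 ≤ s → SA P ω (u s) (v s) := hSA _ _ (hSe x)
  have avw : ∀ s, 0 ≤ s → SA P ω (v s) (w s) := hSA _ _ (hSe x1)
  have hF := se_anti (φ := fun s => s ^ 2 * ‖v s‖ ^ 2 / 2 + (1 + C) ^ 2 * ‖u s‖ ^ 2)
    (φ' := fun s => (2 * s * ‖v s‖ ^ 2 + s ^ 2 * (2 * (⟪v s, w s⟫_ℂ).re)) / 2
      + (1 + C) ^ 2 * (2 * (⟪u s, v s⟫_ℂ).re))
    (by
      have c1 : ContinuousOn v (Set.Ici 0) := hcon _
      have c2 : ContinuousOn u (Set.Ici 0) := hcon _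
      fun_prop)
    (by
      intro s hs
      have h1 : HasDerivWithinAt (fun s : ℝ => s ^ 2) (2 * s) (Set.Ici s) s := by
        have := (hasDerivAt_pow 2 s).hasDerivWithinAt (s := Set.Ici s)
        simpa using this
      have h2 := h1.fun_mul (se_nsq (dv s hs))
      have h3 := (h2.div_const 2).fun_add ((se_nsq (du s hs)).const_mul ((1 + C) ^ 2))
      exact h3)
    (by
      intro s hs
      have q1 := hS0 _ _ (auv s hs)
      have q2 := hS0 _ _ (avw s hs)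
      rcases hs.eq_or_lt with h0 | h0
      · rw [← h0]
        have h5 : 0 ≤ (1 + C) ^ 2 * (-(⟪u s, v s⟫_ℂ).re) := by positivity
        rw [← h0] at h5
        simp only [mul_zero, zero_mul, ne_eq, OfNat.ofNat_ne_zero, not_false_eq_true, zero_pow,
          add_zero, zero_div, zero_add]
        linarith
      · have hl : 0 < 2 * (1 + C) / s := by positivity
        have h1 := se_polar2 hC hq (auv s hs) (avw s hs) hl
        have h2 : ‖⟪v s, v s⟫_ℂ‖ = ‖v s‖ ^ 2 := by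
          rw [inner_self_eq_norm_sq_to_K]
          simp
        rw [h2] at h1
        have h3 : s * ‖v s‖ ^ 2 ≤ 2 * (1 + C) ^ 2 * (-(⟪u s, v s⟫_ℂ).re)
            + s ^ 2 / 2 * (-(⟪v s, w s⟫_ℂ).re) := by
          calc s * ‖v s‖ ^ 2 ≤ s * ((1 + C) * (2 * (1 + C) / s * -(⟪u s, v s⟫_ℂ).re
                + (2 * (1 + C) / s)⁻¹ * -(⟪v s, w s⟫_ℂ).re)) := by gcongr
            _ = _ := by
              have hC1 : (1 + C) ≠ 0 := by positivity
              have hs0 : s ≠ 0 := h0.ne'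
              field_simp
        have h4 : 0 ≤ s ^ 2 / 2 * (-(⟪v s, w s⟫_ℂ).re) := by positivity
        nlinarith) ht.le
  have hu0 : u 0 = e x := by
    simp only [hu, mul_zero, Real.exp_zero, one_smul, P.map_zero]
    simp
  have hF2 : t ^ 2 * ‖v t‖ ^ 2 / 2 ≤ (1 + C) ^ 2 * ‖e x‖ ^ 2 := by
    simp only [hu0] at hF
    have : 0 ≤ (1 + C) ^ 2 * ‖u t‖ ^ 2 := by positivity
    have e0 : (0:ℝ) ^ 2 * ‖v 0‖ ^ 2 / 2 = 0 := by simp
    rw [e0] at hF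
    linarith
  have hF3 : t * ‖v t‖ ≤ 2 * (1 + C) * ‖e x‖ := by
    apply le_of_sq_le_sq _ (by positivity)
    have : 0 ≤ (1 + C) ^ 2 * ‖e x‖ ^ 2 := by positivity
    nlinarith
  have e1 : P.T t (e (G₀ x)) - (ω : ℂ) • P.T t (e x) = Real.exp (ω * t) • v t := by
    have e2 : P.T t (e (G₀ x)) - (ω : ℂ) • P.T t (e x) = P.T t (e x1) := by
      rw [hx1, map_sub, map_sub, map_smul, map_smul]
    rw [e2]
    simp only [hv]
    rw [smul_smul, ← Real.exp_add]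
    have : ω * t + -ω * t = 0 := by ring
    rw [this, Real.exp_zero, one_smul]
  rw [e1, norm_smul, Real.norm_eq_abs, abs_of_pos (Real.exp_pos _)]
  calc t * (Real.exp (ω * t) * ‖v t‖) = Real.exp (ω * t) * (t * ‖v t‖) := by ring
    _ ≤ Real.exp (ω * t) * (2 * (1 + C) * ‖e x‖) := mul_le_mul_of_nonneg_left hF3 (Real.exp_pos _).le
    _ = 2 * (1 + C) * Real.exp (ω * t) * ‖e x‖ := by ring

end target

end GQ
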