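import Mathlib
import Pool.Agent.GQ.Defs
import Pool.Agent.GQ.Ladder
import Pool.Agent.GQ.LinAlg
import Pool.Agent.GQ.Sect
import Pool.Agent.GQ.Semi
import Pool.Agent.GQ.SectEst
import Pool.Agent.GQ.NormDiff
import Pool.Agent.GQ.Extend
import Pool.Agent.GQ.QuasiModes
import Pool.Agent.GQ.Symbols
import Pool.Agent.GQ.Coherent
import Pool.Agent.GQ.CohBound
import Pool.Agent.GQ.Point

/-!
# Gaussian quantum Markov semigroups: the classification of analyticity
-/

open Filter Topology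
open scoped ENNReal ComplexConjugate InnerProductSpace

namespace GQ

/-- a sectorial generator generates an analytic semigroup -/
theorem isAnalytic_of_sectorial {E : Type} [NormedAddCommGroup E] [InnerProductSpace ℂ E]
    [CompleteSpace E] (P : C0Semigroup E) {V : Type} [AddCommGroup V] [Module ℂ V]
    (e : V →ₗ[ℂ] E) (G₀ : V →ₗ[ℂ] V) (he : DenseRange e)
    (hG : ∀ f g, P.IsGen f g ↔ (f, g) ∈ closure (Set.range fun x => (e x, e (G₀ x))))
    (C ω : ℝ) (hC : 0 ≤ C) (hω : 0 ≤ ω)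
    (hdis : ∀ x, (⟪e x, e (G₀ x)⟫_ℂ).re ≤ ω * ‖e x‖ ^ 2)
    (hsec : ∀ x, |(⟪e x, e (G₀ x)⟫_ℂ).im| ≤ C * (ω * ‖e x‖ ^ 2 - (⟪e x, e (G₀ x)⟫_ℂ).re)) :
    P.IsAnalytic := by
  obtain ⟨hbd, hder, hcont, K, hK, hKb⟩ := sectorial_estimate P e G₀ he hG C ω hC hω hdis hsec
  set S : ℝ → E →L[ℂ] E := fun t => ((Real.exp (-(ω * t)) : ℝ) : ℂ) • P.T t with hSdef
  have hS0 : S 0 = 1 := by simp [hSdef, P.map_zero]
  have hadd : ∀ s t : ℝ, 0 ≤ s → 0 ≤ t → S (s + t) = S s * S t := by
    intro s t hs ht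
    simp only [hSdef]
    rw [P.map_add s t hs ht, smul_mul_smul_comm]
    congr 1
    rw [← Complex.ofReal_mul, ← Real.exp_add]
    congr 2
    ring
  have hS1 : ∀ t : ℝ, 0 ≤ t → ‖S t‖ ≤ 1 := by
    intro t ht
    refine ContinuousLinearMap.opNorm_le_bound _ zero_le_one fun f => ?_
    simp only [hSdef]
    rw [smul_apply, norm_smul, Complex.norm_real, Real.norm_eq_abs, abs_of_pos (Real.exp_pos _)]
    calc Real.exp (-(ω * t)) * ‖P.T t f‖ ≤ Real.exp (-(ω * t)) * (Real.exp (ω * t) * ‖f‖) := by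
          gcongr
          exact hbd t ht f
      _ = 1 * ‖f‖ := by rw [← mul_assoc, ← Real.exp_add]; simp
  set A : V →ₗ[ℂ] V := G₀ - (ω : ℂ) • (LinearMap.id : V →ₗ[ℂ] V) with hA
  have hAx : ∀ x, e (A x) = e (G₀ x) - (ω : ℂ) • e x := by
    intro x
    simp [hA]
  have hderS : ∀ (x : V) (t : ℝ), 0 ≤ t →
      HasDerivWithinAt (fun s => S s (e x)) (S t (e (A x))) (Set.Ici t) t := by
    intro x t ht
    have h1 := hder x t ht
    have h2 : HasDerivWithinAt (fun s : ℝ => ((Real.exp (-(ω * s)) : ℝ) : ℂ))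
        ((-(ω * Real.exp (-(ω * t))) : ℝ) : ℂ) (Set.Ici t) t := by
      have h3 : HasDerivAt (fun s : ℝ => Real.exp (-(ω * s)))
          (Real.exp (-(ω * t)) * (-(ω * 1))) t :=
        (((hasDerivAt_id t).const_mul ω).neg).exp
      have h4 := h3.ofReal_comp
      refine (h4.congr_deriv ?_).hasDerivWithinAt
      congr 1
      ring
    have h5 := h2.smul h1
    refine h5.congr_deriv ?_ |>.congr (fun s _ => ?_) ?_
    · simp only [hSdef]
      rw [smul_apply, hAx, map_sub, map_smul, smul_sub]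
      rw [smul_smul]
      push_cast
      module
    · simp [hSdef]
    · simp [hSdef]
  have hcontS : ∀ x : V, ContinuousOn (fun s => S s (e x)) (Set.Ici 0) := by
    intro x
    have h2 : Continuous (fun s : ℝ => ((Real.exp (-(ω * s)) : ℝ) : ℂ)) := by fun_prop
    exact h2.continuousOn.smul (hcont x)
  have hbdS : ∀ (x : V) (t : ℝ), 0 < t → t * ‖S t (e (A x))‖ ≤ K * ‖e x‖ := by
    intro x t ht
    have h1 := hKb x t ht
    have h2 : S t (e (A x)) = ((Real.exp (-(ω * t)) : ℝ) : ℂ) •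
        (P.T t (e (G₀ x)) - (ω : ℂ) • P.T t (e x)) := by
      simp only [hSdef]
      rw [smul_apply, hAx, map_sub, map_smul]
    rw [h2, norm_smul, Complex.norm_real, Real.norm_eq_abs, abs_of_pos (Real.exp_pos _)]
    calc t * (Real.exp (-(ω * t)) * ‖P.T t (e (G₀ x)) - (ω : ℂ) • P.T t (e x)‖)
        = Real.exp (-(ω * t)) * (t * ‖P.T t (e (G₀ x)) - (ω : ℂ) • P.T t (e x)‖) := by ring
      _ ≤ Real.exp (-(ω * t)) * (K * Real.exp (ω * t) * ‖e x‖) := by gcongr
      _ = K * ‖e x‖ * (Real.exp (-(ω * t)) * Real.exp (ω * t)) := by ring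
      _ = K * ‖e x‖ := by rw [← Real.exp_add]; simp
  obtain ⟨B, hB, hBd⟩ := norm_differentiable S hS0 hadd hS1 e he A hderS hcontS K hK hbdS
  obtain ⟨θ, hθ0, hθ1, Q, hQd, hQS, M, hM⟩ := extend_sector S B
    (fun s t hs ht => hadd s t hs.le ht.le) (fun t ht => hS1 t ht.le) K hK hB hBd
  refine ⟨θ, hθ0, hθ1, fun z => Complex.exp ((ω : ℂ) * z) • Q z, ?_, ?_, Real.exp ω * |M|, ?_⟩
  · have h1 : DifferentiableOn ℂ (fun z : ℂ => Complex.exp ((ω : ℂ) * z)) (sector θ) :=
      (by fun_prop : Differentiable ℂ fun z : ℂ => Complex.exp ((ω : ℂ) * z)).differentiableOn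
    exact h1.smul hQd
  · intro t ht
    simp only
    rw [hQS t ht]
    simp only [hSdef]
    rw [smul_smul, Complex.ofReal_exp, ← Complex.exp_add]
    push_cast
    rw [add_neg_cancel, Complex.exp_zero, one_smul]
  · intro z hz hz1
    simp only
    rw [norm_smul, Complex.norm_exp]
    have h1 : ((ω : ℂ) * z).re ≤ ω := by
      simp only [Complex.mul_re, Complex.ofReal_re, Complex.ofReal_im, zero_mul, sub_zero]
      calc ω * z.re ≤ ω * 1 := by
            gcongr
            exact (Complex.re_le_norm z).trans hz1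
        _ = ω := mul_one ω
    have h2 : ‖Q z‖ ≤ |M| := (hM z hz.1 hz.2).trans (le_abs_self M)
    gcongr

/-- **Classification.** The Gaussian semigroup is analytic iff the condition holds. -/
theorem isAnalytic_iff {d : ℕ} (p : Param d) (P : C0Semigroup (Fock d)) (hP : p.Generates P) :
    P.IsAnalytic ↔ p.Cond := by
  constructor
  · intro hA
    by_contra hC
    refine not_analytic P hA fun δ hδ K₀ => ?_
    obtain ⟨C, hC0, hCb⟩ := p.coherent_bound
    obtain ⟨z, hz1, hz2⟩ := p.exists_point hC C (δ / 2) (max K₀ 1) hC0 (by positivity)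
    have hpos : 0 < |p.Hz z| := lt_of_lt_of_le one_pos ((le_max_right K₀ 1).trans hz1)
    obtain ⟨x, hx1, hx2⟩ := hCb z (δ / 2 * |p.Hz z|) (by positivity)
    refine ⟨p.Hz z, (le_max_left K₀ 1).trans hz1, emb d x, emb d (p.G₀ x), ?_, ?_, ?_⟩
    · exact (hP _ _).2 (subset_closure ⟨x, rfl⟩)
    · intro h0
      rw [h0, norm_zero] at hx1
      linarith
    · refine hx2.trans ?_
      gcongr
      linarith
  · intro hC
    obtain ⟨C, ω, hC0, hω0, hs⟩ := p.sectorial hC
    refine isAnalytic_of_sectorial P (emb d) p.G₀ (emb_dense d) hP C ω hC0 hω0 ?_ hs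
    intro x
    rw [p.re_inner_G₀ x]
    have h1 : 0 ≤ ∑ l, ‖emb d (p.L l x)‖ ^ 2 := Finset.sum_nonneg fun _ _ => by positivity
    have h2 : 0 ≤ ω * ‖emb d x‖ ^ 2 := by positivity
    linarith

end GQ
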